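import Pool.Agent.N20.EW.Stm3
import Pool.Agent.N20.AE.Stm
import Pool.Agent.Y63.NV.Final
import Pool.Agent.R674.Ce.Sub
import Pool.Agent.Y286.NV.Fin
import Pool.Agent.Y171.NV.Kfin

/-!
# The weight conjecture and automorphisms: assembly
-/

set_option autoImplicit false
set_option linter.unusedSectionVars false
set_option linter.unusedVariables false

open scoped Classical BigOperators

noncomputable section

namespace Pool.Agent.N20.EW

open Pool.Agent.Y63.NV
open Pool.Agent.Y63.KR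
open Pool.Agent.Y63.AWC (IsIrreducibleCharacter pSubgroupSetoid)
open Pool.Agent.N20.AE (S_MM S_HT S_ZE S_UP Sit)

section groups

variable {E : Type} [Group E] [Finite E] (N : Subgroup E) [N.Normal]

/-- orders of images in the quotient -/
theorem card_img (S : Subgroup E) (U : Subgroup (E ⧸ N)) :
    Nat.card ↥(S ⊓ U.comap (QuotientGroup.mk' N)) =
      Nat.card ↥(S ⊓ N) * Nat.card ↥(S.map (QuotientGroup.mk' N) ⊓ U) := by
  let f : ↥(S ⊓ U.comap (QuotientGroup.mk' N)) →* E ⧸ N :=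
    (QuotientGroup.mk' N).comp (S ⊓ U.comap (QuotientGroup.mk' N)).subtype
  have hker : Nat.card f.ker = Nat.card ↥(S ⊓ N) := by
    refine Nat.card_congr
      { toFun := fun x => ⟨x.1.1, Subgroup.mem_inf.2 ⟨(Subgroup.mem_inf.1 x.1.2).1,
          (QuotientGroup.eq_one_iff _).1 x.2⟩⟩
        invFun := fun x => ⟨⟨x.1, Subgroup.mem_inf.2 ⟨(Subgroup.mem_inf.1 x.2).1, ?_⟩⟩,
          (QuotientGroup.eq_one_iff (x : E)).2 (Subgroup.mem_inf.1 x.2).2⟩
        left_inv := fun x => rfl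
        right_inv := fun x => rfl }
    rw [Subgroup.mem_comap]
    have : (QuotientGroup.mk' N) x.1 = 1 :=
      (QuotientGroup.eq_one_iff x.1).2 (Subgroup.mem_inf.1 x.2).2
    rw [this]
    exact U.one_mem
  have hran : f.range = S.map (QuotientGroup.mk' N) ⊓ U := by
    ext y
    rw [Subgroup.mem_inf]
    constructor
    · rintro ⟨x, rfl⟩
      obtain ⟨h2, h3⟩ := Subgroup.mem_inf.1 x.2
      exact ⟨⟨x.1, h2, rfl⟩, h3⟩
    · rintro ⟨⟨x, hx, rfl⟩, h3⟩
      exact ⟨⟨x, Subgroup.mem_inf.2 ⟨hx, h3⟩⟩, rfl⟩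
  have h2 := f.ker.card_mul_index
  rw [Subgroup.index_ker, hker, hran] at h2
  exact h2.symm

end groups

section

variable {G E : Type} [Group G] [Group E] (i : G →* E)

/-- the stabiliser of a function -/
def stF (hi : Function.Injective i) (hn : i.range.Normal) {X : Type} (φ : G → X) : Subgroup E where
  carrier := {k | ∀ x y : G, i y = k * i x * k⁻¹ → φ y = φ x}
  one_mem' := fun x y h => by
    have : y = x := hi (by rw [h]; group)
    rw [this]
  mul_mem' := fun {a b} ha hb x y h => by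
    obtain ⟨w, hw⟩ := hn.conj_mem (i x) ⟨x, rfl⟩ b
    rw [← hb x w hw]
    refine ha w y ?_
    rw [h, hw]
    group
  inv_mem' := fun {a} ha x y h => (ha y x (by rw [h]; group)).symm

theorem nor_map (hi : Function.Injective i) (R : Subgroup G) (w : G) :
    i w ∈ Subgroup.normalizer ((R.map i : Subgroup E) : Set E) ↔
      w ∈ Subgroup.normalizer (R : Set G) := by
  have hm : ∀ x : G, i x ∈ R.map i ↔ x ∈ R := by
    intro x
    constructor
    · rintro ⟨y, hy, h⟩
      rwa [← hi h]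
    · intro h
      exact ⟨x, h, rfl⟩
  rw [Subgroup.mem_normalizer_iff, Subgroup.mem_normalizer_iff]
  constructor
  · intro h x
    have h1 := h (i x)
    rw [hm, ← map_inv, ← map_mul, ← map_mul, hm] at h1
    exact h1
  · intro h x
    constructor
    · rintro ⟨y, hy, rfl⟩
      exact ⟨w * y * w⁻¹, (h y).1 hy, by rw [map_mul, map_mul, map_inv]⟩
    · rintro ⟨y, hy, h2⟩
      refine ⟨w⁻¹ * y * w, (h _).2 ?_, ?_⟩
      · have : w * (w⁻¹ * y * w) * w⁻¹ = y := by group
        rwa [this]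
      · rw [map_mul, map_mul, map_inv, h2]
        group

/-- the stabiliser of a pair -/
def stW (hi : Function.Injective i) (hn : i.range.Normal) (R : Subgroup G)
    (ξ : Subgroup.normalizer (R : Set G) → ℂ) : Subgroup E where
  carrier := {k | conjSub k (R.map i) = R.map i ∧
    ∀ x y : Subgroup.normalizer (R : Set G), i y = k * i x * k⁻¹ → ξ y = ξ x}
  one_mem' := ⟨conjSub_one _, fun x y h => by
    have : y = x := Subtype.ext (hi (by rw [h]; group))
    rw [this]⟩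
  mul_mem' := fun {a b} ha hb => by
    refine ⟨by rw [conjSub_mul, hb.1, ha.1], fun x y h => ?_⟩
    obtain ⟨w, hw⟩ := hn.conj_mem (i x) ⟨x, rfl⟩ b
    have hw' : w ∈ Subgroup.normalizer (R : Set G) := by
      rw [← nor_map i hi, hw]
      have h1 := conjSub_eq_iff.1 hb.1
      exact Subgroup.mul_mem _ (Subgroup.mul_mem _ h1 ((nor_map i hi R x).2 x.2))
        (Subgroup.inv_mem _ h1)
    rw [← hb.2 x ⟨w, hw'⟩ hw]
    refine ha.2 ⟨w, hw'⟩ y ?_
    rw [h]
    change _ = a * i w * a⁻¹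
    rw [hw]
    group
  inv_mem' := fun {a} ha => by
    refine ⟨?_, fun x y h => (ha.2 y x (by rw [h]; group)).symm⟩
    conv_lhs => rw [← ha.1]
    rw [← conjSub_mul, inv_mul_cancel, conjSub_one]

end

section

variable {G E : Type} [Group G] [Group E] [Finite G] [Finite E] (i : G →* E)
  (hi : Function.Injective i) (hn : i.range.Normal)

/-- the embedding into a subgroup -/
def iK (K : Subgroup E) (h : ∀ g, i g ∈ K) : G →* K := i.codRestrict K h

theorem card_range (hi : Function.Injective i) : Nat.card i.range = Nat.card G :=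
  (Nat.card_congr (MonoidHom.ofInjective hi).toEquiv).symm

theorem comap_ge [i.range.Normal] (U : Subgroup (E ⧸ i.range)) (g : G) :
    i g ∈ U.comap (QuotientGroup.mk' i.range) := by
  rw [Subgroup.mem_comap]
  have : (QuotientGroup.mk' i.range) (i g) = 1 := (QuotientGroup.eq_one_iff _).2 ⟨g, rfl⟩
  rw [this]
  exact U.one_mem

theorem tt_eq [hn : i.range.Normal] {X : Type} (φ : G → X)
    (hφ : ∀ g x : G, φ (g * x * g⁻¹) = φ x) (U : Subgroup (E ⧸ i.range)) :
    tt (iK i (U.comap (QuotientGroup.mk' i.range)) (comap_ge i U)) φ =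
      Nat.card ↥((stF i hi hn φ).map (QuotientGroup.mk' i.range) ⊓ U) := by
  have h1 : stc (iK i (U.comap (QuotientGroup.mk' i.range)) (comap_ge i U)) φ =
      Nat.card ↥(stF i hi hn φ ⊓ U.comap (QuotientGroup.mk' i.range)) := by
    unfold stc
    refine Nat.card_congr
      { toFun := fun k => ⟨k.1.1, Subgroup.mem_inf.2 ⟨fun x y h => k.2 x y (Subtype.ext h),
          k.1.2⟩⟩
        invFun := fun k => ⟨⟨k.1, (Subgroup.mem_inf.1 k.2).2⟩, fun x y h =>
          (Subgroup.mem_inf.1 k.2).1 x y (congrArg Subtype.val h)⟩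
        left_inv := fun k => rfl
        right_inv := fun k => rfl }
  have h2 : Nat.card ↥(stF i hi hn φ ⊓ i.range) = Nat.card G := by
    have h3 : stF i hi hn φ ⊓ i.range = i.range := by
      refine inf_eq_right.2 ?_
      rintro _ ⟨g, rfl⟩ x y h
      have h4 : y = g * x * g⁻¹ := hi (by rw [h, map_mul, map_mul, map_inv])
      rw [h4, hφ]
    rw [h3, card_range i hi]
  unfold tt
  rw [h1, card_img, h2, Nat.mul_div_cancel_left _ Nat.card_pos]

theorem tw_eq [hn : i.range.Normal] (R : Subgroup G) (ξ : Subgroup.normalizer (R : Set G) → ℂ)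
    (hξ : ∀ g x, ξ (g * x * g⁻¹) = ξ x) (U : Subgroup (E ⧸ i.range)) :
    tw (iK i (U.comap (QuotientGroup.mk' i.range)) (comap_ge i U)) R ξ =
      Nat.card ↥((stW i hi hn R ξ).map (QuotientGroup.mk' i.range) ⊓ U) := by
  set K := U.comap (QuotientGroup.mk' i.range) with hK
  have hm : (R.map (iK i K (comap_ge i U))).map K.subtype = R.map i := by
    rw [Subgroup.map_map]
    rfl
  have hc : ∀ k : K, conjSub k (R.map (iK i K (comap_ge i U))) = R.map (iK i K (comap_ge i U)) ↔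
      conjSub (k : E) (R.map i) = R.map i := by
    intro k
    rw [← hm, Pool.Agent.R674.Ce.conjSub_map]
    constructor
    · intro h
      rw [h]
    · intro h
      exact Subgroup.map_injective (Subgroup.subtype_injective K) h
  have h1 : Nat.card {k : K // conjSub k (R.map (iK i K (comap_ge i U))) =
      R.map (iK i K (comap_ge i U)) ∧ ∀ x y : Subgroup.normalizer (R : Set G),
        iK i K (comap_ge i U) y = k * iK i K (comap_ge i U) x * k⁻¹ → ξ y = ξ x} =
      Nat.card ↥(stW i hi hn R ξ ⊓ K) := by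
    refine Nat.card_congr
      { toFun := fun k => ⟨k.1.1, Subgroup.mem_inf.2 ⟨⟨(hc k.1).1 k.2.1, fun x y h =>
          k.2.2 x y (Subtype.ext h)⟩, k.1.2⟩⟩
        invFun := fun k => ⟨⟨k.1, (Subgroup.mem_inf.1 k.2).2⟩,
          (hc ⟨k.1, (Subgroup.mem_inf.1 k.2).2⟩).2 (Subgroup.mem_inf.1 k.2).1.1, fun x y h =>
          (Subgroup.mem_inf.1 k.2).1.2 x y (congrArg Subtype.val h)⟩
        left_inv := fun k => rfl
        right_inv := fun k => rfl }
  have h2 : Nat.card ↥(stW i hi hn R ξ ⊓ i.range) =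
      Nat.card (Subgroup.normalizer (R : Set G)) := by
    have h3 : stW i hi hn R ξ ⊓ i.range = (Subgroup.normalizer (R : Set G)).map i := by
      ext e
      rw [Subgroup.mem_inf]
      constructor
      · rintro ⟨h4, g, rfl⟩
        exact ⟨g, (nor_map i hi R g).1 (conjSub_eq_iff.1 h4.1), rfl⟩
      · rintro ⟨g, hg, rfl⟩
        refine ⟨⟨conjSub_eq_iff.2 ((nor_map i hi R g).2 hg), fun x y h => ?_⟩, g, rfl⟩
        have h4 : y = (⟨g, hg⟩ : Subgroup.normalizer (R : Set G)) * x *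
            (⟨g, hg⟩ : Subgroup.normalizer (R : Set G))⁻¹ := by
          apply Subtype.ext
          apply hi
          rw [h]
          change _ = i (g * x * g⁻¹)
          rw [map_mul, map_mul, map_inv]
        rw [h4, hξ]
    rw [h3]
    exact (Nat.card_congr (Subgroup.equivMapOfInjective _ _ hi).toEquiv).symm
  unfold tw
  rw [h1, card_img, h2, Nat.mul_div_cancel_left _ Nat.card_pos]

theorem cyc_of {t : E} [hn : i.range.Normal] (ht : ∀ k : E, ∃ n : ℤ, ∃ g : G, k = t ^ n * i g) :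
    IsCyclic (E ⧸ i.range) := by
  refine ⟨⟨(t : E ⧸ i.range), fun x => ?_⟩⟩
  obtain ⟨k, rfl⟩ := QuotientGroup.mk_surjective x
  obtain ⟨n, g, h⟩ := ht k
  refine ⟨n, ?_⟩
  change (t : E ⧸ i.range) ^ n = (k : E ⧸ i.range)
  rw [h, ← QuotientGroup.mk_zpow]
  refine QuotientGroup.eq.2 ⟨g, ?_⟩
  group

theorem cyc_sub [hn : i.range.Normal] (hc : IsCyclic (E ⧸ i.range)) (U : Subgroup (E ⧸ i.range)) :
    ∃ t : ↥(U.comap (QuotientGroup.mk' i.range)), ∀ k : ↥(U.comap (QuotientGroup.mk' i.range)),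
      ∃ n : ℤ, ∃ g : G, k = t ^ n * iK i (U.comap (QuotientGroup.mk' i.range)) (comap_ge i U) g := by
  have hU : IsCyclic U := isCyclic_of_injective U.subtype (Subgroup.subtype_injective U)
  obtain ⟨⟨u, hu⟩, hgen⟩ := hU.exists_generator
  obtain ⟨t, rfl⟩ := QuotientGroup.mk'_surjective i.range u
  refine ⟨⟨t, hu⟩, fun k => ?_⟩
  obtain ⟨n, h⟩ := Subgroup.mem_zpowers_iff.1 (hgen ⟨(QuotientGroup.mk' i.range) k.1, k.2⟩)
  have h1 : (QuotientGroup.mk' i.range) t ^ n = (QuotientGroup.mk' i.range) k.1 :=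
    congrArg Subtype.val h
  rw [← map_zpow] at h1
  obtain ⟨g, hg⟩ := QuotientGroup.eq.1 h1
  refine ⟨n, g, Subtype.ext ?_⟩
  change k.1 = t ^ n * i g
  rw [hg]
  group

end

section main

/-- a finite sum over a type with a condition -/
theorem fs_if {α R : Type} [AddCommMonoid R] {P : Prop} {Q : α → Prop} (f : α → R) :
    ∑ᶠ x : {x // P ∧ Q x}, f x.1 = if P then ∑ᶠ x : {x // Q x}, f x.1 else 0 := by
  by_cases hP : P
  · rw [if_pos hP]
    refine finsum_eq_of_bijective (fun x : {x // P ∧ Q x} => (⟨x.1, x.2.2⟩ : {x // Q x})) ⟨?_, ?_⟩ ?_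
    · intro a b h
      exact Subtype.ext (congrArg (fun t => t.1) h)
    · rintro ⟨x, hx⟩
      exact ⟨⟨x, hP, hx⟩, rfl⟩
    · intro x
      rfl
  · rw [if_neg hP]
    have : IsEmpty {x // P ∧ Q x} := ⟨fun x => hP x.2.1⟩
    exact finsum_of_isEmpty _

theorem irrT_class {F : Type} [Field F] {G : Type} [Group G] {φ : G → F} (h : IsIrrTrace φ)
    (g x : G) : φ (g * x * g⁻¹) = φ x := by
  obtain ⟨V, _, _, _, ρ, hr, rfl⟩ := h
  exact ρ.char_conj x g

theorem irrC_class {G : Type} [Group G] {χ : G → ℂ} (h : IsIrreducibleCharacter χ)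
    (g x : G) : χ (g * x * g⁻¹) = χ x := by
  obtain ⟨V, _, _, _, ρ, hr, rfl⟩ := h
  exact ρ.char_conj x g

theorem nor_iff {G E : Type} [Group G] [Group E] (i : G →* E) (hi : Function.Injective i)
    (hn : i.range.Normal) (R : Subgroup G) (k : E) : conjSub k (R.map i) = R.map i ↔
      ∀ x : G, x ∈ R ↔ ∃ y ∈ R, i y = k * i x * k⁻¹ := by
  rw [conjSub_eq_iff, Subgroup.mem_normalizer_iff]
  constructor
  · intro h x
    have h1 := h (i x)
    constructor
    · intro hx
      obtain ⟨y, hy, h2⟩ := h1.1 ⟨x, hx, rfl⟩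
      exact ⟨y, hy, h2⟩
    · rintro ⟨y, hy, h2⟩
      obtain ⟨w, hw, h3⟩ := h1.2 ⟨y, hy, h2⟩
      rwa [← hi h3]
  · intro h e
    constructor
    · rintro ⟨x, hx, rfl⟩
      obtain ⟨y, hy, h2⟩ := (h x).1 hx
      exact ⟨y, hy, h2⟩
    · rintro ⟨y, hy, h2⟩
      obtain ⟨x, hx⟩ := hn.conj_mem (i y) ⟨y, rfl⟩ k⁻¹
      have h3 : i x = e := by
        rw [hx, h2]
        group
      refine ⟨x, (h x).2 ⟨y, hy, ?_⟩, h3⟩
      rw [h3, h2]

variable {p : ℕ} [Fact p.Prime] {F : Type} [Field F] [IsAlgClosed F] [CharP F p]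
  (red : integralClosure ℤ ℂ →+* F) {G E : Type} [Group G] [Group E] [Finite G] [Finite E]
  (i : G →* E)

/-- the characters over `F` -/
abbrev Ph (i : G →* E) (z : E → F) : Type :=
  {φ : G → F // IsIrrTrace φ ∧ ∀ x : G, ∑ᶠ g : G, z (i g) * φ (g * x) = 1 * φ x}

/-- the weights -/
abbrev Ps (p : ℕ) (i : G →* E) (z : E → F) : Type :=
  Σ R : Subgroup G, {ξ : Subgroup.normalizer (R : Set G) → ℂ // IsPGroup p R ∧
    (IsWt p (R.subgroupOf (Subgroup.normalizer (R : Set G))) ξ ∧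
      centralValue red ξ (fun x => z (i x)) = 1)}

theorem fin_Ph (z : E → F) : Finite (Ph i z) := by
  have hX := (Pool.Agent.Y914.NV.irr F G).1
  have hY : Finite {φ : G → F // IsIrrTrace φ} := hX
  exact Finite.of_injective (fun φ : Ph i z => (⟨φ.1, φ.2.1⟩ : {φ : G → F // IsIrrTrace φ}))
    (fun a b h => Subtype.ext (congrArg (fun t => t.1) h))

theorem fin_Ps (z : E → F) : Finite (Ps red p i z) := by
  have h : ∀ R : Subgroup G, Finite {ξ : Subgroup.normalizer (R : Set G) → ℂ // IsPGroup p R ∧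
      (IsWt p (R.subgroupOf (Subgroup.normalizer (R : Set G))) ξ ∧
        centralValue red ξ (fun x => z (i x)) = 1)} := by
    intro R
    have hX := Pool.Agent.Y171.NV.irr_fin (Subgroup.normalizer (R : Set G))
    exact Finite.of_injective (fun χ : {ξ : Subgroup.normalizer (R : Set G) → ℂ // IsPGroup p R ∧
      (IsWt p (R.subgroupOf (Subgroup.normalizer (R : Set G))) ξ ∧
        centralValue red ξ (fun x => z (i x)) = 1)} =>
      (⟨χ.1, χ.2.2.1.irr⟩ : {χ : Subgroup.normalizer (R : Set G) → ℂ // IsIrreducibleCharacter χ}))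
      (fun a b h => Subtype.ext (congrArg (fun t => t.1) h))
  infer_instance

/-- sums over the weights -/
theorem sum_Ps (z : E → F) (f : ∀ R : Subgroup G, (Subgroup.normalizer (R : Set G) → ℂ) → ℕ) :
    ∑ᶠ s : Ps red p i z, f s.1 s.2.1 = ∑ᶠ R : Subgroup G, if IsPGroup p R then
      ∑ᶠ ξ : {ξ : Subgroup.normalizer (R : Set G) → ℂ //
        IsWt p (R.subgroupOf (Subgroup.normalizer (R : Set G))) ξ ∧
          centralValue red ξ (fun x => z (i x)) = 1}, f R ξ.1 else 0 := by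
  have _i : Finite (Ps red p i z) := fin_Ps red i z
  have _i1 : Fintype (Subgroup G) := Fintype.ofFinite _
  have h : ∀ R : Subgroup G, Finite {ξ : Subgroup.normalizer (R : Set G) → ℂ // IsPGroup p R ∧
      (IsWt p (R.subgroupOf (Subgroup.normalizer (R : Set G))) ξ ∧
        centralValue red ξ (fun x => z (i x)) = 1)} := fun R =>
    Finite.of_injective (fun ξ => (⟨R, ξ⟩ : Ps red p i z))
      (fun a b h => eq_of_heq (Sigma.mk.inj h).2)
  have _i2 : ∀ R : Subgroup G, Fintype {ξ : Subgroup.normalizer (R : Set G) → ℂ //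
    IsPGroup p R ∧ (IsWt p (R.subgroupOf (Subgroup.normalizer (R : Set G))) ξ ∧
        centralValue red ξ (fun x => z (i x)) = 1)} := fun R => Fintype.ofFinite _
  rw [finsum_eq_sum_of_fintype, finsum_eq_sum_of_fintype, Fintype.sum_sigma]
  refine Finset.sum_congr rfl fun R _ => ?_
  rw [← fs_if (P := IsPGroup p R) (f R), finsum_eq_sum_of_fintype]

variable (hi : Function.Injective i)

/-- the relation for a subgroup of `E/G` -/
theorem rel_U (hBLW : S_BLW) (hC1 : S_C1) (hC2 : S_C2) [hn : i.range.Normal]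
    (hc : IsCyclic (E ⧸ i.range)) (hA : ∀ (K : Type) [Group K] [Finite K], Awc p red K)
    {z : E → F} (hz : IsClassFun z) (hz0 : ∀ x, x ∉ i.range → z x = 0)
    (U : Subgroup (E ⧸ i.range)) :
    Nat.card G * ∑ᶠ φ : Ph i z,
        pc p (Nat.card ↥((stF i hi hn φ.1).map (QuotientGroup.mk' i.range) ⊓ U)) =
      ∑ᶠ s : Ps red p i z, Nat.card (Subgroup.normalizer (s.1 : Set G)) *
        pc p (Nat.card ↥((stW i hi hn s.1 s.2.1).map (QuotientGroup.mk' i.range) ⊓ U)) := by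
  set K := U.comap (QuotientGroup.mk' i.range) with hK
  let j : G →* K := iK i K (comap_ge i U)
  have hj : Function.Injective j := fun a b h => hi (congrArg Subtype.val h)
  have hjn : j.range.Normal := by
    refine ⟨fun x hx k => ?_⟩
    obtain ⟨g, rfl⟩ := hx
    obtain ⟨w, hw⟩ := hn.conj_mem (i g) ⟨g, rfl⟩ (k : E)
    exact ⟨w, Subtype.ext hw⟩
  have hext : CycExt j (fun x : K => z x) := by
    refine ⟨hj, hjn, cyc_sub i hc U, fun g x => hz g x, fun x hx => hz0 x fun h => hx ?_⟩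
    obtain ⟨g, hg⟩ := h
    exact ⟨g, Subtype.ext hg⟩
  have h1 := hC1 p F G K j (fun x : K => z x) hext 1
  have h2 := hC2 p F red G K j (fun x : K => z x) hext 1
  have h3 := hBLW p F red K (hA K) (fun x : K => z x) (fun g x => hz g x) 1
  have h4 : Nat.card G * j.range.index = Nat.card K := by
    rw [← card_range j hj]
    exact j.range.card_mul_index
  have h5 : ∑ᶠ φ : Ph i z,
        pc p (Nat.card ↥((stF i hi hn φ.1).map (QuotientGroup.mk' i.range) ⊓ U)) =
      j.range.index * Lz (fun x : K => z x) 1 := by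
    rw [← h1]
    refine finsum_congr fun φ => ?_
    rw [← tt_eq i hi φ.1 (irrT_class φ.2.1) U]
  have h6 : Wz p red (fun x : K => z x) 1 = ∑ᶠ s : Ps red p i z,
      Nat.card (Subgroup.normalizer (s.1 : Set G)) * pc p (tw j s.1 s.2.1) :=
    h2.trans (sum_Ps red i z (fun R ξ =>
      Nat.card (Subgroup.normalizer (R : Set G)) * pc p (tw j R ξ))).symm
  rw [h5, ← mul_assoc, h4, h3, h6]
  refine finsum_congr fun s => ?_
  rw [← tw_eq i hi s.1 s.2.1 (irrC_class s.2.2.2.1.irr) U]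

/-- **the equality for a cyclic group `E/G`** -/
theorem EQW (hBLW : S_BLW) (hC1 : S_C1) (hC2 : S_C2) (hCMB : S_CMB) (hPCC : S_PCC) (hMM : S_MM)
    (hZE : S_ZE) (hUP : S_UP) : S_EQW := by
  intro p _ F _ _ _ red G E _ _ _ _ i t hi hn ht hA B hB hinv
  have hc : IsCyclic (E ⧸ i.range) := cyc_of i ht
  obtain ⟨D, hD⟩ := (hMM p F G B hB).1
  obtain ⟨z, hz⟩ := hZE p F G E i B D hi hn hB hD hinv
  have hzcl : IsClassFun (fun x : G => z (i x)) := by
    intro g x
    change z (i (g * x * g⁻¹)) = z (i x)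
    rw [map_mul, map_mul, map_inv]
    exact hz.cl _ _
  -- the relations
  let TF : Ph i z → Subgroup (E ⧸ i.range) := fun φ =>
    (stF i hi hn φ.1).map (QuotientGroup.mk' i.range)
  let TW : Ps red p i z → Subgroup (E ⧸ i.range) := fun s =>
    (stW i hi hn s.1 s.2.1).map (QuotientGroup.mk' i.range)
  have _f1 : Finite (Ph i z) := fin_Ph i z
  have _f2 : Finite (Ps red p i z) := fin_Ps red i z
  have _i1 : Fintype (Ph i z) := Fintype.ofFinite _
  have _i2 : Fintype (Ps red p i z) := Fintype.ofFinite _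
  have hcnt : ∀ T U : Subgroup (E ⧸ i.range), (Nat.card {a : (E ⧸ i.range) × (E ⧸ i.range) //
      (a.1 ∈ T ∧ a.1 ∈ U) ∧ (a.2 ∈ T ∧ a.2 ∈ U) ∧ ¬ p ∣ orderOf a.2}) =
      pc p (Nat.card ↥(T ⊓ U)) := by
    intro T U
    have hTU : IsCyclic ↥(T ⊓ U) :=
      isCyclic_of_injective (T ⊓ U).subtype (Subgroup.subtype_injective _)
    rw [hPCC p (E ⧸ i.range) (T ⊓ U) hTU]
    refine Nat.card_congr (Equiv.subtypeEquivRight fun a => ?_)
    rw [Subgroup.mem_inf, Subgroup.mem_inf]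
  have hmain := hCMB (Ph i z ⊕ Ps red p i z) (E ⧸ i.range) (fun a => ¬ p ∣ orderOf a)
    (Sum.elim (fun _ => (Nat.card G : ℤ))
      (fun s => -(Nat.card (Subgroup.normalizer (s.1 : Set G)) : ℤ))) (Sum.elim TF TW) ⊤
    (isCyclic_of_injective (⊤ : Subgroup (E ⧸ i.range)).subtype (Subgroup.subtype_injective _))
    (by
      change ¬ p ∣ orderOf (1 : E ⧸ i.range)
      rw [orderOf_one, Nat.dvd_one]
      exact (Fact.out : p.Prime).one_lt.ne') (by
      intro U _
      have h1 := rel_U red i hi hBLW hC1 hC2 hc hA hz.cl hz.supp U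
      rw [finsum_eq_sum_of_fintype, finsum_eq_sum_of_fintype, Finset.mul_sum] at h1
      rw [finsum_eq_sum_of_fintype, Fintype.sum_sum_type]
      have h2 : ∑ φ : Ph i z, (Nat.card G : ℤ) * (Nat.card {a : (E ⧸ i.range) × (E ⧸ i.range) //
          (a.1 ∈ TF φ ∧ a.1 ∈ U) ∧ (a.2 ∈ TF φ ∧ a.2 ∈ U) ∧ ¬ p ∣ orderOf a.2} : ℤ) =
          ∑ s : Ps red p i z, (Nat.card (Subgroup.normalizer (s.1 : Set G)) : ℤ) *
            (Nat.card {a : (E ⧸ i.range) × (E ⧸ i.range) //
              (a.1 ∈ TW s ∧ a.1 ∈ U) ∧ (a.2 ∈ TW s ∧ a.2 ∈ U) ∧ ¬ p ∣ orderOf a.2} : ℤ) := by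
        have h3 : ∀ T : Subgroup (E ⧸ i.range), (Nat.card {a : (E ⧸ i.range) × (E ⧸ i.range) //
            (a.1 ∈ T ∧ a.1 ∈ U) ∧ (a.2 ∈ T ∧ a.2 ∈ U) ∧ ¬ p ∣ orderOf a.2} : ℤ) =
            (pc p (Nat.card ↥(T ⊓ U)) : ℤ) := fun T => by rw [hcnt]
        rw [Finset.sum_congr rfl fun φ _ => congrArg _ (h3 (TF φ)),
          Finset.sum_congr rfl fun s _ => congrArg _ (h3 (TW s))]
        exact_mod_cast h1
      change ∑ φ : Ph i z, (Nat.card G : ℤ) * (Nat.card {a : (E ⧸ i.range) × (E ⧸ i.range) //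
          (a.1 ∈ TF φ ∧ a.1 ∈ U) ∧ (a.2 ∈ TF φ ∧ a.2 ∈ U) ∧ ¬ p ∣ orderOf a.2} : ℤ) +
          ∑ s : Ps red p i z, -(Nat.card (Subgroup.normalizer (s.1 : Set G)) : ℤ) *
            (Nat.card {a : (E ⧸ i.range) × (E ⧸ i.range) //
              (a.1 ∈ TW s ∧ a.1 ∈ U) ∧ (a.2 ∈ TW s ∧ a.2 ∈ U) ∧ ¬ p ∣ orderOf a.2} : ℤ) = 0
      rw [h2, ← Finset.sum_add_distrib]
      refine Finset.sum_eq_zero fun s _ => ?_
      ring)
  rw [finsum_eq_sum_of_fintype, Fintype.sum_sum_type] at hmain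
  have hm1 : (Nat.card G : ℤ) * (Nat.card {φ : Ph i z // ⊤ ≤ TF φ} : ℤ) =
      ((∑ᶠ s : Ps red p i z, if ⊤ ≤ TW s then
        Nat.card (Subgroup.normalizer (s.1 : Set G)) else 0 : ℕ) : ℤ) := by
    have h1 : ∑ φ : Ph i z, (if ⊤ ≤ TF φ then (Nat.card G : ℤ) else 0) =
        (Nat.card G : ℤ) * (Nat.card {φ : Ph i z // ⊤ ≤ TF φ} : ℤ) := by
      rw [← Finset.sum_filter, Finset.sum_const, nsmul_eq_mul, mul_comm,
        Nat.card_eq_fintype_card (α := {φ : Ph i z // ⊤ ≤ TF φ}), Fintype.card_subtype]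
    have h2 : ∑ s : Ps red p i z, (if ⊤ ≤ TW s then
        -(Nat.card (Subgroup.normalizer (s.1 : Set G)) : ℤ) else 0) =
        -((∑ᶠ s : Ps red p i z, if ⊤ ≤ TW s then
          Nat.card (Subgroup.normalizer (s.1 : Set G)) else 0 : ℕ) : ℤ) := by
      rw [finsum_eq_sum_of_fintype, Nat.cast_sum, ← Finset.sum_neg_distrib]
      refine Finset.sum_congr rfl fun s _ => ?_
      by_cases h : ⊤ ≤ TW s
      · rw [if_pos h, if_pos h]
      · rw [if_neg h, if_neg h]
        simp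
    have h3 := (congrArg₂ (· + ·) h1 h2).symm.trans hmain
    change (Nat.card G : ℤ) * (Nat.card {φ : Ph i z // ⊤ ≤ TF φ} : ℤ) +
      -((∑ᶠ s : Ps red p i z, if ⊤ ≤ TW s then
          Nat.card (Subgroup.normalizer (s.1 : Set G)) else 0 : ℕ) : ℤ) = 0 at h3
    exact add_neg_eq_zero.1 h3
  have hm2 : Nat.card G * Nat.card {φ : Ph i z // ⊤ ≤ TF φ} =
      ∑ᶠ s : Ps red p i z, if ⊤ ≤ TW s then
        Nat.card (Subgroup.normalizer (s.1 : Set G)) else 0 := by exact_mod_cast hm1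
  -- stabilisers containing `t`
  have htop : ∀ S : Subgroup E, ⊤ ≤ S.map (QuotientGroup.mk' i.range) ↔ ∃ g : G, i g * t ∈ S := by
    intro S
    constructor
    · intro h
      obtain ⟨s, hs, h1⟩ := h (Subgroup.mem_top ((QuotientGroup.mk' i.range) t))
      have h2 : (QuotientGroup.mk' i.range) (s * t⁻¹) = 1 := by
        rw [map_mul, map_inv, h1, mul_inv_cancel]
      obtain ⟨g, hg⟩ := (QuotientGroup.eq_one_iff (s * t⁻¹)).1 h2
      refine ⟨g, ?_⟩
      rw [hg, inv_mul_cancel_right]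
      exact hs
    · rintro ⟨g, hg⟩ x -
      obtain ⟨k, rfl⟩ := QuotientGroup.mk'_surjective i.range x
      obtain ⟨n, g', hk⟩ := ht k
      refine ⟨(i g * t) ^ n, Subgroup.zpow_mem _ hg n, ?_⟩
      have h0 : ∀ g : G, (QuotientGroup.mk' i.range) (i g) = 1 := fun g =>
        (QuotientGroup.eq_one_iff _).2 ⟨g, rfl⟩
      rw [hk, map_mul, h0, mul_one, map_zpow, map_zpow, map_mul, h0, one_mul]
  have hTF : ∀ φ : Ph i z, ⊤ ≤ TF φ ↔ ∀ x y : G, i y = t * i x * t⁻¹ → φ.1 y = φ.1 x := by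
    intro φ
    have hg : ∀ g : G, i g ∈ stF i hi hn φ.1 := by
      intro g x y h
      have h4 : y = g * x * g⁻¹ := hi (by rw [h, map_mul, map_mul, map_inv])
      rw [h4, irrT_class φ.2.1]
    rw [htop]
    constructor
    · rintro ⟨g, h⟩
      have h1 := Subgroup.mul_mem _ (Subgroup.inv_mem _ (hg g)) h
      rw [inv_mul_cancel_left] at h1
      exact h1
    · intro h
      exact ⟨1, Subgroup.mul_mem _ (hg 1) h⟩
  have hL : Nat.card {φ : Ph i z // ⊤ ≤ TF φ} = Nat.card {φ : G → F // IsIrrTrace φ ∧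
      (∀ f : G → F, IsClassFun f → ∀ x : G, ∑ᶠ g : G, f g * φ (g * x) = B f * φ x) ∧
      ∀ x y : G, i y = t * i x * t⁻¹ → φ y = φ x} := by
    refine Nat.card_congr
      { toFun := fun φ => ⟨φ.1.1, φ.1.2.1, ?_, (hTF φ.1).1 φ.2⟩
        invFun := fun φ => ⟨⟨φ.1, φ.2.1, fun x => ?_⟩, (hTF _).2 φ.2.2.2⟩
        left_inv := fun φ => rfl
        right_inv := fun φ => rfl }
    · obtain ⟨⟨φ, h1, h2⟩, h3⟩ := φ
      obtain ⟨⟨x0, hx0⟩, B', hB', h4⟩ := schur' F G φ h1
      have h5 : B' (fun x => z (i x)) = 1 := by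
        have h6 := (h4 _ hzcl x0).symm.trans (h2 x0)
        exact mul_right_cancel₀ hx0 h6
      intro f hf x
      rw [h4 f hf x, hz.sep B' hB' h5 f hf]
    · have h1 := φ.2.2.1 _ hzcl x
      rw [hz.one] at h1
      exact h1
  rw [← hL, hm2, sum_Ps red i z (fun R ξ => if ⊤ ≤ (stW i hi hn R ξ).map
    (QuotientGroup.mk' i.range) then Nat.card (Subgroup.normalizer (R : Set G)) else 0)]
  refine finsum_congr fun R => ?_
  by_cases hR : IsPGroup p R
  swap
  · rw [if_neg hR, if_neg hR]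
  rw [if_pos hR, if_pos hR]
  have _i3 : Finite {ξ : Subgroup.normalizer (R : Set G) → ℂ //
      IsWt p (R.subgroupOf (Subgroup.normalizer (R : Set G))) ξ ∧
        centralValue red ξ (fun x => z (i x)) = 1} := by
    exact Finite.of_injective (fun ξ : {ξ : Subgroup.normalizer (R : Set G) → ℂ //
      IsWt p (R.subgroupOf (Subgroup.normalizer (R : Set G))) ξ ∧
        centralValue red ξ (fun x => z (i x)) = 1} => (⟨R, ξ.1, hR, ξ.2⟩ : Ps red p i z))
      (fun a b h => Subtype.ext (congrArg (fun t => t.1) (eq_of_heq (Sigma.mk.inj h).2)))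
  have _i4 : Fintype {ξ : Subgroup.normalizer (R : Set G) → ℂ //
      IsWt p (R.subgroupOf (Subgroup.normalizer (R : Set G))) ξ ∧
        centralValue red ξ (fun x => z (i x)) = 1} := Fintype.ofFinite _
  rw [finsum_eq_sum_of_fintype, ← Finset.sum_filter, Finset.sum_const, smul_eq_mul, mul_comm,
    ← Fintype.card_subtype, ← Nat.card_eq_fintype_card]
  congr 1
  refine Nat.card_congr
    { toFun := fun ξ => ⟨ξ.1.1, ξ.1.2.1, ?_, ?_⟩
      invFun := fun ξ => ⟨⟨ξ.1, ξ.2.1, ?_⟩, ?_⟩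
      left_inv := fun ξ => rfl
      right_inv := fun ξ => rfl }
  · obtain ⟨⟨ξ, h1, h2⟩, h3⟩ := ξ
    obtain ⟨-, hb⟩ := hUP p F red G R hR ξ h1.irr
    intro f hf
    exact hz.sep _ hb h2 f hf
  · obtain ⟨⟨ξ, h1, h2⟩, h3⟩ := ξ
    obtain ⟨g, hg⟩ := (htop _).1 h3
    exact ⟨g, (nor_iff i hi hn R _).1 hg.1, hg.2⟩
  · exact (ξ.2.2.1 _ hzcl).trans hz.one
  · obtain ⟨g, h1, h2⟩ := ξ.2.2.2
    exact (htop _).2 ⟨g, (nor_iff i hi hn R _).2 h1, h2⟩

end main

end Pool.Agent.N20.EW
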