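import Pool.Agent.N20.EW.Stm
import Pool.Agent.N85.AW.Brg
import Pool.Agent.R674.KB.Dz

/-!
# Characters of defect zero and blocks with trivial defect group
-/

set_option autoImplicit false

open scoped Classical BigOperators

noncomputable section

namespace Pool.Agent.N20.EW

open Pool.Agent.Y63.NV
open Pool.Agent.Y63.KR
open Pool.Agent.Y63.AWC (IsIrreducibleCharacter pSubgroupSetoid)
open Pool.Agent.Y925.NV (kk md)
open Pool.Agent.Y930.NV (ind Cf_ind)

theorem cl_ind {F : Type} [Field F] {G : Type} [Group G] [Fintype G] (x : G) :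
    (fun y : G => if IsConj x y then (1 : F) else 0) = ind F (ConjClasses.mk x) := by
  funext y
  unfold ind
  have h : IsConj x y ↔ ConjClasses.mk y = ConjClasses.mk x := by
    rw [ConjClasses.mk_eq_mk_iff_isConj, isConj_comm]
  by_cases hx : IsConj x y
  · rw [if_pos hx, if_pos (h.1 hx)]
  · rw [if_neg hx, if_neg (fun h' => hx (h.2 h'))]

/-- **characters of defect zero and blocks with trivial defect group** -/
theorem DF : S_DF := by
  intro p _ F _ _ _ red G _ _
  have _i : Fintype G := Fintype.ofFinite G
  constructor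
  · intro ψ hψ
    have hb : IsBlock (centralValue red ψ) := Pool.Agent.Y930.NV.cvh F red G _ hψ.irr
    refine ⟨hb, ?_⟩
    obtain ⟨C, hC1, hC2⟩ := Pool.Agent.R674.KB.dz_class (F := F) red hψ
    have h0 : (Nat.card ↥(Subgroup.centralizer ({C.out} : Set G))).factorization p = 0 := by
      rw [← Pool.Agent.N85.AW.Brg.kk_cent]
      exact Nat.factorization_eq_zero_of_not_dvd hC1
    refine ⟨C.out, ?_, ?_, bot_le, IsPGroup.of_bot, ?_⟩
    · unfold classValue
      have h1 : (fun y : G => if IsConj C.out y then (1 : F) else 0) = ind F C := by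
        rw [cl_ind]
        congr 1
        exact Quotient.out_eq C
      rw [h1, Pool.Agent.R674.KB.cval_ind red hψ.irr]
      exact hC2
    · intro y _
      rw [h0]
      exact Nat.zero_le _
    · rw [h0, Subgroup.card_bot, Nat.factorization_one, Finsupp.zero_apply]
  · intro B hB y hy hp
    have hcl : IsClassFun (ind F (ConjClasses.mk y)) := Cf_ind F _
    obtain ⟨χ, h1, h2, h3⟩ := Pool.Agent.N85.AW.Brg.blk_b red hB hcl (by
      intro x hx
      unfold ind
      rw [if_neg]
      intro h
      rw [ConjClasses.mk_eq_mk_iff_isConj, isConj_comm, isConj_iff] at h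
      obtain ⟨g, hg⟩ := h
      apply hp
      have h4 : kk x = Nat.card ↥(Subgroup.centralizer ({y} : Set G)) := by
        rw [← Pool.Agent.N85.AW.Brg.kk_cent, ← hg, Pool.Agent.Y925.NV.kk_conj]
      rw [← h4]
      exact (CharP.cast_eq_zero_iff F p _).1 hx) (by
      unfold classValue at hy
      rw [cl_ind] at hy
      exact hy)
    refine ⟨χ, Pool.Agent.N85.AW.Brg.wt_iff.2 ⟨h1, h2⟩, fun f hf => ?_⟩
    exact (Pool.Agent.N85.AW.Brg.blk_a red hB h1 h3 f hf).symm

end Pool.Agent.N20.EW
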