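import Pool.Agent.N20.EW.Stm3
import Pool.Agent.N849.EWX1

/-!
# Invariant irreducible representations extend to cyclic extensions
-/

set_option autoImplicit false

namespace Pool.Agent.N20.EW

open Pool.Agent.Y63.NV Pool.Agent.Y914.NV Representation
open Pool.Agent.N849.EWX1 (irr_iff schur iso)
open scoped MonoidAlgebra

/-- invariant irreducible representations extend to cyclic extensions (the proof is that of
helper849, `Pool.Agent.N849.EWX1.X1`) -/
theorem X1R : S_X1R := by
  classical
  intro F _ _ G K _ _ _ _ i hE V j1 j2 j3 ρ hρ hinv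
  obtain ⟨t, ht⟩ := hE.cyc
  have hinj := hE.inj
  have hnorm := hE.normal
  -- the automorphism
  have hc0 : ∀ g : G, ∃ y : G, i y = t * i g * t⁻¹ := fun g => hnorm.conj_mem (i g) ⟨g, rfl⟩ t
  choose c hc using hc0
  let cc : G →* G :=
    { toFun := c
      map_one' := by
        apply hinj
        rw [hc, map_one, mul_one, mul_inv_cancel]
      map_mul' := fun x y => by
        apply hinj
        rw [hc, map_mul, map_mul, hc, hc]
        group }
  have hcinj : Function.Injective c := by
    intro x y h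
    apply hinj
    have h1 := hc x
    rw [h, hc y] at h1
    have h2 := mul_right_cancel h1
    exact (mul_left_cancel h2).symm
  have hcsurj : Function.Surjective c := Finite.surjective_of_injective hcinj
  -- the second representation
  obtain ⟨ρc, hρc⟩ : ∃ ρc : Representation F G V, ∀ g, ρc g = ρ (c g) :=
    ⟨MonoidHom.comp ρ cc, fun _ => rfl⟩
  have hρ' : ρc.IsIrreducible := by
    obtain ⟨a1, a2⟩ := (irr_iff ρ).1 hρ
    refine (irr_iff _).2 ⟨a1, fun W hW => a2 W fun g v hv => ?_⟩
    obtain ⟨x, rfl⟩ := hcsurj g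
    have := hW x v hv
    rwa [hρc] at this
  have hch : ρ.character = ρc.character := by
    funext g
    have h1 : ρc.character g = ρ.character (c g) := by
      show LinearMap.trace F V (ρc g) = LinearMap.trace F V (ρ (c g))
      rw [hρc]
    rw [h1]
    exact (hinv t g (c g) (hc g)).symm
  obtain ⟨A, hA⟩ := iso ρ ρc hρ hρ' hch
  obtain ⟨hV, hW⟩ := (irr_iff ρ).1 hρ
  set a : Module.End F V := (A : V →ₗ[F] V) with ha
  have ha1 : ∀ g, a * ρ g = ρ (c g) * a := by
    intro g
    refine LinearMap.ext fun v => ?_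
    have := hA g v
    rw [hρc] at this
    exact this
  -- the order
  have := hnorm
  set n : ℕ := orderOf (QuotientGroup.mk t : K ⧸ i.range) with hn
  have hn0 : 0 < n := orderOf_pos _
  have hdiv : ∀ m : ℕ, t ^ m ∈ i.range → n ∣ m := by
    intro m hm
    rw [hn, orderOf_dvd_iff_pow_eq_one, ← QuotientGroup.mk_pow, QuotientGroup.eq_one_iff]
    exact hm
  obtain ⟨g0, hg0⟩ : t ^ n ∈ i.range := by
    rw [← QuotientGroup.eq_one_iff, QuotientGroup.mk_pow, hn]
    exact pow_orderOf_eq_one _
  -- powers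
  have hcm : ∀ (m : ℕ) (g : G), i (c^[m] g) = t ^ m * i g * (t ^ m)⁻¹ := by
    intro m
    induction m with
    | zero =>
      intro g
      simp
    | succ m ih =>
      intro g
      rw [Function.iterate_succ_apply', hc, ih, pow_succ']
      group
  have ham : ∀ (b : Module.End F V), (∀ g, b * ρ g = ρ (c g) * b) → ∀ (m : ℕ) (g : G),
      b ^ m * ρ g = ρ (c^[m] g) * b ^ m := by
    intro b hb m
    induction m with
    | zero =>
      intro g
      simp
    | succ m ih =>
      intro g
      rw [pow_succ', mul_assoc, ih, ← mul_assoc, hb, mul_assoc, Function.iterate_succ_apply']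
  have hcn : ∀ g : G, c^[n] g = g0 * g * g0⁻¹ := by
    intro g
    apply hinj
    rw [hcm, map_mul, map_mul, map_inv, hg0]
  -- the scalar
  have hgg : ρ g0 * ρ g0⁻¹ = 1 := by rw [← map_mul, mul_inv_cancel, map_one]
  have hgg' : ρ g0⁻¹ * ρ g0 = 1 := by rw [← map_mul, inv_mul_cancel, map_one]
  obtain ⟨l, hl⟩ := schur ρ hρ (ρ g0⁻¹ * a ^ n) (by
    intro g
    rw [mul_assoc, ham a ha1 n g, hcn, map_mul, map_mul, ← mul_assoc, ← mul_assoc, ← mul_assoc,
      hgg', one_mul, mul_assoc])
  have hl' : a ^ n = l • ρ g0 := by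
    have h1 : ρ g0 * (ρ g0⁻¹ * a ^ n) = ρ g0 * (l • 1) := by rw [hl]
    rw [← mul_assoc, hgg, one_mul, mul_smul_comm, mul_one] at h1
    exact h1
  have hl0 : l ≠ 0 := by
    intro h0
    rw [h0, zero_smul] at hl'
    obtain ⟨v, hv⟩ := exists_ne (0 : V)
    have hinjm : ∀ m : ℕ, ∀ v : V, v ≠ 0 → (a ^ m) v ≠ 0 := by
      intro m
      induction m with
      | zero =>
        intro v hv
        simpa using hv
      | succ m ih =>
        intro v hv
        rw [pow_succ, Module.End.mul_apply]
        apply ih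
        intro h1
        exact hv ((LinearEquiv.map_eq_zero_iff A).1 h1)
    apply hinjm n v hv
    rw [hl', LinearMap.zero_apply]
  obtain ⟨μ, hμ⟩ := IsAlgClosed.exists_pow_nat_eq l hn0
  have hμ0 : μ ≠ 0 := by
    rintro rfl
    rw [zero_pow hn0.ne'] at hμ
    exact hl0 hμ.symm
  obtain ⟨b, hb⟩ : ∃ b : Module.End F V, b = μ⁻¹ • a := ⟨_, rfl⟩
  have hb1 : ∀ g, b * ρ g = ρ (c g) * b := by
    intro g
    rw [hb, smul_mul_assoc, ha1, mul_smul_comm]
  have hbn : b ^ n = ρ g0 := by
    rw [hb, smul_pow, hl', smul_smul, inv_pow, hμ, inv_mul_cancel₀ hl0, one_smul]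
  have hbm := ham b hb1
  -- the extension
  have hex : ∀ k : K, ∃ (m : ℕ) (g : G), k = t ^ m * i g := by
    intro k
    obtain ⟨z, g, hzg⟩ := ht k
    obtain ⟨m, hm⟩ : t ^ z ∈ Submonoid.powers t := mem_powers_iff_mem_zpowers.2 ⟨z, rfl⟩
    have hm' : t ^ m = t ^ z := hm
    exact ⟨m, g, by rw [hm']; exact hzg⟩
  choose mk gk hk using hex
  have hwd' : ∀ (m d : ℕ) (g g' : G), t ^ m * i g = t ^ (m + d) * i g' →
      b ^ m * ρ g = b ^ (m + d) * ρ g' := by
    intro m d g g' h
    rw [pow_add, mul_assoc] at h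
    have h1 := mul_left_cancel h
    have h2 : t ^ d ∈ i.range := ⟨g * g'⁻¹, by rw [map_mul, map_inv, h1]; group⟩
    obtain ⟨q, rfl⟩ := hdiv d h2
    have h3 : g = g0 ^ q * g' := by
      apply hinj
      rw [h1, map_mul, map_pow, hg0, pow_mul]
    rw [pow_add, mul_assoc, h3, map_mul, map_pow, pow_mul, hbn]
  have hwd : ∀ (m m' : ℕ) (g g' : G), t ^ m * i g = t ^ m' * i g' →
      b ^ m * ρ g = b ^ m' * ρ g' := by
    intro m m' g g' h
    rcases le_total m m' with h1 | h1
    · obtain ⟨d, rfl⟩ := Nat.exists_eq_add_of_le h1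
      exact hwd' m d g g' h
    · obtain ⟨d, rfl⟩ := Nat.exists_eq_add_of_le h1
      exact (hwd' m' d g' g h.symm).symm
  let f : K → Module.End F V := fun k => b ^ mk k * ρ (gk k)
  have hf : ∀ (m : ℕ) (g : G), f (t ^ m * i g) = b ^ m * ρ g := fun m g =>
    hwd _ _ _ _ (hk (t ^ m * i g)).symm
  have hfi : ∀ g : G, f (i g) = ρ g := by
    intro g
    have := hf 0 g
    rwa [pow_zero, one_mul, pow_zero, one_mul] at this
  have hcmsurj : ∀ m : ℕ, Function.Surjective (c^[m]) := fun m => hcsurj.iterate m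
  let R : Representation F K V :=
    { toFun := f
      map_one' := by
        have := hfi 1
        rwa [map_one, map_one] at this
      map_mul' := fun k k' => by
        obtain ⟨m, g, rfl⟩ : ∃ (m : ℕ) (g : G), k = t ^ m * i g := ⟨_, _, hk k⟩
        obtain ⟨m', g', rfl⟩ : ∃ (m : ℕ) (g : G), k' = t ^ m * i g := ⟨_, _, hk k'⟩
        obtain ⟨h, rfl⟩ := hcmsurj m' g
        have e1 : t ^ m * i (c^[m'] h) * (t ^ m' * i g') = t ^ (m + m') * i (h * g') := by
          rw [hcm, map_mul, pow_add]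
          group
        rw [e1, hf, hf, hf, map_mul, pow_add]
        calc b ^ m * b ^ m' * (ρ h * ρ g') = b ^ m * (b ^ m' * ρ h) * ρ g' := by
              simp only [mul_assoc]
          _ = b ^ m * (ρ (c^[m'] h) * b ^ m') * ρ g' := by rw [hbm]
          _ = b ^ m * ρ (c^[m'] h) * (b ^ m' * ρ g') := by simp only [mul_assoc] }
  have hRi : ∀ g : G, R (i g) = ρ g := hfi
  exact ⟨R, hRi⟩

end Pool.Agent.N20.EW
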