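import Pool.Agent.N164.EWBLW
import Pool.Agent.N966.EWX3
import Pool.Agent.N340.EWPF
import Pool.Agent.N568.EWX4
import Pool.Agent.N482.EWX5
import Pool.Agent.N97.EWC1
import Pool.Agent.N232.EWSY
import Pool.Agent.N878.EWD1
import Pool.Agent.N301.EWD2
import Pool.Agent.N34.EWD3
import Pool.Agent.N348.EWDZR
import Pool.Agent.N868.EWC2
import Pool.Agent.N667.EWCMB
import Pool.Agent.N543.EWPCC
import Pool.Agent.N27.EWEXT
import Pool.Agent.N655.EWAUTW
import Pool.Agent.N749.EWCLS
import Pool.Agent.N459.EWWBIJ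
import Pool.Agent.N20.AE.Fin
import Pool.Agent.N20.DI.Fin
import Pool.Agent.N756.AEPERM
import Pool.Agent.N20.EW.Asm
import Pool.Agent.N20.EW.X1R
import Pool.Agent.N20.EW.DFx

/-!
# The weight conjecture and automorphisms: the main theorems
-/

set_option autoImplicit false

open scoped Classical BigOperators

noncomputable section

namespace Pool.Agent.N20.EW

open Pool.Agent.Y63.NV
open Pool.Agent.Y63.KR
open Pool.Agent.Y63.AWC (IsIrreducibleCharacter pSubgroupSetoid)
open Pool.Agent.N20.AE (s_mm s_ht s_ze s_up)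
open Pool.Agent.N20.DI (parts)

theorem s_x3 : S_X3 :=
  Pool.Agent.N966.EW.X3 Pool.Agent.Y914.NV.irr span' schur' Pool.Agent.Y705.NV.ppt X1R

theorem s_x4 : S_X4 :=
  Pool.Agent.N568.EW.X4 Pool.Agent.N340.EWPF.PF Pool.Agent.Y914.NV.irr span'
    Pool.Agent.Y705.NV.ppt

theorem s_x5 : S_X5 := Pool.Agent.N482.EWX5.X5 s_x4 Pool.Agent.N543.EWPCC.PCC

theorem s_c1 : S_C1 := Pool.Agent.N97.EW.C1 schur' Pool.Agent.Y914.NV.irr s_x3 s_x5

theorem s_dzr : S_DZR :=
  Pool.Agent.N348.EWDZR.DZR
    (Pool.Agent.N878.EW.D1 s_mm s_ht s_ze DF parts.cl Pool.Agent.N27.EW.EXT)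
    (Pool.Agent.N301.EW.D2 s_up Pool.Agent.N27.EW.EXT DF Pool.Agent.N232.EW.SY)
    (Pool.Agent.N34.EWD3.D3 DF Pool.Agent.N232.EW.SY s_ze)
    parts.cl Pool.Agent.Y930.NV.inf Pool.Agent.N323.DI.LIN

theorem s_eqw : S_EQW :=
  EQW Pool.Agent.N164.EW.BLW s_c1
    (Pool.Agent.N868.EW.C2 s_dzr Pool.Agent.Y930.NV.inf)
    Pool.Agent.N667.EWCMB.CMB Pool.Agent.N543.EWPCC.PCC s_mm s_ze s_up

theorem s_wbij : S_WBIJ := Pool.Agent.N459.EWWBIJ.WBIJ Pool.Agent.N756.AE.perm

theorem inv_pow {F : Type} {G : Type} [Group G] {B : (G → F) → F} {α : MulAut G}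
    (h : InvA B α) (k : ℕ) : InvA B (α ^ k) := by
  induction k with
  | zero =>
    intro f hf
    rfl
  | succ k ih =>
    intro f hf
    have h1 : ∀ g x : G, f ((α ^ k) (g * x * g⁻¹)) = f ((α ^ k) x) := by
      intro g x
      rw [map_mul, map_mul, map_inv]
      exact hf _ _
    have h2 := h (fun x => f ((α ^ k) x)) h1
    have h3 : (fun x => f ((α ^ (k + 1)) x)) = fun x => f ((α ^ k) (α x)) := by
      funext x
      rw [pow_succ, MulAut.mul_apply]
    rw [h3, h2]
    exact ih f hf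

/-- the number of the characters is the number of the fixed characters of the identity -/
theorem fixL_one {F : Type} [Field F] {G : Type} [Group G] (B : (G → F) → F) :
    fixL B (1 : MulAut G) = Nat.card (IBrB B) := by
  refine Nat.card_congr (Equiv.subtypeEquivRight fun φ => ?_)
  exact ⟨fun h => ⟨h.1, h.2.1⟩, fun h => ⟨h.1, h.2, fun x => rfl⟩⟩

theorem fixW_one (p : ℕ) {F : Type} [Field F] (red : integralClosure ℤ ℂ →+* F) {G : Type}
    [Group G] (B : (G → F) → F) :
    fixW p red B (1 : MulAut G) = Pool.Agent.N85.WM.numWts p red B := by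
  refine finsum_congr fun q => Nat.card_congr (Equiv.subtypeEquivRight fun ξ => ?_)
  refine ⟨fun h => ⟨h.1, h.2.1⟩, fun h => ⟨h.1, h.2, 1, fun x => ?_, fun x y hxy => ?_⟩⟩
  · have h1 : (1 : G) * (1 : MulAut G) x * (1 : G)⁻¹ = x := by
      rw [MulAut.one_apply, one_mul, inv_one, mul_one]
    rw [h1]
  · have h1 : (1 : G) * (1 : MulAut G) x * (1 : G)⁻¹ = x := by
      rw [MulAut.one_apply, one_mul, inv_one, mul_one]
    have h2 : y = x := Subtype.ext (hxy.trans h1)
    rw [h2]

theorem card_WtB (p : ℕ) {F : Type} [Field F] (red : integralClosure ℤ ℂ →+* F) {G : Type}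
    [Group G] [Finite G] (B : (G → F) → F) :
    Nat.card (WtB p red B) = Pool.Agent.N85.WM.numWts p red B := by
  have _i1 : Fintype (Quotient (pSubgroupSetoid p G)) := Fintype.ofFinite _
  have _i2 : ∀ q : Quotient (pSubgroupSetoid p G),
      Finite {ξ : Subgroup.normalizer (q.out.1 : Set G) → ℂ //
        IsWt p (q.out.1.subgroupOf (Subgroup.normalizer (q.out.1 : Set G))) ξ ∧
        ∀ f : G → F, IsClassFun f → centralValue red ξ (fun x => f x) = B f} := by
    intro q
    have hX := Pool.Agent.Y171.NV.irr_fin (Subgroup.normalizer (q.out.1 : Set G))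
    exact Finite.of_injective (fun χ : {ξ : Subgroup.normalizer (q.out.1 : Set G) → ℂ //
        IsWt p (q.out.1.subgroupOf (Subgroup.normalizer (q.out.1 : Set G))) ξ ∧
        ∀ f : G → F, IsClassFun f → centralValue red ξ (fun x => f x) = B f} =>
      (⟨χ.1, χ.2.1.irr⟩ : {χ : Subgroup.normalizer (q.out.1 : Set G) → ℂ //
        IsIrreducibleCharacter χ}))
      (fun a b h => Subtype.ext (congrArg (fun t => t.1) h))
  unfold Pool.Agent.N85.WM.numWts
  rw [Nat.card_sigma, finsum_eq_sum_of_fintype]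
  rfl

section

variable (p : ℕ) [Fact p.Prime] {F : Type} [Field F] (red : integralClosure ℤ ℂ →+* F)

/-- the numbers of invariant characters and of invariant classes of weights are equal -/
def AwcFix (G : Type) [Group G] : Prop :=
  ∀ (α : MulAut G) (B : (G → F) → F), IsBlock B → InvA B α → fixL B α = fixW p red B α

/-- there are equivariant bijections -/
def AwcBij (G : Type) [Group G] : Prop :=
  ∀ (α : MulAut G) (B : (G → F) → F), IsBlock B → InvA B α →
    ∃ e : IBrB B ≃ WtB p red B, ∀ φ φ' : IBrB B, (∀ x : G, φ'.1 (α x) = φ.1 x) →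
      ∃ g : G, Maps (MulAut.conj g * α) (e φ).2.1 (e φ').2.1

end

variable (p : ℕ) [Fact p.Prime] (F : Type) [Field F] [IsAlgClosed F] [CharP F p]
  (red : integralClosure ℤ ℂ →+* F)

theorem fix_of_awc (hA : ∀ (K : Type) [Group K] [Finite K], Awc p red K) (G : Type)
    [Group G] [Finite G] : AwcFix p red G := by
  intro α B hB hinv
  have h1 := Pool.Agent.N655.EWAUTW.AUTW s_eqw p F red hA G α B hB hinv
  rw [Pool.Agent.N749.EW.CLS p F red G α B] at h1
  exact Nat.eq_of_mul_eq_mul_left Nat.card_pos h1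

theorem bij_of_fix (G : Type) [Group G] [Finite G] (h : AwcFix p red G) : AwcBij p red G := by
  intro α B hB hinv
  exact s_wbij p F red G α B hB hinv fun k => h (α ^ k) B hB (inv_pow hinv k)

omit [Fact p.Prime] [IsAlgClosed F] [CharP F p] in
theorem awc_of_bij (G : Type) [Group G] [Finite G] (h : AwcBij p red G) : Awc p red G := by
  intro B hB
  obtain ⟨e, -⟩ := h 1 B hB fun f _ => rfl
  rw [← card_WtB p red B]
  exact Nat.card_congr e

end Pool.Agent.N20.EW
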