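import Pool.Agent.N20.EW.Stm

/-!
# The weight conjecture and automorphisms: further statements
-/

set_option autoImplicit false

open scoped Classical BigOperators

noncomputable section

namespace Pool.Agent.N20.EW

open Pool.Agent.Y63.NV
open Pool.Agent.Y63.KR
open Pool.Agent.Y63.AWC (IsIrreducibleCharacter pSubgroupSetoid)

/-- EXT: every block of `K` covers a block of the normal subgroup `G` -/
def S_EXT : Prop := ∀ (F : Type) [Field F] [IsAlgClosed F] (G K : Type) [Group G] [Group K] [Finite G]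
    [Finite K] (i : G →* K), Function.Injective i → i.range.Normal → ∀ (b : (K → F) → F), IsBlock b →
    ∃ B : (G → F) → F, IsBlock B ∧ ∀ z : K → F, IsClassFun z → (∀ x, x ∉ i.range → z x = 0) →
      B (fun x => z (i x)) = b z

/-- the weight conjecture for the blocks of `H` -/
def Awc (p : ℕ) {F : Type} [Field F] (red : integralClosure ℤ ℂ →+* F) (H : Type) [Group H] :
    Prop :=
  ∀ B : (H → F) → F, IsBlock B → Nat.card {φ : H → F // IsIrrTrace φ ∧
      ∀ f : H → F, IsClassFun f → ∀ x : H, ∑ᶠ g : H, f g * φ (g * x) = B f * φ x} =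
        Pool.Agent.N85.WM.numWts p red B

/-- the pair `(R, ξ)` is fixed by the product of the automorphism `α` and an inner automorphism -/
def FixW {G : Type} [Group G] (α : MulAut G) (R : Subgroup G)
    (ξ : Subgroup.normalizer (R : Set G) → ℂ) : Prop :=
  ∃ g : G, (∀ x : G, x ∈ R ↔ g * α x * g⁻¹ ∈ R) ∧
    ∀ x y : Subgroup.normalizer (R : Set G), (y : G) = g * α x * g⁻¹ → ξ y = ξ x

/-- `B` is invariant under the automorphism `α` -/
def InvA {F : Type} {G : Type} [Group G] (B : (G → F) → F) (α : MulAut G) : Prop :=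
  ∀ f : G → F, (∀ g x : G, f (g * x * g⁻¹) = f x) → B (fun x => f (α x)) = B f

/-- the number of the `α`-invariant irreducible characters over `F` in `B` -/
def fixL {F : Type} [Field F] {G : Type} [Group G] (B : (G → F) → F) (α : MulAut G) : ℕ :=
  Nat.card {φ : G → F // IsIrrTrace φ ∧
    (∀ f : G → F, IsClassFun f → ∀ x : G, ∑ᶠ g : G, f g * φ (g * x) = B f * φ x) ∧
    ∀ x : G, φ (α x) = φ x}

/-- the number of the `α`-invariant classes of weights of `B` -/
def fixW (p : ℕ) {F : Type} [Field F] (red : integralClosure ℤ ℂ →+* F) {G : Type} [Group G]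
    (B : (G → F) → F) (α : MulAut G) : ℕ :=
  ∑ᶠ q : Quotient (pSubgroupSetoid p G), Nat.card {ξ : Subgroup.normalizer (q.out.1 : Set G) → ℂ //
    IsWt p (q.out.1.subgroupOf (Subgroup.normalizer (q.out.1 : Set G))) ξ ∧
    (∀ f : G → F, IsClassFun f → centralValue red ξ (fun x => f x) = B f) ∧ FixW α q.out.1 ξ}

/-- EQW: the equality for a cyclic group `E/G` -/
def S_EQW : Prop := ∀ (p : ℕ) [Fact p.Prime] (F : Type) [Field F] [IsAlgClosed F] [CharP F p]
    (red : integralClosure ℤ ℂ →+* F) (G E : Type) [Group G] [Group E] [Finite G] [Finite E]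
    (i : G →* E) (t : E), Function.Injective i → i.range.Normal →
    (∀ k : E, ∃ n : ℤ, ∃ g : G, k = t ^ n * i g) →
    (∀ (K : Type) [Group K] [Finite K], Awc p red K) →
    ∀ (B : (G → F) → F), IsBlock B →
    (∀ k : E, ∀ f f' : G → F, IsClassFun f → (∀ x y : G, i y = k * i x * k⁻¹ → f' y = f x) →
      B f' = B f) →
    Nat.card G * Nat.card {φ : G → F // IsIrrTrace φ ∧
      (∀ f : G → F, IsClassFun f → ∀ x : G, ∑ᶠ g : G, f g * φ (g * x) = B f * φ x) ∧
      ∀ x y : G, i y = t * i x * t⁻¹ → φ y = φ x} =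
    ∑ᶠ R : Subgroup G, if IsPGroup p R then Nat.card (Subgroup.normalizer (R : Set G)) *
      Nat.card {ξ : Subgroup.normalizer (R : Set G) → ℂ //
        IsWt p (R.subgroupOf (Subgroup.normalizer (R : Set G))) ξ ∧
        (∀ f : G → F, IsClassFun f → centralValue red ξ (fun x => f x) = B f) ∧
        ∃ g : G, (∀ x : G, x ∈ R ↔ ∃ y ∈ R, i y = i g * t * i x * (i g * t)⁻¹) ∧
          ∀ x y : Subgroup.normalizer (R : Set G), i y = i g * t * i x * (i g * t)⁻¹ → ξ y = ξ x}
      else 0

/-- AUTW: the equality for an automorphism -/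
def S_AUTW : Prop := ∀ (p : ℕ) [Fact p.Prime] (F : Type) [Field F] [IsAlgClosed F] [CharP F p]
    (red : integralClosure ℤ ℂ →+* F),
    (∀ (K : Type) [Group K] [Finite K], Awc p red K) →
    ∀ (G : Type) [Group G] [Finite G] (α : MulAut G) (B : (G → F) → F), IsBlock B →
    InvA B α →
      Nat.card G * fixL B α = ∑ᶠ R : Subgroup G, if IsPGroup p R then
        Nat.card (Subgroup.normalizer (R : Set G)) *
        Nat.card {ξ : Subgroup.normalizer (R : Set G) → ℂ //
          IsWt p (R.subgroupOf (Subgroup.normalizer (R : Set G))) ξ ∧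
          (∀ f : G → F, IsClassFun f → centralValue red ξ (fun x => f x) = B f) ∧ FixW α R ξ} else 0

/-- CLS: from all pairs to representatives of the classes -/
def S_CLS : Prop := ∀ (p : ℕ) [Fact p.Prime] (F : Type) [Field F] (red : integralClosure ℤ ℂ →+* F)
    (G : Type) [Group G] [Finite G] (α : MulAut G) (B : (G → F) → F),
    (∑ᶠ R : Subgroup G, if IsPGroup p R then Nat.card (Subgroup.normalizer (R : Set G)) *
        Nat.card {ξ : Subgroup.normalizer (R : Set G) → ℂ //
          IsWt p (R.subgroupOf (Subgroup.normalizer (R : Set G))) ξ ∧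
          (∀ f : G → F, IsClassFun f → centralValue red ξ (fun x => f x) = B f) ∧ FixW α R ξ}
      else 0) = Nat.card G * fixW p red B α

/-- the irreducible characters over `F` in the block `B` -/
abbrev IBrB {F : Type} [Field F] {G : Type} [Group G] (B : (G → F) → F) : Type :=
  {φ : G → F // IsIrrTrace φ ∧
    ∀ f : G → F, IsClassFun f → ∀ x : G, ∑ᶠ g : G, f g * φ (g * x) = B f * φ x}

/-- representatives `(Q, ξ)` of the classes of weights of the block `B` -/
abbrev WtB (p : ℕ) {F : Type} [Field F] (red : integralClosure ℤ ℂ →+* F) {G : Type} [Group G]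
    (B : (G → F) → F) : Type :=
  Σ q : Quotient (pSubgroupSetoid p G), {ξ : Subgroup.normalizer (q.out.1 : Set G) → ℂ //
    IsWt p (q.out.1.subgroupOf (Subgroup.normalizer (q.out.1 : Set G))) ξ ∧
    ∀ f : G → F, IsClassFun f → centralValue red ξ (fun x => f x) = B f}

/-- the automorphism `β` maps the pair `(R, ξ)` to `(R', ξ')` -/
def Maps {G : Type} [Group G] (β : MulAut G) {R R' : Subgroup G}
    (ξ : Subgroup.normalizer (R : Set G) → ℂ) (ξ' : Subgroup.normalizer (R' : Set G) → ℂ) : Prop :=
  R' = R.map β.toMonoidHom ∧ ∀ (x : Subgroup.normalizer (R : Set G))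
    (y : Subgroup.normalizer (R' : Set G)), (y : G) = β x → ξ' y = ξ x

/-- WBIJ: from the numbers of fixed points to bijections -/
def S_WBIJ : Prop := ∀ (p : ℕ) [Fact p.Prime] (F : Type) [Field F] [IsAlgClosed F] [CharP F p]
    (red : integralClosure ℤ ℂ →+* F) (G : Type) [Group G] [Finite G] (α : MulAut G)
    (B : (G → F) → F), IsBlock B → InvA B α → (∀ k : ℕ, fixL B (α ^ k) = fixW p red B (α ^ k)) →
    ∃ e : IBrB B ≃ WtB p red B, ∀ φ φ' : IBrB B, (∀ x : G, φ'.1 (α x) = φ.1 x) →
      ∃ g : G, Maps (MulAut.conj g * α) (e φ).2.1 (e φ').2.1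

end Pool.Agent.N20.EW
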