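import Pool.Agent.N20.EW.Krr3
import Pool.Agent.N2.EK.AUTK

/-!
# The Knörr–Robinson conjecture and automorphisms: the local form (the proof of `abs_loc` is that of
helper2, `Pool.Agent.N2.EK.AUTK.abs_main`)
-/

set_option autoImplicit false

open scoped Classical BigOperators

noncomputable section

namespace Pool.Agent.N20.EW

open Pool.Agent.Y63.NV
open Pool.Agent.Y63.KR
open Pool.Agent.Y63.AWC (IsIrreducibleCharacter pSubgroupSetoid)
open Pool.Agent.R674.Tw (Fixes GCh NG)
open Pool.Agent.N2.EK.AUTK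

theorem abs_loc (h : S_EQL) (p : ℕ) [Fact p.Prime] (F : Type) [Field F] [IsAlgClosed F]
    [CharP F p] (red : integralClosure ℤ ℂ →+* F) (G : Type) [Group G] [Finite G] (α : MulAut G)
    (z : G → F) (hz : IsClassFun z) (hα : ∀ x, z (α x) = z x) (c : F)
    (E : Type) [Group E] [Finite E] (i : G →* E) (hi : Function.Injective i) [i.range.Normal]
    (hQ : ∀ K : Subgroup E, i.range ≤ K → LocK p i.range K fun Q _ => ∀ zQ : Q → F,
      IsClassFun zQ → (z = 0 → zQ = 0) → KRz p red Q zQ c)
    (t : E) (ht : ∀ x, t * i x * t⁻¹ = i (α x))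
    (hcyc : ∀ k : E, ∃ n : ℤ, ∃ g : G, k = t ^ n * i g) :
    ∑ᶠ σ : {σ : Set (Subgroup G) // IsPChain p σ}, (-1 : ℤ) ^ σ.1.ncard *
      ((Nat.card (chainStabilizer σ.1) : ℤ) *
        Nat.card {ψ : chainStabilizer σ.1 → ℂ // IsIrreducibleCharacter ψ ∧
          centralValue red ψ (fun x => z x) = c ∧ FixC α σ.1 ψ}) =
    (Nat.card G : ℤ) * Nat.card {ψ : G → ℂ // IsWt p (⊥ : Subgroup G) ψ ∧
      centralValue red ψ z = c ∧ ∀ x, ψ (α x) = ψ x} := by
  have hzc := ze_class i hi ht hcyc hz hα
  have key := h p F red E i.range t (fun k => by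
    obtain ⟨n, g, hk⟩ := hcyc k
    exact ⟨n, i g, ⟨g, rfl⟩, hk⟩) (ze i z) hzc (fun x hx => ze_out i z hx) c
    (fun K hK R hR1 hR2 hR3 Q _ _ π hπ hk zQ hzQ h0 => hQ K hK R hR1 hR2 hR3 Q π hπ hk zQ hzQ
      fun hz0 => h0 (by
      funext y
      show ze i z y = 0
      by_cases hy : y ∈ i.range
      · obtain ⟨x, rfl⟩ := hy
        rw [ze_i i hi, hz0]
        rfl
      · exact ze_out i z hy))
  have e1 : Nat.card i.range = Nat.card G := (Nat.card_congr (MonoidHom.ofInjective hi).toEquiv).symm
  have e2 : Nat.card {ψ : i.range → ℂ // IsWt p (⊥ : Subgroup i.range) ψ ∧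
      centralValue red ψ (fun x => ze i z x) = c ∧ Fixes t ψ} =
      Nat.card {ψ : G → ℂ // IsWt p (⊥ : Subgroup G) ψ ∧
        centralValue red ψ z = c ∧ ∀ x, ψ (α x) = ψ x} := by
    have h1 := cardT red (MonoidHom.ofInjective hi) (fun x : i.range => ze i z x)
      (fun g x => hzc g x) c (fun ψ => IsWt p (⊥ : Subgroup i.range) ψ) (fun ψ => Fixes t ψ)
      (fun ψ => IsWt p (⊥ : Subgroup G) ψ) (fun ψ => ∀ x, ψ (α x) = ψ x)
      (fun ψ hψ => hψ.irr) (fun ψ => wt_iff _ ψ) (by
        intro ψ
        constructor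
        · intro h1 x
          refine h1 _ _ ?_
          show i (α x) = t * i x * t⁻¹
          exact (ht x).symm
        · intro h1 n n' hn
          obtain ⟨x, rfl⟩ := (MonoidHom.ofInjective hi).surjective n
          obtain ⟨y, rfl⟩ := (MonoidHom.ofInjective hi).surjective n'
          have h2 : i y = i (α x) := by
            rw [← ht]
            exact hn
          rw [hi h2]
          exact h1 x)
    rw [h1]
    have h2 : (fun x : G => ze i z ((MonoidHom.ofInjective hi) x)) = z := by
      funext x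
      exact ze_i i hi z x
    rw [h2]
  rw [e1, e2] at key
  rw [← key]
  refine finsum_eq_of_bijective (chm i hi p) (chm_bij i hi p) ?_
  intro σ
  have hinj : Function.Injective (fun P : Subgroup G => P.map i) := Subgroup.map_injective hi
  have e3 : (chm i hi p σ).1 = (fun P : Subgroup G => P.map i) '' σ.1 := rfl
  rw [e3, Set.ncard_image_of_injective _ hinj]
  have e4 : Nat.card (NG i.range ((fun P : Subgroup G => P.map i) '' σ.1)) =
      Nat.card (chainStabilizer σ.1) := (Nat.card_congr (eqv i hi σ.1).toEquiv).symm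
  rw [e4]
  have e5 := cardT red (eqv i hi σ.1)
    (fun x : NG i.range ((fun P : Subgroup G => P.map i) '' σ.1) => ze i z x)
    (fun g x => hzc g x) c (fun ψ => IsIrreducibleCharacter ψ)
    (fun ψ => ∃ g ∈ i.range, g * t ∈ chainStabilizer ((fun P : Subgroup G => P.map i) '' σ.1) ∧
      Fixes (g * t) ψ)
    (fun ψ => IsIrreducibleCharacter ψ) (fun ψ => FixC α σ.1 ψ)
    (fun ψ hψ => hψ) (fun ψ => irr_iff _ ψ) (by
      intro ψ
      have hc : ∀ g x y : G, i y = i g * t * i x * (i g * t)⁻¹ ↔ y = g * α x * g⁻¹ := by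
        intro g x y
        have e : i g * t * i x * (i g * t)⁻¹ = i (g * α x * g⁻¹) := by
          rw [map_mul, map_mul, map_inv, ← ht]
          group
        rw [e]
        exact hi.eq_iff
      have hs : ∀ g : G, i g * t ∈ chainStabilizer ((fun P : Subgroup G => P.map i) '' σ.1) ↔
          ∀ P ∈ σ.1, conjSub g (P.map α.toMonoidHom) = P := by
        intro g
        rw [mem_chainStabilizer]
        constructor
        · intro h1 P hP
          have h2 : conjSub (i g * t) (P.map i) = P.map i := h1 _ ⟨P, hP, rfl⟩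
          rw [conj_map_t i ht] at h2
          exact Subgroup.map_injective hi h2
        · rintro h1 _ ⟨P, hP, rfl⟩
          show conjSub (i g * t) (P.map i) = P.map i
          rw [conj_map_t i ht, h1 P hP]
      have hF : ∀ g : G, Fixes (i g * t) ψ ↔ ∀ x y : chainStabilizer σ.1,
          (y : G) = g * α x * g⁻¹ → ψ (eqv i hi σ.1 y) = ψ (eqv i hi σ.1 x) := by
        intro g
        constructor
        · intro h1 x y hxy
          refine h1 _ _ ?_
          rw [eqv_coe, eqv_coe]
          exact (hc g x y).2 hxy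
        · intro h1 n n' hn
          obtain ⟨x, rfl⟩ := (eqv i hi σ.1).surjective n
          obtain ⟨y, rfl⟩ := (eqv i hi σ.1).surjective n'
          rw [eqv_coe, eqv_coe] at hn
          exact h1 x y ((hc g x y).1 hn)
      constructor
      · rintro ⟨_, ⟨g, rfl⟩, h1, h2⟩
        exact ⟨g, (hs g).1 h1, (hF g).1 h2⟩
      · rintro ⟨g, h1, h2⟩
        exact ⟨i g, ⟨g, rfl⟩, (hs g).2 h1, (hF g).2 h2⟩)
  rw [e5]
  have e6 : (fun x : chainStabilizer σ.1 => ze i z (eqv i hi σ.1 x : E)) =
      fun x : chainStabilizer σ.1 => z x := by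
    funext x
    rw [eqv_coe]
    exact ze_i i hi z x
  rw [e6]

end Pool.Agent.N20.EW
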