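import Pool.Agent.N20.EW.Stm4
import Pool.Agent.N20.AE.Stm2

/-!
# The Knörr–Robinson conjecture and automorphisms: classes of pairs of a chain and a character
-/

set_option autoImplicit false

open scoped Classical BigOperators

noncomputable section

namespace Pool.Agent.N20.EW

open Pool.Agent.Y63.NV
open Pool.Agent.Y63.KR
open Pool.Agent.Y63.AWC (IsIrreducibleCharacter pSubgroupSetoid)

section

variable (p : ℕ) {F : Type} [Field F] (red : integralClosure ℤ ℂ →+* F) {G : Type} [Group G]
  (B : (G → F) → F)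

/-- `σ` is a chain of nontrivial `p`-subgroups of `G` and `ψ` an irreducible character of `G_σ` whose
block induces `B`. -/
def IsCP (σ : Set (Subgroup G)) (ψ : chainStabilizer σ → ℂ) : Prop :=
  IsPChain p σ ∧ IsIrreducibleCharacter ψ ∧
    ∀ f : G → F, IsClassFun f → centralValue red ψ (fun x => f x) = B f

/-- The pairs `(σ, ψ)` of a chain and a character. -/
def CPr : Type := {s : (Σ σ : Set (Subgroup G), (chainStabilizer σ → ℂ)) // IsCP p red B s.1 s.2}

end

section

variable {p : ℕ} {F : Type} [Field F] {red : integralClosure ℤ ℂ →+* F} {G : Type} [Group G]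
  {B : (G → F) → F}

/-- the chain `σ` of the pair `(σ, ψ)` -/
def CPr.chn (s : CPr p red B) : Set (Subgroup G) := s.1.1

/-- the character `ψ` of the pair `(σ, ψ)` -/
def CPr.chr (s : CPr p red B) : chainStabilizer s.chn → ℂ := s.1.2

/-- the automorphism `β` maps the pair `(σ, ψ)` to the pair `(σ', ψ')` -/
def MapC (β : MulAut G) (s s' : CPr p red B) : Prop :=
  s'.chn = (fun P : Subgroup G => P.map β.toMonoidHom) '' s.chn ∧
    ∀ (x : chainStabilizer s.chn) (y : chainStabilizer s'.chn), (y : G) = β x → s'.chr y = s.chr x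

theorem conjSub_aut (β : MulAut G) (x : G) (P : Subgroup G) :
    conjSub (β x) (P.map β.toMonoidHom) = (conjSub x P).map β.toMonoidHom := by
  unfold conjSub
  rw [Subgroup.map_map, Subgroup.map_map]
  congr 1
  ext y
  change β x * β y * (β x)⁻¹ = β (x * y * x⁻¹)
  rw [map_mul, map_mul, map_inv]

theorem cs_aut (β : MulAut G) {σ : Set (Subgroup G)} {x : G} :
    β x ∈ chainStabilizer ((fun P : Subgroup G => P.map β.toMonoidHom) '' σ) ↔
      x ∈ chainStabilizer σ := by
  rw [mem_chainStabilizer, mem_chainStabilizer]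
  have hinj : Function.Injective (fun P : Subgroup G => P.map β.toMonoidHom) :=
    Subgroup.map_injective β.injective
  constructor
  · intro h P hP
    have h1 := h _ ⟨P, hP, rfl⟩
    rw [conjSub_aut] at h1
    exact hinj h1
  · rintro h _ ⟨P, hP, rfl⟩
    rw [conjSub_aut, h P hP]

theorem MapC.one (s : CPr p red B) : MapC (1 : MulAut G) s s := by
  refine ⟨?_, fun x y h => ?_⟩
  · have : (fun P : Subgroup G => P.map (1 : MulAut G).toMonoidHom) = id := by
      funext P
      exact Subgroup.map_id P
    rw [this, Set.image_id]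
  · have : y = x := Subtype.ext h
    rw [this]

theorem MapC.mul {β γ : MulAut G} {s s' s'' : CPr p red B} (h : MapC β s s')
    (h' : MapC γ s' s'') : MapC (γ * β) s s'' := by
  refine ⟨?_, fun x y hy => ?_⟩
  · rw [h'.1, h.1, ← Set.image_comp]
    refine Set.image_congr fun P _ => ?_
    exact Subgroup.map_map P _ _
  · have h1 : β x ∈ chainStabilizer s'.chn := by
      rw [h.1]
      exact (cs_aut β).2 x.2
    rw [← h.2 x ⟨β x, h1⟩ rfl]
    exact h'.2 ⟨β x, h1⟩ y hy

theorem MapC.inv {β : MulAut G} {s s' : CPr p red B} (h : MapC β s s') : MapC β⁻¹ s' s := by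
  refine ⟨?_, fun x y hy => ?_⟩
  · rw [h.1, ← Set.image_comp]
    have : (fun P : Subgroup G => P.map (β⁻¹ : MulAut G).toMonoidHom) ∘
        (fun P : Subgroup G => P.map β.toMonoidHom) = id := by
      funext P
      have h1 : (β⁻¹ : MulAut G).toMonoidHom.comp β.toMonoidHom = MonoidHom.id G := by
        ext x
        exact β.symm_apply_apply x
      rw [Function.comp_apply, Subgroup.map_map, h1, Subgroup.map_id]
      rfl
    rw [this, Set.image_id]
  · refine (h.2 y x ?_).symm
    rw [hy]
    exact (β.apply_symm_apply x).symm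

end

section

variable (p : ℕ) {F : Type} [Field F] (red : integralClosure ℤ ℂ →+* F) {G : Type} [Group G]
  (B : (G → F) → F)

/-- conjugacy of pairs -/
def cpSetoid : Setoid (CPr p red B) where
  r s s' := ∃ g : G, MapC (MulAut.conj g) s s'
  iseqv :=
  { refl := fun s => ⟨1, by
      rw [map_one]
      exact MapC.one s⟩
    symm := by
      rintro s s' ⟨g, h⟩
      refine ⟨g⁻¹, ?_⟩
      rw [map_inv]
      exact h.inv
    trans := by
      rintro s s' s'' ⟨g, h⟩ ⟨g', h'⟩
      refine ⟨g' * g, ?_⟩
      rw [map_mul]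
      exact h.mul h' }

/-- The `G`-classes of the pairs `(σ, ψ)` with `bl(ψ)^G = B`. -/
def CCl : Type := Quotient (cpSetoid p red B)

end

section

variable {p : ℕ} {F : Type} [Field F] {red : integralClosure ℤ ℂ →+* F} {G : Type} [Group G]
  {B : (G → F) → F}

/-- a representative of a class of pairs -/
def CCl.rp (C : CCl p red B) : CPr p red B := Quotient.out C

/-- the length of the chains in the class `C` -/
def CCl.len (C : CCl p red B) : ℕ := C.rp.chn.ncard

/-- the automorphism `α` maps the class `C` to the class `C'` -/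
def ImgK (α : MulAut G) (C C' : CCl p red B) : Prop :=
  ∃ g : G, MapC (MulAut.conj g * α) C.rp C'.rp

end

/-- ORB: from sums over all chains to classes of pairs -/
def S_ORB : Prop := ∀ (p : ℕ) [Fact p.Prime] (F : Type) [Field F] (red : integralClosure ℤ ℂ →+* F)
    (G : Type) [Group G] [Finite G] (α : MulAut G) (B : (G → F) → F),
    ∑ᶠ σ : {σ : Set (Subgroup G) // IsPChain p σ}, (-1 : ℤ) ^ σ.1.ncard *
      ((Nat.card (chainStabilizer σ.1) : ℤ) *
        Nat.card {ψ : chainStabilizer σ.1 → ℂ // IsIrreducibleCharacter ψ ∧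
          (∀ f : G → F, IsClassFun f → centralValue red ψ (fun x => f x) = B f) ∧
          FixC α σ.1 ψ}) =
    (Nat.card G : ℤ) * ((Nat.card {C : CCl p red B // Even C.len ∧ ImgK α C C} : ℤ) -
      Nat.card {C : CCl p red B // ¬ Even C.len ∧ ImgK α C C})

/-- KBIJ: from the numbers of fixed points to bijections -/
def S_KBIJ : Prop := ∀ (p : ℕ) [Fact p.Prime] (F : Type) [Field F] (red : integralClosure ℤ ℂ →+* F)
    (G : Type) [Group G] [Finite G] (α : MulAut G) (B : (G → F) → F), InvA B α →
    (∀ k : ℕ, Nat.card {C : CCl p red B // Even C.len ∧ ImgK (α ^ k) C C} =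
      Nat.card {C : CCl p red B // ¬ Even C.len ∧ ImgK (α ^ k) C C}) →
    ∃ e : {C : CCl p red B // Even C.len} ≃ {C : CCl p red B // ¬ Even C.len},
      ∀ C C' : {C : CCl p red B // Even C.len}, ImgK α C.1 C'.1 → ImgK α (e C).1 (e C').1

end Pool.Agent.N20.EW
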