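import Pool.Agent.N20.EW.FinK
import Pool.Agent.N20.EW.AutG
import Pool.Agent.N20.EW.Stm5
import Pool.Agent.N488.EKBLKR
import Pool.Agent.N492.EKORB

/-!
# The Knörr–Robinson conjecture and automorphisms: the version with blocks
-/

set_option autoImplicit false
set_option linter.unusedSectionVars false

open scoped Classical BigOperators

noncomputable section

namespace Pool.Agent.N20.EW

open Pool.Agent.Y63.NV
open Pool.Agent.Y63.KR
open Pool.Agent.Y63.AWC (IsIrreducibleCharacter pSubgroupSetoid numDefectZero)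
open Pool.Agent.N20.DI (parts)
open Pool.Agent.N20.AE (s_mm s_ze)
open Pool.Agent.R674.KB (KRQ krq_iff kblk)

theorem s_eqg : S_EQG :=
  EQG parts.cl parts.ch Pool.Agent.N273.EK.LINA Pool.Agent.Y930.NV.inf parts.dec s_dzr
    Pool.Agent.N667.EWCMB.CMB

section ext

variable {G E : Type} [Group G] [Group E] {i : G →* E} {t : E} {α : MulAut G}

theorem act_zpow (hE : IsExt i t α) (n : ℤ) (x : G) : t ^ n * i x * (t ^ n)⁻¹ = i ((α ^ n) x) :=
  Pool.Agent.N655.EWAUTW.conj_zpow i t α hE.act n x

theorem act_pow (hE : IsExt i t α) (n : ℕ) (x : G) : t ^ n * i x * (t ^ n)⁻¹ = i ((α ^ n) x) := by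
  have h := act_zpow hE (n : ℤ) x
  rw [zpow_natCast, zpow_natCast] at h
  exact h

theorem inv_ext {F : Type} {B : (G → F) → F} (hE : IsExt i t α) (hα : InvA B α) (k : E)
    (f f' : G → F) (hf : ∀ g x : G, f (g * x * g⁻¹) = f x)
    (hff : ∀ x y : G, i y = k * i x * k⁻¹ → f' y = f x) : B f' = B f := by
  obtain ⟨n, g, rfl⟩ := hE.gen k
  have h1 : ∀ x : G, f' ((α ^ n) x) = f x := by
    intro x
    have h2 := hff (g⁻¹ * x * g) ((α ^ n) x) (by
      rw [← act_zpow hE n, map_mul, map_mul, map_inv]
      group)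
    rw [h2]
    have h3 := hf g⁻¹ x
    rw [inv_inv] at h3
    exact h3
  have hc : ∀ g x : G, f' (g * x * g⁻¹) = f' x := by
    intro g x
    have h4 : ∀ y : G, f' y = f ((α ^ n)⁻¹ y) := by
      intro y
      rw [← h1, MulAut.apply_inv_self]
    rw [h4, h4, map_mul, map_mul, map_inv]
    exact hf _ _
  have h5 := Pool.Agent.N655.EWAUTW.inv_zpow B hα n f' hc
  rw [← h5]
  congr 1
  funext x
  exact h1 x

/-- every automorphism comes from an extension -/
theorem ex_ext (G : Type) [Group G] [Finite G] (α : MulAut G) :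
    ∃ (E : Type) (_ : Group E) (_ : Finite E) (i : G →* E) (t : E), IsExt i t α := by
  have hfin : Finite (MulAut G) :=
    Finite.of_injective (fun f : MulAut G => (f : G → G)) DFunLike.coe_injective
  have hE : Finite (SemidirectProduct G (Subgroup.zpowers α) (Subgroup.zpowers α).subtype) :=
    Finite.of_equiv _ SemidirectProduct.equivProd.symm
  have hn : (SemidirectProduct.inl : G →*
      SemidirectProduct G (Subgroup.zpowers α) (Subgroup.zpowers α).subtype).range.Normal := by
    rw [SemidirectProduct.range_inl_eq_ker_rightHom]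
    infer_instance
  have hi : Function.Injective (SemidirectProduct.inl : G →*
      SemidirectProduct G (Subgroup.zpowers α) (Subgroup.zpowers α).subtype) :=
    SemidirectProduct.inl_injective
  obtain ⟨t, htd⟩ : ∃ t : SemidirectProduct G (Subgroup.zpowers α) (Subgroup.zpowers α).subtype,
    t = SemidirectProduct.inr ⟨α, Subgroup.mem_zpowers α⟩ := ⟨_, rfl⟩
  have ht : ∀ x : G, t * SemidirectProduct.inl x * t⁻¹ = SemidirectProduct.inl (α x) := by
    intro x
    rw [htd, ← map_inv, ← SemidirectProduct.inl_aut]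
    rfl
  refine ⟨_, inferInstance, hE, SemidirectProduct.inl, t, hi, hn, ht, fun k => ?_⟩
  obtain ⟨n, hn⟩ := Subgroup.mem_zpowers_iff.1 k.right.2
  refine ⟨n, (α ^ n)⁻¹ k.left, ?_⟩
  have h1 : t ^ n = SemidirectProduct.inr k.right := by
    rw [htd, ← map_zpow]
    congr 1
    exact Subtype.ext hn
  have h2 := Pool.Agent.N655.EWAUTW.conj_zpow (SemidirectProduct.inl : G →*
    SemidirectProduct G (Subgroup.zpowers α) (Subgroup.zpowers α).subtype) t α ht n
    ((α ^ n)⁻¹ k.left)
  rw [MulAut.apply_inv_self] at h2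
  have h3 : t ^ n * SemidirectProduct.inl ((α ^ n)⁻¹ k.left) =
      SemidirectProduct.inl k.left * t ^ n := by
    rw [← h2]
    group
  rw [h3, h1, SemidirectProduct.inl_left_mul_inr_right]

end ext

section defs

variable (p : ℕ) {F : Type} [Field F] (red : integralClosure ℤ ℂ →+* F)

/-- The block `B` has nontrivial defect groups: it contains no character of `p`-defect zero. -/
def NDef {G : Type} [Group G] (B : (G → F) → F) : Prop :=
  ∀ χ : G → ℂ, IsWt p (⊥ : Subgroup G) χ →
    ¬ ∀ f : G → F, IsClassFun f → centralValue red χ f = B f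

/-- The conjecture holds for all groups `N_K(R)/R`, where `K` is a subgroup of `E` containing `G` and
`R` a `p`-subgroup of `K` with `G ∩ R = 1`. -/
def KRQloc {G E : Type} [Group G] [Group E] (i : G →* E) : Prop :=
  ∀ K R : Subgroup E, i.range ≤ K → R ≤ K → IsPGroup p R → i.range ⊓ R = ⊥ →
    ∀ (Q : Type) [Group Q] [Finite Q] (π : ↥(K ⊓ Subgroup.normalizer (R : Set E)) →* Q),
      Function.Surjective π → π.ker = R.subgroupOf (K ⊓ Subgroup.normalizer (R : Set E)) →
      KRQ p red Q

/-- For all `α`-invariant blocks `B` with nontrivial defect groups, the numbers of the `α`-invariant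
classes of pairs `(σ, ψ)` with `bl(ψ)^G = B` and `|σ|` even, and with `|σ|` odd, are equal. -/
def AltF {G : Type} [Group G] (α : MulAut G) : Prop :=
  ∀ B : (G → F) → F, IsBlock B → NDef p red B → InvA B α →
    Nat.card {C : CCl p red B // Even C.len ∧ ImgK α C C} =
      Nat.card {C : CCl p red B // ¬ Even C.len ∧ ImgK α C C}

/-- the classes of pairs `(σ, ψ)` with `bl(ψ)^G = B` and `|σ|` even -/
def CEv {G : Type} [Group G] (B : (G → F) → F) : Type := {C : CCl p red B // Even C.len}

/-- the classes of pairs `(σ, ψ)` with `bl(ψ)^G = B` and `|σ|` odd -/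
def COd {G : Type} [Group G] (B : (G → F) → F) : Type := {C : CCl p red B // ¬ Even C.len}

variable {p red}

/-- the class -/
def CEv.cl {G : Type} [Group G] {B : (G → F) → F} (C : CEv p red B) : CCl p red B := C.1

/-- the class -/
def COd.cl {G : Type} [Group G] {B : (G → F) → F} (C : COd p red B) : CCl p red B := C.1

variable (p red)

/-- For all `α`-invariant blocks `B` with nontrivial defect groups there is a bijection, commuting with
`α`, from the classes of pairs `(σ, ψ)` with `bl(ψ)^G = B` and `|σ|` even to those with `|σ|` odd. -/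
def AltE {G : Type} [Group G] (α : MulAut G) : Prop :=
  ∀ B : (G → F) → F, IsBlock B → NDef p red B → InvA B α →
    ∃ e : CEv p red B ≃ COd p red B,
      ∀ C C' : CEv p red B, ImgK α C.cl C'.cl → ImgK α (e C).cl (e C').cl

end defs

section main

variable {p : ℕ} [Fact p.Prime] {F : Type} [Field F] [IsAlgClosed F] [CharP F p]
  (red : integralClosure ℤ ℂ →+* F)

theorem img_one {G : Type} [Group G] {B : (G → F) → F} (C : CCl p red B) :
    ImgK (1 : MulAut G) C C := by
  refine ⟨1, ?_⟩
  rw [map_one, one_mul]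
  exact MapC.one _

/-- fixed classes of pairs -/
theorem pair_count {G E : Type} [Group G] [Group E] [Finite E] {i : G →* E} {t : E}
    {α : MulAut G} (hE : IsExt i t α) (hL : KRQloc p red i) {B : (G → F) → F} (hB : IsBlock B)
    (hD : NDef p red B) (hinv : InvA B α) (k : ℕ) :
    Nat.card {C : CCl p red B // Even C.len ∧ ImgK (α ^ k) C C} =
      Nat.card {C : CCl p red B // ¬ Even C.len ∧ ImgK (α ^ k) C C} := by
  have hG : Finite G := Finite.of_injective i hE.inj
  have hn := hE.normal
  obtain ⟨D, hDD⟩ := (s_mm p F G B hB).1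
  obtain ⟨z, hz⟩ := s_ze p F G E i B D hE.inj hE.normal hB hDD
    (fun k f f' hf hff => inv_ext hE hinv k f f' hf hff)
  have hzcl : IsClassFun (fun x : G => z (i x)) := by
    intro g x
    change z (i (g * x * g⁻¹)) = z (i x)
    rw [map_mul, map_mul, map_inv]
    exact hz.cl _ _
  have h1 := abs_gen s_eqg p F red G (α ^ k) (fun x => z (i x)) 1 E i hE.inj
    (fun K hK R hR1 hR2 hR3 Q _ _ π hπ hk zQ hzQ _ =>
      Pool.Agent.N488.EKBLKR.BLKR p F red Q
        ((krq_iff red Q).1 (hL K R hK hR1 hR2 hR3 Q π hπ hk)) zQ hzQ 1)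
    (t ^ k) (act_pow hE k) (fun e x y hxy => by rw [hxy]; exact hz.cl e (i x))
  have h2 : ∀ σ : {σ : Set (Subgroup G) // IsPChain p σ},
      Nat.card {ψ : chainStabilizer σ.1 → ℂ // IsIrreducibleCharacter ψ ∧
        centralValue red ψ (fun x => (fun x => z (i x)) (x : G)) = 1 ∧ FixC (α ^ k) σ.1 ψ} =
      Nat.card {ψ : chainStabilizer σ.1 → ℂ // IsIrreducibleCharacter ψ ∧
        (∀ f : G → F, IsClassFun f → centralValue red ψ (fun x => f x) = B f) ∧
          FixC (α ^ k) σ.1 ψ} := by
    intro σ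
    refine Nat.card_congr (Equiv.subtypeEquivRight fun ψ => ?_)
    constructor
    · rintro ⟨a, b, c⟩
      refine ⟨a, fun f hf => ?_, c⟩
      exact hz.sep _ (kblk p F red G σ.1 ψ σ.2 a) b f hf
    · rintro ⟨a, b, c⟩
      exact ⟨a, (b _ hzcl).trans hz.one, c⟩
  have h3 : Nat.card {ψ : G → ℂ // IsWt p (⊥ : Subgroup G) ψ ∧
      centralValue red ψ (fun x => z (i x)) = 1 ∧ ∀ x, ψ ((α ^ k) x) = ψ x} = 0 := by
    rw [Nat.card_eq_zero]
    left
    refine ⟨fun ψ => hD ψ.1 ψ.2.1 fun f hf => ?_⟩
    exact hz.sep _ (Pool.Agent.Y930.NV.cvh F red G _ ψ.2.1.irr) ψ.2.2.1 f hf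
  rw [h3, Nat.cast_zero, mul_zero] at h1
  have h4 := N492.EKORB.ORB p F red G (α ^ k) B
  have h5 : ∑ᶠ σ : {σ : Set (Subgroup G) // IsPChain p σ}, (-1 : ℤ) ^ σ.1.ncard *
      ((Nat.card (chainStabilizer σ.1) : ℤ) *
        Nat.card {ψ : chainStabilizer σ.1 → ℂ // IsIrreducibleCharacter ψ ∧
          (∀ f : G → F, IsClassFun f → centralValue red ψ (fun x => f x) = B f) ∧
          FixC (α ^ k) σ.1 ψ}) = 0 := by
    rw [← h1]
    refine finsum_congr fun σ => ?_
    rw [← h2 σ]
  rw [h5] at h4
  have h0 : (Nat.card G : ℤ) ≠ 0 := by exact_mod_cast Nat.card_pos.ne'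
  have h6 := (mul_eq_zero.1 h4.symm).resolve_left h0
  exact_mod_cast sub_eq_zero.1 h6

/-- the conjecture from the equality of the numbers of all classes of pairs -/
theorem krq_of {G : Type} [Group G] [Finite G] (h : AltF p red (1 : MulAut G)) :
    KRQ p red G := by
  intro B hB hD
  have h1 := h B hB hD fun f _ => rfl
  have h4 := N492.EKORB.ORB p F red G (1 : MulAut G) B
  rw [h1, sub_self, mul_zero] at h4
  have _i : Fintype {σ : Set (Subgroup G) // IsPChain p σ} := Fintype.ofFinite _
  have h := Pool.Agent.Q90.WR.card_mul_alternatingSum' (p := p)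
    (fun J : Subgroup G => (numIrrInd red J B : ℤ)) (by
      intro g H
      rw [Pool.Agent.Y171.NV.numIrrInd_conj red B g H])
  have e : _i = Pool.Agent.Q90.WR.instFintypeCh p G := Subsingleton.elim _ _
  have h5 : ∀ σ : {σ : Set (Subgroup G) // IsPChain p σ},
      Nat.card {ψ : chainStabilizer σ.1 → ℂ // IsIrreducibleCharacter ψ ∧
          (∀ f : G → F, IsClassFun f → centralValue red ψ (fun x => f x) = B f) ∧
          FixC (1 : MulAut G) σ.1 ψ} = numIrrInd red (chainStabilizer σ.1) B := by
    intro σ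
    refine Nat.card_congr (Equiv.subtypeEquivRight fun ψ => ?_)
    refine ⟨fun h => ⟨h.1, h.2.1⟩, fun h => ⟨h.1, h.2, 1, fun P _ => ?_, fun x y hxy => ?_⟩⟩
    · rw [conjSub_one]
      exact Subgroup.map_id P
    · have h2 : (1 : G) * (1 : MulAut G) (x : G) * (1 : G)⁻¹ = x := by
        rw [MulAut.one_apply, one_mul, inv_one, mul_one]
      have h3 : y = x := Subtype.ext (hxy.trans h2)
      rw [h3]
  rw [finsum_congr fun σ => by rw [h5 σ], finsum_eq_sum_of_fintype, e] at h4
  have h0 : (Nat.card G : ℤ) ≠ 0 := by exact_mod_cast Nat.card_pos.ne'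
  refine (mul_eq_zero.1 (h.trans ?_)).resolve_left h0
  exact h4

theorem altF_of_altE {G : Type} [Group G] (h : AltE p red (1 : MulAut G)) :
    AltF p red (1 : MulAut G) := by
  intro B hB hD hinv
  obtain ⟨e, -⟩ := h B hB hD hinv
  have h1 : Nat.card {C : CCl p red B // Even C.len ∧ ImgK (1 : MulAut G) C C} =
      Nat.card {C : CCl p red B // Even C.len} :=
    Nat.card_congr (Equiv.subtypeEquivRight fun C => ⟨fun h => h.1, fun h => ⟨h, img_one red C⟩⟩)
  have h2 : Nat.card {C : CCl p red B // ¬ Even C.len ∧ ImgK (1 : MulAut G) C C} =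
      Nat.card {C : CCl p red B // ¬ Even C.len} :=
    Nat.card_congr (Equiv.subtypeEquivRight fun C => ⟨fun h => h.1, fun h => ⟨h, img_one red C⟩⟩)
  rw [h1, h2]
  exact Nat.card_congr e

theorem altF_loc {G E : Type} [Group G] [Group E] [Finite E] {i : G →* E} {t : E}
    {α : MulAut G} (hE : IsExt i t α) (hL : KRQloc p red i) : AltF p red α := by
  intro B hB hD hinv
  have h := pair_count red hE hL hB hD hinv 1
  rw [pow_one] at h
  exact h

theorem altE_loc (hKB : S_KBIJ) {G E : Type} [Group G] [Group E] [Finite E] {i : G →* E} {t : E}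
    {α : MulAut G} (hE : IsExt i t α) (hL : KRQloc p red i) : AltE p red α := by
  intro B hB hD hinv
  have hG : Finite G := Finite.of_injective i hE.inj
  exact hKB p F red G α B hinv fun k => pair_count red hE hL hB hD hinv k

/-- **the main theorem, with blocks** -/
theorem main_alt (hKB : S_KBIJ) :
    (∀ (G E : Type) [Group G] [Group E] [Finite E] (i : G →* E) (t : E) (α : MulAut G),
      IsExt i t α → KRQloc p red i → AltE p red α) ∧
    ((∀ (G : Type) [Group G] [Finite G], KRQ p red G) ↔
      ∀ (G : Type) [Group G] [Finite G] (α : MulAut G), AltF p red α) ∧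
    ((∀ (G : Type) [Group G] [Finite G], KRQ p red G) ↔
      ∀ (G : Type) [Group G] [Finite G] (α : MulAut G), AltE p red α) := by
  refine ⟨fun G E _ _ _ i t α hE hL => altE_loc red hKB hE hL, ⟨fun h G _ _ α => ?_,
    fun h G _ _ => krq_of red (h G 1)⟩, ⟨fun h G _ _ α => ?_,
    fun h G _ _ => krq_of red (altF_of_altE red (h G 1))⟩⟩
  · obtain ⟨E, _, _, i, t, hE⟩ := ex_ext G α
    exact altF_loc red hE fun K R _ _ _ _ Q _ _ _ _ _ => h Q
  · obtain ⟨E, _, _, i, t, hE⟩ := ex_ext G α
    exact altE_loc red hKB hE fun K R _ _ _ _ Q _ _ _ _ _ => h Q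

end main

end Pool.Agent.N20.EW
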