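import Pool.Agent.N20.EW.Fin
import Pool.Agent.N20.EW.AutL
import Pool.Agent.N273.EKLINA
import Pool.Agent.N833.EKKRC0
import Pool.Agent.N2.EK.AUTK
import Pool.Agent.N459.EKCPR
import Pool.Agent.Y63.NV.Free

/-!
# The Knörr–Robinson conjecture and automorphisms: the version without blocks
-/

set_option autoImplicit false

open scoped Classical BigOperators

noncomputable section

namespace Pool.Agent.N20.EW

open Pool.Agent.Y63.NV
open Pool.Agent.Y63.KR
open Pool.Agent.Y63.AWC (IsIrreducibleCharacter pSubgroupSetoid numDefectZero)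
open Pool.Agent.N20.DI (parts)

theorem s_eql : S_EQL :=
  EQL parts.cl parts.ch Pool.Agent.N273.EK.LINA Pool.Agent.Y930.NV.inf parts.dec s_dzr
    Pool.Agent.N667.EWCMB.CMB

theorem s_eqk : S_EQK := EQK s_eql

theorem s_autk : S_AUTK := Pool.Agent.N2.EK.AUTK.AUTK s_eqk

section

variable (p : ℕ) {G : Type} [Group G] (α : MulAut G)

/-- The poset of the nontrivial `p`-subgroups `P` of `G` with `g α(P) g⁻¹ = P` and `x P x⁻¹ = P`: the
nontrivial `p`-subgroups normalised by the elements `gα` and `x` of the semidirect product of `G` and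
`⟨α⟩`. -/
def twFix (g x : G) : Set (Subgroup G) :=
  {P | IsPGroup p P ∧ P ≠ ⊥ ∧ conjSub g (P.map α.toMonoidHom) = P ∧ conjSub x P = P}

/-- The pairs `(g, x)` of elements of `G` such that the element `gα` of the semidirect product of `G` and
`⟨α⟩` commutes with `x`: `g α(x) g⁻¹ = x`. -/
abbrev TwP : Type := {q : G × G // q.1 * α q.2 * q.1⁻¹ = q.2}

/-- `|G|⁻¹ ∑ χ(X^⟨gα, x⟩)`, the sum over the pairs `(g, x)` such that `gα` and `x` commute. -/
def chi2A : ℚ :=
  (∑ᶠ q : TwP α, (eulerChar (twFix p α q.1.1 q.1.2) : ℚ)) / (Nat.card G : ℚ)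

/-- the number of the `α`-invariant irreducible characters of `G` -/
def numA : ℕ := Nat.card {χ : G → ℂ // IsIrreducibleCharacter χ ∧ ∀ x, χ (α x) = χ x}

/-- the number of the `α`-invariant irreducible characters of `G` of `p`-defect zero -/
def numDzA : ℕ := Nat.card {χ : G → ℂ // IsIrreducibleCharacter χ ∧
  (∃ n : ℕ, χ 1 = n ∧ n.factorization p = (Nat.card G).factorization p) ∧ ∀ x, χ (α x) = χ x}

/-- The Knörr–Robinson equality for the group `G` and the automorphism `α`. -/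
def KRCA : Prop := chi2A p α = (numA α : ℚ) - (numDzA p α : ℚ)

end

section one

variable {p : ℕ} {G : Type} [Group G] [Finite G]

theorem chain_sum (X : Set (Subgroup G)) (hX : ∀ P ∈ X, IsPGroup p P ∧ P ≠ ⊥) :
    (∑ᶠ σ : {σ : Set (Subgroup G) // IsPChain p σ},
      (if σ.1 ⊆ X then (-1 : ℤ) ^ σ.1.ncard else 0)) = 1 - eulerChar X := by
  have h0 : Fintype (Set (Subgroup G)) := Fintype.ofFinite _
  have h1 : Fintype {σ : Set (Subgroup G) // IsPChain p σ} := Fintype.ofFinite _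
  have h2 : Fintype {σ : Set (Subgroup G) // σ ⊆ X ∧ σ.Nonempty ∧
    IsChain (· ≤ ·) σ} := Fintype.ofFinite _
  unfold eulerChar
  rw [finsum_eq_sum_of_fintype, finsum_eq_sum_of_fintype, ← Finset.sum_filter]
  have e2 : ∑ σ ∈ Finset.univ.filter (fun σ : {σ : Set (Subgroup G) // IsPChain p σ} =>
      σ.1 ⊆ X), (-1 : ℤ) ^ σ.1.ncard =
      ∑ σ ∈ (Finset.univ : Finset (Set (Subgroup G))).filter
        (fun σ => IsPChain p σ ∧ σ ⊆ X), (-1 : ℤ) ^ σ.ncard := by
    refine Finset.sum_bij (fun σ _ => σ.1) ?_ ?_ ?_ ?_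
    · intro σ hσ
      rw [Finset.mem_filter]
      exact ⟨Finset.mem_univ _, σ.2, (Finset.mem_filter.mp hσ).2⟩
    · intro σ _ τ _ h
      exact Subtype.ext h
    · intro σ hσ
      rw [Finset.mem_filter] at hσ
      exact ⟨⟨σ, hσ.2.1⟩, by rw [Finset.mem_filter]; exact ⟨Finset.mem_univ _, hσ.2.2⟩, rfl⟩
    · intro σ _
      rfl
  have e3 : ∑ σ : {σ : Set (Subgroup G) // σ ⊆ X ∧ σ.Nonempty ∧
      IsChain (· ≤ ·) σ}, (-1 : ℤ) ^ (σ.1.ncard + 1) =
      ∑ σ ∈ (Finset.univ : Finset (Set (Subgroup G))).filter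
        (fun σ => σ ⊆ X ∧ σ.Nonempty ∧ IsChain (· ≤ ·) σ),
          (-1 : ℤ) ^ (σ.ncard + 1) :=
    (Finset.sum_subtype _ (by simp) (fun σ : Set (Subgroup G) => (-1 : ℤ) ^ (σ.ncard + 1))).symm
  have e4 : (Finset.univ : Finset (Set (Subgroup G))).filter
        (fun σ => IsPChain p σ ∧ σ ⊆ X) =
      insert ∅ ((Finset.univ : Finset (Set (Subgroup G))).filter
        (fun σ => σ ⊆ X ∧ σ.Nonempty ∧ IsChain (· ≤ ·) σ)) := by
    ext σ
    simp only [Finset.mem_filter, Finset.mem_univ, true_and, Finset.mem_insert]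
    constructor
    · rintro ⟨h4, h5⟩
      rcases Set.eq_empty_or_nonempty σ with h6 | h6
      · exact Or.inl h6
      · exact Or.inr ⟨h5, h6, h4.chain⟩
    · rintro (rfl | ⟨h5, -, h7⟩)
      · exact ⟨⟨Set.Pairwise.mono (Set.empty_subset _) (Set.pairwise_empty _),
          fun P hP => absurd hP (Set.notMem_empty P),
          fun P hP => absurd hP (Set.notMem_empty P)⟩, Set.empty_subset _⟩
      · exact ⟨⟨h7, fun P hP => (hX P (h5 hP)).1, fun P hP => (hX P (h5 hP)).2⟩, h5⟩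
  rw [e2, e3, e4, Finset.sum_insert]
  · rw [Set.ncard_empty, pow_zero, sub_eq_add_neg, ← Finset.sum_neg_distrib]
    congr 1
    refine Finset.sum_congr rfl fun σ _ => ?_
    rw [pow_succ]
    ring
  · rw [Finset.mem_filter]
    rintro ⟨-, -, h, -⟩
    exact Set.not_nonempty_empty h

theorem card_TwP (α : MulAut G) : Nat.card (TwP α) = Nat.card G * numA α := by
  have _i : Fintype G := Fintype.ofFinite G
  exact (Pool.Agent.N459.EKCPR.core G α).symm

/-- the alternating sum as an Euler characteristic -/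
theorem tw_sum (α : MulAut G) :
    ∑ᶠ σ : {σ : Set (Subgroup G) // IsPChain p σ}, (-1 : ℤ) ^ σ.1.ncard *
      (Nat.card {a : G × G // (∀ P ∈ σ.1, conjSub a.1 (P.map α.toMonoidHom) = P) ∧
        a.2 ∈ chainStabilizer σ.1 ∧ a.1 * α a.2 * a.1⁻¹ = a.2} : ℤ) =
    ∑ᶠ q : TwP α, (1 - eulerChar (twFix p α q.1.1 q.1.2)) := by
  have h1 : Fintype {σ : Set (Subgroup G) // IsPChain p σ} := Fintype.ofFinite _
  have h2 : Fintype (TwP α) := Fintype.ofFinite _
  have e1 : ∀ q : TwP α, (1 - eulerChar (twFix p α q.1.1 q.1.2)) =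
      ∑ σ : {σ : Set (Subgroup G) // IsPChain p σ},
        (if σ.1 ⊆ twFix p α q.1.1 q.1.2 then (-1 : ℤ) ^ σ.1.ncard else 0) := by
    intro q
    rw [← finsum_eq_sum_of_fintype]
    exact (chain_sum (twFix p α q.1.1 q.1.2) fun P hP => ⟨hP.1, hP.2.1⟩).symm
  rw [finsum_congr e1, finsum_eq_sum_of_fintype, finsum_eq_sum_of_fintype, Finset.sum_comm]
  refine Finset.sum_congr rfl fun σ _ => ?_
  rw [← Finset.sum_filter, Finset.sum_const, nsmul_eq_mul, mul_comm]
  congr 1
  rw [← Fintype.card_subtype, ← Nat.card_eq_fintype_card]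
  norm_cast
  exact Nat.card_congr
    { toFun := fun a => ⟨⟨a.1, a.2.2.2⟩, fun P hP => ⟨σ.2.isPGroup P hP, σ.2.ne_bot P hP,
        a.2.1 P hP, mem_chainStabilizer.1 a.2.2.1 P hP⟩⟩
      invFun := fun q => ⟨q.1.1, fun P hP => (q.2 hP).2.2.1,
        mem_chainStabilizer.2 fun P hP => (q.2 hP).2.2.2, q.1.2⟩
      left_inv := fun a => rfl
      right_inv := fun q => rfl }

end one

theorem krca_core {p : ℕ} [Fact p.Prime] {F : Type} [Field F] (red : integralClosure ℤ ℂ →+* F)
    {G : Type} [Group G] [Finite G] (α : MulAut G)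
    (h1 : ∑ᶠ σ : {σ : Set (Subgroup G) // IsPChain p σ}, (-1 : ℤ) ^ σ.1.ncard *
      ((Nat.card (chainStabilizer σ.1) : ℤ) *
        Nat.card {ψ : chainStabilizer σ.1 → ℂ // IsIrreducibleCharacter ψ ∧
          centralValue red ψ (fun x => (0 : G → F) x) = 0 ∧ FixC α σ.1 ψ}) =
    (Nat.card G : ℤ) * Nat.card {ψ : G → ℂ // IsWt p (⊥ : Subgroup G) ψ ∧
      centralValue red ψ (0 : G → F) = 0 ∧ ∀ x, ψ (α x) = ψ x}) : KRCA p α := by
  have hfs : Fintype {σ : Set (Subgroup G) // IsPChain p σ} := Fintype.ofFinite _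
  have hft : Fintype (TwP α) := Fintype.ofFinite _
  have h2 : ∑ᶠ σ : {σ : Set (Subgroup G) // IsPChain p σ}, (-1 : ℤ) ^ σ.1.ncard *
      ((Nat.card (chainStabilizer σ.1) : ℤ) *
        Nat.card {ψ : chainStabilizer σ.1 → ℂ // IsIrreducibleCharacter ψ ∧
          centralValue red ψ (fun x => (0 : G → F) x) = 0 ∧
          FixC α σ.1 ψ}) = ∑ᶠ q : TwP α, (1 - eulerChar (twFix p α q.1.1 q.1.2)) := by
    rw [← tw_sum]
    refine finsum_congr fun σ => ?_
    rw [← Pool.Agent.N459.EKCPR.CPR G α σ.1]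
    have h3 : Nat.card {ψ : chainStabilizer σ.1 → ℂ // IsIrreducibleCharacter ψ ∧
          centralValue red ψ (fun x => (0 : G → F) x) = 0 ∧
          FixC α σ.1 ψ} =
        Nat.card {ψ : chainStabilizer σ.1 → ℂ // IsIrreducibleCharacter ψ ∧ FixC α σ.1 ψ} :=
      Nat.card_congr (Equiv.subtypeEquivRight fun ψ => ⟨fun h => ⟨h.1, h.2.2⟩,
        fun h => ⟨h.1, Pool.Agent.N833.EK.cv_zero red ψ _ (fun x => rfl), h.2⟩⟩)
    rw [h3]
    push_cast
    ring
  have h3 : Nat.card {ψ : G → ℂ // IsWt p (⊥ : Subgroup G) ψ ∧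
      centralValue red ψ (0 : G → F) = 0 ∧ ∀ x, ψ (α x) = ψ x} =
      numDzA p α := by
    refine Nat.card_congr (Equiv.subtypeEquivRight fun ψ => ?_)
    constructor
    · rintro ⟨h4, -, h5⟩
      refine ⟨h4.irr, ?_, h5⟩
      obtain ⟨n, h6, h7⟩ := h4.defectZero
      refine ⟨n, h6, ?_⟩
      rw [Subgroup.card_bot, Nat.factorization_one, Finsupp.zero_apply, add_zero] at h7
      exact h7
    · rintro ⟨h4, ⟨n, h6, h7⟩, h5⟩
      refine ⟨⟨h4, ?_, n, h6, ?_⟩, Pool.Agent.N833.EK.cv_zero red ψ _ (fun x => rfl), h5⟩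
      · intro q hq x
        rw [Subgroup.mem_bot.mp hq, one_mul]
      · rw [Subgroup.card_bot, Nat.factorization_one, Finsupp.zero_apply, add_zero]
        exact h7
  rw [h2, h3, finsum_eq_sum_of_fintype, Finset.sum_sub_distrib] at h1
  have h4 : ∑ _q : TwP α, (1 : ℤ) = (Nat.card G : ℤ) * numA α := by
    rw [Finset.sum_const, nsmul_eq_mul, mul_one, Finset.card_univ, ← Nat.card_eq_fintype_card,
      card_TwP]
    push_cast
    ring
  rw [h4] at h1
  unfold KRCA chi2A
  rw [finsum_eq_sum_of_fintype]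
  have h5 : ((∑ q : TwP α, eulerChar (twFix p α q.1.1 q.1.2) : ℤ) : ℚ) =
      (Nat.card G : ℚ) * numA α - (Nat.card G : ℚ) * numDzA p α := by
    have h6 : (∑ q : TwP α, eulerChar (twFix p α q.1.1 q.1.2) : ℤ) =
        (Nat.card G : ℤ) * numA α - (Nat.card G : ℤ) * numDzA p α := by linarith
    rw [h6]
    push_cast
    ring
  push_cast at h5
  have h0 : (Nat.card G : ℚ) ≠ 0 := by exact_mod_cast Nat.card_pos.ne'
  rw [h5, ← mul_sub, mul_div_cancel_left₀ _ h0]

/-- `E` is a finite group containing `G` as a normal subgroup (embedded by `i`), `t` acts on `G` as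
`α`, and `E` is generated by `G` and `t`. -/
structure IsExt {G E : Type} [Group G] [Group E] (i : G →* E) (t : E) (α : MulAut G) : Prop where
  inj : Function.Injective i
  normal : i.range.Normal
  act : ∀ x, t * i x * t⁻¹ = i (α x)
  gen : ∀ k : E, ∃ n : ℤ, ∃ g : G, k = t ^ n * i g

/-- The Knörr–Robinson conjecture holds for all groups `N_K(R)/R`, where `K` is a subgroup of `E`
containing `G` and `R` a `p`-subgroup of `K` with `G ∩ R = 1`. -/
def KRCloc (p : ℕ) {G E : Type} [Group G] [Group E] (i : G →* E) : Prop :=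
  ∀ K R : Subgroup E, i.range ≤ K → R ≤ K → IsPGroup p R → i.range ⊓ R = ⊥ →
    ∀ (Q : Type) [Group Q] [Finite Q] (π : ↥(K ⊓ Subgroup.normalizer (R : Set E)) →* Q),
      Function.Surjective π → π.ker = R.subgroupOf (K ⊓ Subgroup.normalizer (R : Set E)) →
      KRC p Q

/-- the local form -/
theorem krca_loc (p : ℕ) [Fact p.Prime] {G E : Type} [Group G] [Group E] [Finite E] (i : G →* E)
    (t : E) (α : MulAut G) (hE : IsExt i t α) (h : KRCloc p i) : KRCA p α := by
  obtain ⟨red⟩ := exists_red p (AlgebraicClosure (ZMod p))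
  have hG : Finite G := Finite.of_injective i hE.inj
  have hn := hE.normal
  exact krca_core red α (abs_loc s_eql p (AlgebraicClosure (ZMod p)) red G α 0 (fun _ _ => rfl)
    (fun _ => rfl) 0 E i hE.inj (fun K hK R hR1 hR2 hR3 Q _ _ π hπ hk zQ _ h0 => by
      rw [h0 rfl]
      exact (Pool.Agent.N833.EK.KRC0 p (AlgebraicClosure (ZMod p)) red Q).1
        (h K R hK hR1 hR2 hR3 Q π hπ hk)) t hE.act hE.gen)

/-- from the conjecture to automorphisms -/
theorem krca_of (p : ℕ) [Fact p.Prime] (h : ∀ (G : Type) [Group G] [Finite G], KRC p G) (G : Type)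
    [Group G] [Finite G] (α : MulAut G) : KRCA p α := by
  obtain ⟨red⟩ := exists_red p (AlgebraicClosure (ZMod p))
  exact krca_core red α (s_autk p (AlgebraicClosure (ZMod p)) red G α 0 (fun _ _ => rfl)
    (fun _ => rfl) 0 (fun Q _ _ zQ _ h0 => by
      rw [h0 rfl]
      exact (Pool.Agent.N833.EK.KRC0 p (AlgebraicClosure (ZMod p)) red Q).1 (h Q)))

/-- the identity automorphism -/
theorem krca_one (p : ℕ) (G : Type) [Group G] [Finite G] (h : KRCA p (1 : MulAut G)) :
    KRC p G := by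
  have h1 : chi2A p (1 : MulAut G) = chi2 p G := by
    unfold chi2A chi2
    congr 1
    refine finsum_eq_of_bijective (fun q : TwP (1 : MulAut G) =>
      (⟨q.1, ?_⟩ : {q : G × G // q.1 * q.2 = q.2 * q.1})) ⟨?_, ?_⟩ ?_
    · have h2 : q.1.1 * q.1.2 * q.1.1⁻¹ = q.1.2 := q.2
      exact mul_inv_eq_iff_eq_mul.1 h2
    · intro a b hab
      exact Subtype.ext (congrArg (fun t => t.1) hab)
    · rintro ⟨q, hq⟩
      exact ⟨⟨q, mul_inv_eq_iff_eq_mul.2 hq⟩, rfl⟩
    · intro q
      have h3 : twFix p (1 : MulAut G) q.1.1 q.1.2 =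
          fixedPoset p ({q.1.1, q.1.2} : Set G) := by
        ext P
        have h4 : P.map (1 : MulAut G).toMonoidHom = P := Subgroup.map_id P
        constructor
        · rintro ⟨a, b, c, d⟩
          rw [h4] at c
          refine ⟨a, b, ?_⟩
          rintro x (rfl | rfl)
          · exact c
          · exact d
        · rintro ⟨a, b, c⟩
          refine ⟨a, b, ?_, c _ (Or.inr rfl)⟩
          rw [h4]
          exact c _ (Or.inl rfl)
      rw [h3]
  have h2 : numA (1 : MulAut G) = Nat.card (ConjClasses G) := by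
    rw [← Pool.Agent.N833.EK.card_irr G]
    exact Nat.card_congr (Equiv.subtypeEquivRight fun χ =>
      ⟨fun h => h.1, fun h => ⟨h, fun x => rfl⟩⟩)
  have h3 : numDzA p (1 : MulAut G) = numDefectZero p G := by
    refine Nat.card_congr (Equiv.subtypeEquivRight fun χ => ?_)
    exact ⟨fun h => ⟨h.1, h.2.1⟩, fun h => ⟨h.1, h.2, fun x => rfl⟩⟩
  unfold KRCA at h
  rw [h1, h2, h3] at h
  exact h

/-- **the main theorem, without blocks** -/
theorem main_krc (p : ℕ) [Fact p.Prime] : (∀ (G : Type) [Group G] [Finite G], KRC p G) ↔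
    ∀ (G : Type) [Group G] [Finite G] (α : MulAut G), KRCA p α :=
  ⟨fun h G _ _ α => krca_of p h G α, fun h G _ _ => krca_one p G (h G 1)⟩

end Pool.Agent.N20.EW
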