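import Pool.Agent.N20.EW.Stm4
import Pool.Agent.N20.EW.Asm
import Pool.Agent.N20.DI.Marks
import Pool.Agent.Y210.NV2.NQ
import Pool.Agent.Y624.NV.Trn

/-!
# The Knörr–Robinson conjecture and automorphisms: the relation for one subgroup
-/

set_option autoImplicit false
set_option linter.unusedSectionVars false
set_option linter.unusedVariables false

open scoped Classical BigOperators

noncomputable section

namespace Pool.Agent.N20.EW

open Pool.Agent.Y63.NV
open Pool.Agent.Y63.KR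
open Pool.Agent.Y63.AWC (IsIrreducibleCharacter pSubgroupSetoid)
open Pool.Agent.R674.Ce (chs wt Sp)
open Pool.Agent.R674.Tw (Fixes GCh NG NE NEbar ng_le)
open Pool.Agent.N20.DI (S_CH S_DEC S_CLIFF pf pf_class mem_up pr pr_surj pr_ker fw Kd df Om HasDef
  hasDef_iff rel_term gch_chs comap_rel comap_com fin_irc fin_Om sum_Om)

/-- the weight -/
def fa {F : Type} [Field F] (red : integralClosure ℤ ℂ →+* F) {Γ : Type} [Group Γ]
    (z : Γ → F) (c : F) (J : Subgroup Γ) : ℤ :=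
  (Nat.card J : ℤ) * Kn red (fun x : J => z x) c

/-- the groups `N_K(R)/R`, where `R` is a `p`-subgroup of `K` with `G ∩ R = 1`, have the property `P` -/
def LocK (p : ℕ) {Γ : Type} [Group Γ] (G K : Subgroup Γ) (P : (Q : Type) → [Group Q] → Prop) :
    Prop :=
  ∀ R : Subgroup Γ, R ≤ K → IsPGroup p R → G ⊓ R = ⊥ → ∀ (Q : Type) [Group Q] [Finite Q]
    (π : ↥(K ⊓ Subgroup.normalizer (R : Set Γ)) →* Q), Function.Surjective π →
    π.ker = R.subgroupOf (K ⊓ Subgroup.normalizer (R : Set Γ)) → P Q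

section one

variable {p : ℕ} [Fact p.Prime] {F : Type} [Field F] [IsAlgClosed F] [CharP F p]
  (red : integralClosure ℤ ℂ →+* F) {Γ : Type} [Group Γ] [Finite Γ] {G : Subgroup Γ} [G.Normal]
  {N R : Subgroup Γ} {Q : Type} [Group Q] [Finite Q]

/-- the weights of the chains above `R` -/
theorem fa_up (hLIN : S_LINA) (hRN : R ≤ N) (hGR : G ⊓ R = ⊥)
    (hcom : ∀ a ∈ N, ∀ b ∈ N, a * b * a⁻¹ * b⁻¹ ∈ G)
    (hn : N ≤ Subgroup.normalizer (R : Set Γ)) {m : ℕ} (hm : Nat.card R = p ^ m) (π : N →* Q)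
    (hπ : Function.Surjective π) (hk : π.ker = R.subgroupOf N) {z : Γ → F}
    (hz : ∀ g ∈ N, ∀ x, z (g * x * g⁻¹) = z x) (hz0 : ∀ x, x ∉ G → z x = 0) (c : F)
    (S : Subgroup Q) :
    fa red z c ((S.comap π).map N.subtype) =
      (p : ℤ) ^ m * (p : ℤ) ^ m *
        ((Nat.card S : ℤ) * Kn red (fun x : S => pf z π x) c) := by
  set J : Subgroup Γ := (S.comap π).map N.subtype with hJ
  have hJN : J ≤ N := by
    intro x hx
    exact ((mem_up π S x).1 hx).1
  have hRJ : R ≤ J := by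
    intro x hx
    refine (mem_up π S x).2 ⟨hRN hx, ?_⟩
    have : (⟨x, hRN hx⟩ : N) ∈ π.ker := by
      rw [hk]
      exact hx
    rw [MonoidHom.mem_ker.1 this]
    exact S.one_mem
  have hker : Nat.card (pr π S).ker = p ^ m := by
    rw [← hm]
    refine Nat.card_congr
      { toFun := fun x => ⟨x.1.1, (pr_ker π hk S x.1).1 x.2⟩
        invFun := fun x => ⟨⟨x.1, hRJ x.2⟩, (pr_ker π hk S ⟨x.1, hRJ x.2⟩).2 x.2⟩
        left_inv := fun x => rfl
        right_inv := fun x => rfl }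
  have hcard : Nat.card J = p ^ m * Nat.card S := by
    have h1 := Subgroup.card_mul_index (pr π S).ker
    rw [Subgroup.index_ker, hker, MonoidHom.range_eq_top.2 (pr_surj π hπ S),
      Subgroup.card_top] at h1
    exact h1.symm
  have h1 := hLIN p F red J S (pr π S) (pr_surj π hπ S) (by
    intro x hx
    rw [Subgroup.mem_center_iff]
    intro y
    have hxR : (x : Γ) ∈ R := (pr_ker π hk S x).1 hx
    have hyN : (y : Γ) ∈ N := hJN y.2
    have h2 : (y : Γ) * x * (y : Γ)⁻¹ * (x : Γ)⁻¹ ∈ G ⊓ R := by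
      refine Subgroup.mem_inf.2 ⟨hcom _ hyN _ (hJN x.2), R.mul_mem ?_ (R.inv_mem hxR)⟩
      exact (Subgroup.mem_normalizer_iff.1 (hn hyN) x).1 hxR
    rw [hGR, Subgroup.mem_bot] at h2
    apply Subtype.ext
    change (y : Γ) * x = x * y
    calc (y : Γ) * x = (y : Γ) * x * (y : Γ)⁻¹ * (x : Γ)⁻¹ * x * y := by group
      _ = x * y := by rw [h2, one_mul]) (G.subgroupOf J) (by
    rw [eq_bot_iff]
    intro x hx
    obtain ⟨hx1, hx2⟩ := Subgroup.mem_inf.1 hx
    have h3 : (x : Γ) ∈ G ⊓ R := Subgroup.mem_inf.2 ⟨hx1, (pr_ker π hk S x).1 hx2⟩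
    rw [hGR, Subgroup.mem_bot] at h3
    exact Subgroup.mem_bot.2 (Subtype.ext h3)) (fun a b => hcom _ (hJN a.2) _ (hJN b.2)) m
    Fact.out hker (fun x : J => z x) (fun g x => hz g (hJN g.2) x) (fun x hx => hz0 x hx) c
  have h2 : (fun y : S => ∑ᶠ x : J, @ite F (pr π S x = y) (Classical.propDecidable _) (z x) 0) =
      fun x : S => pf z π x := by
    funext y
    unfold pf
    let ι : J → N := fun x => ⟨x.1, hJN x.2⟩
    have hι : Function.Injective ι := fun a b h => Subtype.ext (congrArg (fun t : N => (t : Γ)) h)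
    have e1 : ∀ x : J, (@ite F (pr π S x = y) (Classical.propDecidable _) (z x) 0) =
        (fun t : N => if π t = (y : Q) then z t else 0) (ι x) := by
      intro x
      have e2 : pr π S x = y ↔ π (ι x) = (y : Q) := by
        constructor
        · intro h
          exact congrArg Subtype.val h
        · intro h
          exact Subtype.ext h
      change (@ite F (pr π S x = y) (Classical.propDecidable _) (z x) 0) =
        if π (ι x) = (y : Q) then z x else 0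
      by_cases h : pr π S x = y
      · rw [if_pos h, if_pos (e2.1 h)]
      · rw [if_neg h, if_neg (fun h' => h (e2.2 h'))]
    have e3 := finsum_mem_range (f := fun t : N => if π t = (y : Q) then z t else 0) hι
    refine (finsum_congr e1).trans (e3.symm.trans ?_)
    rw [finsum_mem_def]
    refine finsum_congr fun t => ?_
    by_cases ht : t ∈ Set.range ι
    · rw [Set.indicator_of_mem ht]
    · rw [Set.indicator_of_notMem ht, if_neg]
      intro h
      apply ht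
      refine ⟨⟨t.1, (mem_up π S t).2 ⟨t.2, ?_⟩⟩, rfl⟩
      change π t ∈ S
      rw [h]
      exact y.2
  rw [h2] at h1
  unfold fa
  rw [hcard, h1]
  push_cast
  ring

/-- the chains above `R` -/
theorem kr_R (hCH : S_CH) (hLIN : S_LINA) (hRp : IsPGroup p R) (hRN : R ≤ N)
    (hGR : G ⊓ R = ⊥) (hcom : ∀ a ∈ N, ∀ b ∈ N, a * b * a⁻¹ * b⁻¹ ∈ G)
    (hn : N ≤ Subgroup.normalizer (R : Set Γ)) {m : ℕ} (hm : Nat.card R = p ^ m) (π : N →* Q)
    (hπ : Function.Surjective π) (hk : π.ker = R.subgroupOf N) {z : Γ → F}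
    (hz : ∀ g ∈ N, ∀ x, z (g * x * g⁻¹) = z x) (hz0 : ∀ x, x ∉ G → z x = 0) (c : F)
    (hQ : KRz p red Q (pf z π) c) :
    chs {P : Subgroup Γ | IsPGroup p P ∧ R < P ∧ P ≤ N} (wt N (fa red z c)) =
      (p : ℤ) ^ m * (p : ℤ) ^ m *
        ((Nat.card Q : ℤ) * Nw p red (⊥ : Subgroup Q) (pf z π) c) := by
  rw [hCH p Γ Q N R hRN hRp π hπ hk]
  have h1 : ∀ σ : {σ : Set (Subgroup Q) // IsPChain p σ}, (-1 : ℤ) ^ σ.1.ncard *
      fa red z c (((chainStabilizer σ.1).comap π).map N.subtype) =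
      (p : ℤ) ^ m * (p : ℤ) ^ m * ((-1) ^ σ.1.ncard *
      ((Nat.card (chainStabilizer σ.1) : ℤ) *
        Kn red (fun x : chainStabilizer σ.1 => pf z π x) c)) := by
    intro σ
    rw [fa_up red hLIN hRN hGR hcom hn hm π hπ hk hz hz0 c]
    ring
  rw [finsum_congr h1, ← mul_finsum]
  unfold KRz at hQ
  rw [hQ]

theorem nw_R (hINF : S_INF) (π : N →* Q) (hπ : Function.Surjective π)
    (hk : π.ker = R.subgroupOf N) {z : Γ → F} (hz : ∀ g ∈ N, ∀ x, z (g * x * g⁻¹) = z x) (c : F) :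
    Nw p red (R.subgroupOf N) (fun x => z x) c = Nw p red (⊥ : Subgroup Q) (pf z π) c := by
  have h2 := Pool.Agent.Y210.NV3.nw_comap π hπ hINF p red (⊥ : Subgroup Q) (fun x : N => z x)
    (fun g x => hz g g.2 x) c
  have h3 : (⊥ : Subgroup Q).comap π = R.subgroupOf N := by
    rw [← hk]
    rfl
  rw [h3] at h2
  exact h2

/-- the chains above `R` for a subgroup `K` -/
theorem xk (hCH : S_CH) (hLIN : S_LINA) (hINF : S_INF) {K : Subgroup Γ}
    (hcom : ∀ a ∈ K, ∀ b ∈ K, a * b * a⁻¹ * b⁻¹ ∈ G) {z : Γ → F} {c : F}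
    (hKR : LocK p G K fun Q _ => ∀ zQ : Q → F, IsClassFun zQ → (z = 0 → zQ = 0) →
      KRz p red Q zQ c)
    (hz : ∀ g ∈ K, ∀ x, z (g * x * g⁻¹) = z x) (hz0 : ∀ x, x ∉ G → z x = 0)
    {R : Subgroup Γ} (hRK : R ≤ K) (hRp : IsPGroup p R) (hGR : G ⊓ R = ⊥) :
    chs {P : Subgroup Γ | IsPGroup p P ∧ R < P ∧ P ≤ K ⊓ Subgroup.normalizer (R : Set Γ)}
      (wt (K ⊓ Subgroup.normalizer (R : Set Γ)) (fa red z c)) =
    (Nat.card R : ℤ) * ((Nat.card ↥(K ⊓ Subgroup.normalizer (R : Set Γ)) : ℤ) *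
      Nw p red (R.subgroupOf (K ⊓ Subgroup.normalizer (R : Set Γ))) (fun x => z x) c) := by
  obtain ⟨m, hm⟩ := IsPGroup.iff_card.1 hRp
  have hRN : R ≤ K ⊓ Subgroup.normalizer (R : Set Γ) := le_inf hRK Subgroup.le_normalizer
  set N := K ⊓ Subgroup.normalizer (R : Set Γ) with hN
  have hnorm : (R.subgroupOf N).Normal := by
    constructor
    intro x hx g
    rw [Subgroup.mem_subgroupOf] at hx ⊢
    have h1 : (g : Γ) ∈ Subgroup.normalizer (R : Set Γ) := (Subgroup.mem_inf.1 g.2).2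
    exact (Subgroup.mem_normalizer_iff.1 h1 x).1 hx
  have hzN : ∀ g ∈ N, ∀ x, z (g * x * g⁻¹) = z x := fun g hg => hz g (Subgroup.mem_inf.1 hg).1
  have hQ : KRz p red (N ⧸ R.subgroupOf N) (pf z (QuotientGroup.mk' (R.subgroupOf N))) c := by
    refine hKR R hRK hRp hGR _ (QuotientGroup.mk' _) (QuotientGroup.mk'_surjective _)
      (QuotientGroup.ker_mk' _) _ (pf_class hzN _ (QuotientGroup.mk'_surjective _)) ?_
    intro h0
    funext y
    unfold pf
    rw [h0]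
    simp only [Pi.zero_apply, ite_self, finsum_zero]
  rw [kr_R red hCH hLIN hRp hRN hGR
    (fun a ha b hb => hcom a (Subgroup.mem_inf.1 ha).1 b (Subgroup.mem_inf.1 hb).1) inf_le_right hm
    (QuotientGroup.mk' (R.subgroupOf N)) (QuotientGroup.mk'_surjective _)
    (QuotientGroup.ker_mk' _) hzN hz0 c hQ,
    nw_R red hINF (QuotientGroup.mk' (R.subgroupOf N)) (QuotientGroup.mk'_surjective _)
    (QuotientGroup.ker_mk' _) hzN c]
  have h1 := Subgroup.card_eq_card_quotient_mul_card_subgroup (R.subgroupOf N)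
  have h2 : Nat.card (R.subgroupOf N) = p ^ m := by
    rw [← hm]
    exact Nat.card_congr (Subgroup.subgroupOfEquivOfLe hRN).toEquiv
  rw [h1, h2, hm]
  push_cast
  ring

/-- the alternating sum for `K` in terms of weights -/
theorem dec_sum (hCH : S_CH) (hLIN : S_LINA) (hINF : S_INF) (hDEC : S_DEC) {K : Subgroup Γ}
    (hGK : G ≤ K) (hcom : ∀ a ∈ K, ∀ b ∈ K, a * b * a⁻¹ * b⁻¹ ∈ G) {z : Γ → F} {c : F}
    (hKR : LocK p G K fun Q _ => ∀ zQ : Q → F, IsClassFun zQ → (z = 0 → zQ = 0) →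
      KRz p red Q zQ c)
    (hz : ∀ g ∈ K, ∀ x, z (g * x * g⁻¹) = z x) (hz0 : ∀ x, x ∉ G → z x = 0) :
    chs (Sp p G) (wt K (fa red z c)) =
      ∑ᶠ R : Subgroup Γ, if IsPGroup p R ∧ R ≤ K ∧ G ⊓ R = ⊥ then
        (Nat.card R : ℤ) * ((Nat.card ↥(K ⊓ Subgroup.normalizer (R : Set Γ)) : ℤ) *
          Nw p red (R.subgroupOf (K ⊓ Subgroup.normalizer (R : Set Γ))) (fun x => z x) c)
      else 0 := by
  have h := hDEC p Γ G K hGK hcom (fa red z c)
  have _i1 : Fintype (Subgroup Γ) := Fintype.ofFinite _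
  let A : Subgroup Γ → ℤ := fun R => if IsPGroup p R ∧ R ≤ K ∧ G ⊓ R = ⊥ then
        (Nat.card R : ℤ) * ((Nat.card ↥(K ⊓ Subgroup.normalizer (R : Set Γ)) : ℤ) *
          Nw p red (R.subgroupOf (K ⊓ Subgroup.normalizer (R : Set Γ))) (fun x => z x) c)
      else 0
  have h1 : chs (Sp p K) (wt K (fa red z c)) = A ⊥ := by
    have h2 := xk red hCH hLIN hINF hcom hKR hz hz0 (R := ⊥) bot_le IsPGroup.of_bot
      (inf_bot_eq _)
    have h3 : K ⊓ Subgroup.normalizer ((⊥ : Subgroup Γ) : Set Γ) = K := by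
      rw [Subgroup.normalizer_eq_top, inf_top_eq]
    have h4 : {P : Subgroup Γ | IsPGroup p P ∧ ⊥ < P ∧ P ≤ K} = Sp p K := by
      ext P
      constructor
      · rintro ⟨a, b, c⟩
        exact ⟨a, b.ne', c⟩
      · rintro ⟨a, b, c⟩
        exact ⟨a, bot_lt_iff_ne_bot.2 b, c⟩
    have h5 : A ⊥ = (Nat.card (⊥ : Subgroup Γ) : ℤ) *
        ((Nat.card ↥(K ⊓ Subgroup.normalizer ((⊥ : Subgroup Γ) : Set Γ)) : ℤ) *
        Nw p red ((⊥ : Subgroup Γ).subgroupOf
          (K ⊓ Subgroup.normalizer ((⊥ : Subgroup Γ) : Set Γ))) (fun x => z x) c) :=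
      if_pos ⟨IsPGroup.of_bot, bot_le, inf_bot_eq _⟩
    rw [h5, ← h2, h3, h4]
  have h2 : (∑ᶠ R : Subgroup Γ, if IsPGroup p R ∧ R ≠ ⊥ ∧ R ≤ K ∧ G ⊓ R = ⊥ then
        chs {P : Subgroup Γ | IsPGroup p P ∧ R < P ∧ P ≤ K ⊓ Subgroup.normalizer (R : Set Γ)}
          (wt (K ⊓ Subgroup.normalizer (R : Set Γ)) (fa red z c)) else 0) =
      ∑ R : Subgroup Γ, if R ≠ ⊥ then A R else 0 := by
    rw [finsum_eq_sum_of_fintype]
    refine Finset.sum_congr rfl fun R _ => ?_
    by_cases h3 : IsPGroup p R ∧ R ≠ ⊥ ∧ R ≤ K ∧ G ⊓ R = ⊥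
    · have h6 : A R = (Nat.card R : ℤ) *
          ((Nat.card ↥(K ⊓ Subgroup.normalizer (R : Set Γ)) : ℤ) *
          Nw p red (R.subgroupOf (K ⊓ Subgroup.normalizer (R : Set Γ))) (fun x => z x) c) :=
        if_pos ⟨h3.1, h3.2.2.1, h3.2.2.2⟩
      rw [if_pos h3, if_pos h3.2.1, h6]
      exact xk red hCH hLIN hINF hcom hKR hz hz0 h3.2.2.1 h3.1 h3.2.2.2
    · rw [if_neg h3]
      by_cases h4 : R ≠ ⊥
      · rw [if_pos h4]
        have h6 : A R = 0 := if_neg fun h => h3 ⟨h.1, h4, h.2.1, h.2.2⟩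
        rw [h6]
      · rw [if_neg h4]
  change _ = ∑ᶠ R : Subgroup Γ, A R
  have h3 : ∑ R : Subgroup Γ, A R = A ⊥ + ∑ R : Subgroup Γ, if R ≠ ⊥ then A R else 0 := by
    have h4 : ∑ R : Subgroup Γ, (if R = ⊥ then A R else 0) = A ⊥ := by
      rw [Finset.sum_ite_eq' Finset.univ (⊥ : Subgroup Γ) A, if_pos (Finset.mem_univ _)]
    rw [← h4, ← Finset.sum_add_distrib]
    refine Finset.sum_congr rfl fun R _ => ?_
    by_cases h5 : R = ⊥
    · rw [if_pos h5, if_neg (fun h => h h5), add_zero]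
    · rw [if_neg h5, if_pos h5, zero_add]
  rw [finsum_eq_sum_of_fintype, h3]
  rw [h1, h2] at h
  rw [h]
  ring

end one

end Pool.Agent.N20.EW
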