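import Pool.Agent.N20.EW.Krr

/-!
# The Knörr–Robinson conjecture and automorphisms: assembly
-/

set_option autoImplicit false
set_option linter.unusedSectionVars false
set_option linter.unusedVariables false

open scoped Classical BigOperators

noncomputable section

namespace Pool.Agent.N20.EW

open Pool.Agent.Y63.NV
open Pool.Agent.Y63.KR
open Pool.Agent.Y63.AWC (IsIrreducibleCharacter pSubgroupSetoid)
open Pool.Agent.R674.Ce (chs wt Sp)
open Pool.Agent.R674.Tw (Fixes GCh NG NE NEbar ng_le)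
open Pool.Agent.N20.DI (S_CH S_DEC S_CLIFF pf pf_class mem_up pr pr_surj pr_ker fw Kd df Om HasDef
  hasDef_iff rel_term gch_chs comap_rel comap_com fin_irc fin_Om sum_Om)

section trn

variable {Γ : Type} [Group Γ]

/-- the normalizers correspond -/
def nEq (H Q : Subgroup Γ) (hQ : Q ≤ H) :
    ↥(H ⊓ Subgroup.normalizer (Q : Set Γ)) ≃*
      ↥(Subgroup.normalizer ((Q.subgroupOf H : Subgroup H) : Set H)) where
  toFun x := ⟨⟨x.1, (Subgroup.mem_inf.1 x.2).1⟩,
    Pool.Agent.Y624.NV.norm_fwd _ (Subgroup.mem_inf.1 x.2).2⟩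
  invFun x := ⟨x.1.1, Subgroup.mem_inf.2 ⟨x.1.2, Pool.Agent.Y624.NV.norm_bwd hQ x.2⟩⟩
  left_inv _ := rfl
  right_inv _ := rfl
  map_mul' _ _ := rfl

variable {p : ℕ} [Fact p.Prime] {F : Type} [Field F] (red : integralClosure ℤ ℂ →+* F)
  [Finite Γ] {G : Subgroup Γ} [G.Normal]

/-- weights of the subgroups of `K` -/
theorem trnK {K : Subgroup Γ} (hGK : G ≤ K) {z : Γ → F}
    (hz : ∀ g ∈ K, ∀ x, z (g * x * g⁻¹) = z x) (c : F) :
    (∑ᶠ R : Subgroup Γ, if IsPGroup p R ∧ R ≤ K ∧ G ⊓ R = ⊥ then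
        (Nat.card R : ℤ) * ((Nat.card ↥(K ⊓ Subgroup.normalizer (R : Set Γ)) : ℤ) *
          Nw p red (R.subgroupOf (K ⊓ Subgroup.normalizer (R : Set Γ))) (fun x => z x) c)
      else 0) =
    ((∑ᶠ Q : Subgroup K, if IsPGroup p Q ∧ Q ⊓ (Subgroup.inclusion hGK).range = ⊥ then
        Nat.card Q * (Nat.card (Subgroup.normalizer (Q : Set K)) *
          Nw p red (Q.subgroupOf (Subgroup.normalizer (Q : Set K)))
            (fun x => z ((x : K) : Γ)) c) else 0 : ℕ) : ℤ) := by
  have _i1 : Fintype (Subgroup K) := Fintype.ofFinite _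
  have hmem : ∀ x : K, x ∈ (Subgroup.inclusion hGK).range ↔ (x : Γ) ∈ G := by
    intro x
    constructor
    · rintro ⟨g, rfl⟩
      exact g.2
    · intro hx
      exact ⟨⟨x, hx⟩, rfl⟩
  have key : ∀ Q : Subgroup Γ, Q ≤ K →
      (if IsPGroup p Q ∧ Q ≤ K ∧ G ⊓ Q = ⊥ then
        (Nat.card Q : ℤ) * ((Nat.card ↥(K ⊓ Subgroup.normalizer (Q : Set Γ)) : ℤ) *
          Nw p red (Q.subgroupOf (K ⊓ Subgroup.normalizer (Q : Set Γ))) (fun x => z x) c)
        else 0) =
      ((if IsPGroup p (Q.subgroupOf K) ∧ Q.subgroupOf K ⊓ (Subgroup.inclusion hGK).range = ⊥ then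
        Nat.card (Q.subgroupOf K) *
          (Nat.card (Subgroup.normalizer ((Q.subgroupOf K : Subgroup K) : Set K)) *
          Nw p red ((Q.subgroupOf K).subgroupOf
            (Subgroup.normalizer ((Q.subgroupOf K : Subgroup K) : Set K)))
            (fun x => z ((x : K) : Γ)) c) else 0 : ℕ) : ℤ) := by
    intro Q hQ
    have h0 : G ⊓ Q = ⊥ ↔ Q.subgroupOf K ⊓ (Subgroup.inclusion hGK).range = ⊥ := by
      rw [eq_bot_iff, eq_bot_iff]
      constructor
      · intro h x hx
        obtain ⟨h1, h2⟩ := Subgroup.mem_inf.1 hx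
        exact Subgroup.mem_bot.2 (Subtype.ext (Subgroup.mem_bot.1
          (h (Subgroup.mem_inf.2 ⟨(hmem x).1 h2, h1⟩))))
      · intro h x hx
        obtain ⟨h1, h2⟩ := Subgroup.mem_inf.1 hx
        have h3 := h (Subgroup.mem_inf.2 ⟨(Subgroup.mem_subgroupOf.2 h2 :
          (⟨x, hQ h2⟩ : K) ∈ Q.subgroupOf K), (hmem _).2 h1⟩)
        exact Subgroup.mem_bot.2 (congrArg Subtype.val (Subgroup.mem_bot.1 h3))
    have hiff : (IsPGroup p Q ∧ Q ≤ K ∧ G ⊓ Q = ⊥) ↔
        (IsPGroup p (Q.subgroupOf K) ∧ Q.subgroupOf K ⊓ (Subgroup.inclusion hGK).range = ⊥) := by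
      rw [Pool.Agent.Y624.NV.pg_iff p K Q hQ, h0]
      exact ⟨fun h => ⟨h.1, h.2.2⟩, fun h => ⟨h.1, hQ, h.2⟩⟩
    have h1 : Nat.card ↥(K ⊓ Subgroup.normalizer (Q : Set Γ)) =
        Nat.card ↥(Subgroup.normalizer ((Q.subgroupOf K : Subgroup K) : Set K)) :=
      Nat.card_congr (nEq K Q hQ).toEquiv
    have h2 : Nw p red (Q.subgroupOf (K ⊓ Subgroup.normalizer (Q : Set Γ))) (fun x => z x) c =
        Nw p red ((Q.subgroupOf K).subgroupOf
            (Subgroup.normalizer ((Q.subgroupOf K : Subgroup K) : Set K)))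
            (fun x => z ((x : K) : Γ)) c := by
      refine Pool.Agent.Y624.NV.nw_congr p red (nEq K Q hQ)
        (Q := Q.subgroupOf (K ⊓ Subgroup.normalizer (Q : Set Γ)))
        (Q' := (Q.subgroupOf K).subgroupOf
            (Subgroup.normalizer ((Q.subgroupOf K : Subgroup K) : Set K)))
        (f := fun x => z x.1) (f' := fun x => z (x.1 : K).1)
        (fun x => Iff.rfl) (fun x => rfl) ?_ c
      intro g x
      exact hz g.1.1 g.1.2 x.1.1
    have h3 : Nat.card (Q.subgroupOf K) = Nat.card Q :=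
      Nat.card_congr (Subgroup.subgroupOfEquivOfLe hQ).toEquiv
    by_cases hc : IsPGroup p Q ∧ Q ≤ K ∧ G ⊓ Q = ⊥
    · rw [if_pos hc, if_pos (hiff.1 hc), h1, h2, h3]
      push_cast
      ring
    · rw [if_neg hc, if_neg (fun h => hc (hiff.2 h)), Nat.cast_zero]
  have hinj : Function.Injective (fun Q' : Subgroup K => Q'.map K.subtype) :=
    Subgroup.map_injective K.subtype_injective
  have hrange : ∀ Q : Subgroup Γ, Q ≤ K → (Q.subgroupOf K).map K.subtype = Q := fun Q hQ =>
    Subgroup.map_subgroupOf_eq_of_le hQ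
  have hcomap : ∀ Q' : Subgroup K, (Q'.map K.subtype).subgroupOf K = Q' := fun Q' =>
    Subgroup.comap_map_eq_self_of_injective K.subtype_injective Q'
  obtain ⟨A, hA⟩ : ∃ A : Subgroup Γ → ℤ, A = fun Q : Subgroup Γ => if IsPGroup p Q ∧ Q ≤ K ∧ G ⊓ Q = ⊥ then
        (Nat.card Q : ℤ) * ((Nat.card ↥(K ⊓ Subgroup.normalizer (Q : Set Γ)) : ℤ) *
          Nw p red (Q.subgroupOf (K ⊓ Subgroup.normalizer (Q : Set Γ))) (fun x => z x) c)
        else 0 := ⟨_, rfl⟩
  have e0 : (∑ᶠ R : Subgroup Γ, if IsPGroup p R ∧ R ≤ K ∧ G ⊓ R = ⊥ then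
        (Nat.card R : ℤ) * ((Nat.card ↥(K ⊓ Subgroup.normalizer (R : Set Γ)) : ℤ) *
          Nw p red (R.subgroupOf (K ⊓ Subgroup.normalizer (R : Set Γ))) (fun x => z x) c)
      else 0) = ∑ᶠ Q, A Q := by rw [hA]
  have e1 : ∑ᶠ Q, A Q = ∑ᶠ Q ∈ Set.range (fun Q' : Subgroup K => Q'.map K.subtype), A Q := by
    refine finsum_congr fun Q => ?_
    by_cases hQ : Q ≤ K
    · have hm : Q ∈ Set.range (fun Q' : Subgroup K => Q'.map K.subtype) := ⟨_, hrange Q hQ⟩
      rw [finsum_eq_if, if_pos hm]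
    · have h0 : A Q = 0 := by
        rw [hA]
        exact if_neg fun h => hQ h.2.1
      rw [h0, finsum_eq_if, ite_self]
  rw [e0, e1, finsum_mem_range hinj, finsum_eq_sum_of_fintype, finsum_eq_sum_of_fintype,
    Nat.cast_sum]
  refine Finset.sum_congr rfl fun Q' _ => ?_
  have h3 : Q'.map K.subtype ≤ K := Subgroup.map_subtype_le Q'
  have h4 := key _ h3
  rw [hcomap] at h4
  rw [hA]
  exact h4

end trn

section dz

variable {p : ℕ} [Fact p.Prime] {F : Type} [Field F] [IsAlgClosed F] [CharP F p]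
  (red : integralClosure ℤ ℂ →+* F)

theorem fin_dz {G : Type} [Group G] [Finite G] (z : G → F) (c : F) :
    Finite {ψ : G → ℂ // IsWt p (⊥ : Subgroup G) ψ ∧ centralValue red ψ z = c} := by
  have hX := Pool.Agent.Y171.NV.irr_fin G
  exact Finite.of_injective (fun χ : {ψ : G → ℂ // IsWt p (⊥ : Subgroup G) ψ ∧
      centralValue red ψ z = c} =>
    (⟨χ.1, χ.2.1.irr⟩ : {χ : G → ℂ // IsIrreducibleCharacter χ}))
    (fun a b h => Subtype.ext (congrArg (fun t => t.1) h))

theorem pc_mul (p n : ℕ) : p ^ n.factorization p * pc p n = n ^ 2 := by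
  unfold pc
  have h := Nat.ordProj_mul_ordCompl_eq_self n p
  calc p ^ n.factorization p * (n * (n / p ^ n.factorization p)) =
      n * (p ^ n.factorization p * (n / p ^ n.factorization p)) := by ring
    _ = n * n := by rw [h]
    _ = n ^ 2 := by ring

/-- all the weights with `Q ∩ G = 1` -/
theorem dz_sum (hDZR : S_DZR) {G K : Type} [Group G] [Group K] [Finite G] [Finite K]
    (i : G →* K) (z : K → F) (hi : CycExt i z) (c : F) :
    (∑ᶠ Q : Subgroup K, if IsPGroup p Q ∧ Q ⊓ i.range = ⊥ then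
      Nat.card Q * (Nat.card (Subgroup.normalizer (Q : Set K)) *
        Nw p red (Q.subgroupOf (Subgroup.normalizer (Q : Set K))) (fun x => z x) c) else 0) =
    ∑ᶠ ψ : {ψ : G → ℂ // IsWt p (⊥ : Subgroup G) ψ ∧ centralValue red ψ (fun x => z (i x)) = c},
      Nat.card G * tt i ψ.1 ^ 2 := by
  have hp : p.Prime := Fact.out
  have _i1 : Fintype (Subgroup K) := Fintype.ofFinite _
  have _i2 : Finite {ψ : G → ℂ // IsWt p (⊥ : Subgroup G) ψ ∧
    centralValue red ψ (fun x => z (i x)) = c} := fin_dz red _ c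
  have _i3 : Fintype {ψ : G → ℂ // IsWt p (⊥ : Subgroup G) ψ ∧
    centralValue red ψ (fun x => z (i x)) = c} := Fintype.ofFinite _
  set M := Nat.card K + 1 with hM
  have hlog : ∀ m : ℕ, ∀ n : ℕ, p ^ m = n → n ≤ Nat.card K → m < M := by
    intro m n h1 h2
    have h3 : m < p ^ m := Nat.lt_pow_self hp.one_lt
    omega
  -- the left side
  have hL : (∑ᶠ Q : Subgroup K, if IsPGroup p Q ∧ Q ⊓ i.range = ⊥ then
      Nat.card Q * (Nat.card (Subgroup.normalizer (Q : Set K)) *
        Nw p red (Q.subgroupOf (Subgroup.normalizer (Q : Set K))) (fun x => z x) c) else 0) =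
      ∑ k ∈ Finset.range M, p ^ k *
        (∑ᶠ Q : Subgroup K, if IsPGroup p Q ∧ Q ⊓ i.range = ⊥ ∧ Nat.card Q = p ^ k then
          Nat.card (Subgroup.normalizer (Q : Set K)) *
            Nw p red (Q.subgroupOf (Subgroup.normalizer (Q : Set K))) (fun x => z x) c
              else 0) := by
    have h1 : ∀ k ∈ Finset.range M, p ^ k *
        (∑ᶠ Q : Subgroup K, if IsPGroup p Q ∧ Q ⊓ i.range = ⊥ ∧ Nat.card Q = p ^ k then
          Nat.card (Subgroup.normalizer (Q : Set K)) *
            Nw p red (Q.subgroupOf (Subgroup.normalizer (Q : Set K))) (fun x => z x) c else 0) =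
        ∑ Q : Subgroup K, p ^ k *
          (if IsPGroup p Q ∧ Q ⊓ i.range = ⊥ ∧ Nat.card Q = p ^ k then
          Nat.card (Subgroup.normalizer (Q : Set K)) *
            Nw p red (Q.subgroupOf (Subgroup.normalizer (Q : Set K))) (fun x => z x) c
              else 0) := by
      intro k _
      rw [finsum_eq_sum_of_fintype, Finset.mul_sum]
    rw [Finset.sum_congr rfl h1, Finset.sum_comm, finsum_eq_sum_of_fintype]
    refine Finset.sum_congr rfl fun Q _ => ?_
    by_cases hQ : IsPGroup p Q ∧ Q ⊓ i.range = ⊥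
    · obtain ⟨m, hm⟩ := IsPGroup.iff_card.1 hQ.1
      rw [if_pos hQ, Finset.sum_eq_single m]
      · rw [if_pos ⟨hQ.1, hQ.2, hm⟩, hm]
      · intro k _ hk
        rw [if_neg, mul_zero]
        rintro ⟨-, -, h⟩
        exact hk (Nat.pow_right_injective hp.two_le (h.symm.trans hm))
      · intro h
        exfalso
        apply h
        rw [Finset.mem_range]
        exact hlog m _ hm.symm (Subgroup.card_le_card_group Q)
    · rw [if_neg hQ]
      symm
      refine Finset.sum_eq_zero fun k _ => ?_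
      rw [if_neg, mul_zero]
      rintro ⟨h1, h2, -⟩
      exact hQ ⟨h1, h2⟩
  rw [hL]
  have h2 : ∀ k ∈ Finset.range M, p ^ k *
        (∑ᶠ Q : Subgroup K, if IsPGroup p Q ∧ Q ⊓ i.range = ⊥ ∧ Nat.card Q = p ^ k then
          Nat.card (Subgroup.normalizer (Q : Set K)) *
            Nw p red (Q.subgroupOf (Subgroup.normalizer (Q : Set K))) (fun x => z x) c else 0) =
      ∑ ψ : {ψ : G → ℂ // IsWt p (⊥ : Subgroup G) ψ ∧
        centralValue red ψ (fun x => z (i x)) = c},
        p ^ k * (if (tt i ψ.1).factorization p = k then Nat.card G * pc p (tt i ψ.1) else 0) := by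
    intro k _
    rw [hDZR p F red G K i z hi c k, finsum_eq_sum_of_fintype, Finset.mul_sum]
  rw [Finset.sum_congr rfl h2, Finset.sum_comm, finsum_eq_sum_of_fintype]
  refine Finset.sum_congr rfl fun ψ _ => ?_
  rw [Finset.sum_eq_single ((tt i ψ.1).factorization p)]
  · rw [if_pos rfl, ← pc_mul p (tt i ψ.1)]
    ring
  · intro k _ hk
    rw [if_neg (fun h => hk h.symm), mul_zero]
  · intro h
    exfalso
    apply h
    rw [Finset.mem_range]
    have h3 : tt i ψ.1 ≤ Nat.card K := by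
      unfold tt
      refine (Nat.div_le_self _ _).trans ?_
      unfold stc
      exact Nat.card_le_card_of_injective (fun x => x.1) Subtype.val_injective
    by_cases h0 : tt i ψ.1 = 0
    · rw [h0, Nat.factorization_zero, Finsupp.zero_apply]
      omega
    · have h4 := Nat.factorization_lt p h0
      omega

end dz

end Pool.Agent.N20.EW
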