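import Pool.Agent.N20.EW.Krr2

/-!
# The Knörr–Robinson conjecture and automorphisms: the equality for a cyclic group `E/G`
-/

set_option autoImplicit false
set_option linter.unusedSectionVars false
set_option linter.unusedVariables false

open scoped Classical BigOperators

noncomputable section

namespace Pool.Agent.N20.EW

open Pool.Agent.Y63.NV
open Pool.Agent.Y63.KR
open Pool.Agent.Y63.AWC (IsIrreducibleCharacter pSubgroupSetoid)
open Pool.Agent.R674.Ce (chs wt Sp)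
open Pool.Agent.R674.Tw (Fixes GCh NG NE NEbar ng_le)
open Pool.Agent.N20.DI (S_CH S_DEC S_CLIFF pf pf_class mem_up pr pr_surj pr_ker fw Kd df Om HasDef
  hasDef_iff rel_term gch_chs comap_rel comap_com fin_irc fin_Om sum_Om dg_le)

section

variable {p : ℕ} [Fact p.Prime] {F : Type} [Field F] (red : integralClosure ℤ ℂ →+* F)

/-- sums over the defects -/
theorem kn_sum {J : Type} [Group J] [Finite J] (z : J → F) (c : F) {M : ℕ}
    (hM : (Nat.card J).factorization p < M) :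
    Kn red z c = ∑ D ∈ Finset.range M, Kd p red D z c := by
  have hX := Pool.Agent.Y171.NV.irr_fin J
  have hfin : Finite {χ : J → ℂ // IsIrreducibleCharacter χ ∧ centralValue red χ z = c} :=
    Finite.of_injective (fun χ : {χ : J → ℂ // IsIrreducibleCharacter χ ∧
      centralValue red χ z = c} => (⟨χ.1, χ.2.1⟩ : {χ : J → ℂ // IsIrreducibleCharacter χ}))
      (fun a b h => Subtype.ext (congrArg (fun t => t.1) h))
  have _i : Fintype {χ : J → ℂ // IsIrreducibleCharacter χ ∧ centralValue red χ z = c} :=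
    Fintype.ofFinite _
  unfold Kn
  rw [Nat.card_eq_fintype_card, ← Finset.card_univ,
    Finset.card_eq_sum_card_fiberwise (f := fun χ : {χ : J → ℂ // IsIrreducibleCharacter χ ∧
      centralValue red χ z = c} => df p χ.1) (t := Finset.range M)]
  · refine Finset.sum_congr rfl fun D _ => ?_
    unfold Kd
    rw [← Fintype.card_subtype, ← Nat.card_eq_fintype_card]
    exact Nat.card_congr
      { toFun := fun χ => ⟨χ.1.1, χ.1.2.1, (hasDef_iff χ.1.2.1).2 χ.2, χ.1.2.2⟩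
        invFun := fun χ => ⟨⟨χ.1, χ.2.1, χ.2.2.2⟩, (hasDef_iff χ.2.1).1 χ.2.2.1⟩
        left_inv := fun χ => rfl
        right_inv := fun χ => rfl }
  · intro χ _
    rw [Finset.mem_coe, Finset.mem_range]
    have h : df p χ.1 ≤ (Nat.card J).factorization p := by
      unfold df
      exact Nat.sub_le _ _
    exact lt_of_le_of_lt h hM

end

section rel

variable {Γ : Type} [Group Γ] [Finite Γ] {G : Subgroup Γ} [G.Normal]

/-- the stabiliser of a function on `G` -/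
def stG (G : Subgroup Γ) [G.Normal] (ψ : G → ℂ) : Subgroup Γ where
  carrier := {e | Fixes e ψ}
  one_mem' := fun n n' h => by
    have : n' = n := Subtype.ext (by rw [h]; group)
    rw [this]
  mul_mem' := fun {a b} ha hb n n' h => by
    rw [← hb n ⟨b * n * b⁻¹, Subgroup.Normal.conj_mem inferInstance _ n.2 b⟩ rfl]
    refine ha _ _ ?_
    rw [h]
    group
  inv_mem' := fun {a} ha n n' h => (ha n' n (by rw [h]; group)).symm

theorem tt_stG (U : Subgroup (Γ ⧸ G)) {ψ : G → ℂ} (hψ : ∀ g x : G, ψ (g * x * g⁻¹) = ψ x) :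
    tt (Subgroup.inclusion (comap_rel U).1) ψ =
      Nat.card ↥((stG G ψ).map (QuotientGroup.mk' G) ⊓ U) := by
  have h1 : stc (Subgroup.inclusion (comap_rel U).1) ψ =
      Nat.card ↥(stG G ψ ⊓ U.comap (QuotientGroup.mk' G)) := by
    unfold stc
    refine Nat.card_congr
      { toFun := fun k => ⟨k.1.1, Subgroup.mem_inf.2 ⟨fun x y h => k.2 x y (Subtype.ext h),
          k.1.2⟩⟩
        invFun := fun k => ⟨⟨k.1, (Subgroup.mem_inf.1 k.2).2⟩, fun x y h =>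
          (Subgroup.mem_inf.1 k.2).1 x y (congrArg Subtype.val h)⟩
        left_inv := fun k => rfl
        right_inv := fun k => rfl }
  have h2 : stG G ψ ⊓ G = G := by
    refine inf_eq_right.2 ?_
    intro g hg x y h
    have h4 : y = (⟨g, hg⟩ : G) * x * (⟨g, hg⟩ : G)⁻¹ := Subtype.ext h
    rw [h4, hψ]
  unfold tt
  rw [h1, card_img, h2, Nat.mul_div_cancel_left _ Nat.card_pos]

variable {p : ℕ} [Fact p.Prime] {F : Type} [Field F] [IsAlgClosed F] [CharP F p]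
  (red : integralClosure ℤ ℂ →+* F)

/-- one chain, all defects -/
theorem rel_all (hCL : S_CLIFF) (U : Subgroup (Γ ⧸ G)) (hU : IsCyclic U) (σ : Set (Subgroup Γ))
    {z : Γ → F} (hz : ∀ g ∈ U.comap (QuotientGroup.mk' G), ∀ x, z (g * x * g⁻¹) = z x)
    (hz0 : ∀ x, x ∉ G → z x = 0) (c : F) :
    fa red z c (U.comap (QuotientGroup.mk' G) ⊓ chainStabilizer σ) =
      ∑ᶠ ψ : {ψ : NG G σ → ℂ // IsIrreducibleCharacter ψ ∧
        centralValue red ψ (fun n : NG G σ => z n) = c},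
          (Nat.card (NG G σ) : ℤ) * (Nat.card ↥(NEbar G σ ψ.1 ⊓ U) : ℤ) ^ 2 := by
  have _ip : Fact (Nat.Prime 2) := ⟨Nat.prime_two⟩
  have hf := fin_irc (G := G) red σ z c
  have _i2 : Fintype {ψ : NG G σ → ℂ // IsIrreducibleCharacter ψ ∧
    centralValue red ψ (fun n : NG G σ => z n) = c} := Fintype.ofFinite _
  obtain ⟨M, hM1, hM2⟩ : ∃ M : ℕ,
      (Nat.card ↥(U.comap (QuotientGroup.mk' G) ⊓ chainStabilizer σ)).factorization 2 < M ∧
      ∀ ψ : {ψ : NG G σ → ℂ // IsIrreducibleCharacter ψ ∧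
        centralValue red ψ (fun n : NG G σ => z n) = c},
        df 2 ψ.1 + (Nat.card ↥(NEbar G σ ψ.1 ⊓ U)).factorization 2 < M := by
    refine ⟨(Nat.card ↥(U.comap (QuotientGroup.mk' G) ⊓ chainStabilizer σ)).factorization 2 + 1 +
      ∑ ψ : {ψ : NG G σ → ℂ // IsIrreducibleCharacter ψ ∧
        centralValue red ψ (fun n : NG G σ => z n) = c},
        (df 2 ψ.1 + (Nat.card ↥(NEbar G σ ψ.1 ⊓ U)).factorization 2), by omega, fun ψ => ?_⟩
    have h := Finset.single_le_sum (f := fun ψ : {ψ : NG G σ → ℂ // IsIrreducibleCharacter ψ ∧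
        centralValue red ψ (fun n : NG G σ => z n) = c} =>
        df 2 ψ.1 + (Nat.card ↥(NEbar G σ ψ.1 ⊓ U)).factorization 2)
      (fun _ _ => Nat.zero_le _) (Finset.mem_univ ψ)
    have h' : df 2 ψ.1 + (Nat.card ↥(NEbar G σ ψ.1 ⊓ U)).factorization 2 ≤
      ∑ ψ : {ψ : NG G σ → ℂ // IsIrreducibleCharacter ψ ∧
        centralValue red ψ (fun n : NG G σ => z n) = c},
        (df 2 ψ.1 + (Nat.card ↥(NEbar G σ ψ.1 ⊓ U)).factorization 2) := h
    omega
  unfold fa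
  rw [kn_sum (p := 2) red _ c hM1, Nat.cast_sum, Finset.mul_sum]
  have h1 : ∀ D ∈ Finset.range M,
      (Nat.card ↥(U.comap (QuotientGroup.mk' G) ⊓ chainStabilizer σ) : ℤ) *
        (Kd 2 red D (fun x : ↥(U.comap (QuotientGroup.mk' G) ⊓ chainStabilizer σ) => z x) c : ℤ) =
      ∑ ψ : {ψ : NG G σ → ℂ // IsIrreducibleCharacter ψ ∧
        centralValue red ψ (fun n : NG G σ => z n) = c},
        (if df 2 ψ.1 + (Nat.card ↥(NEbar G σ ψ.1 ⊓ U)).factorization 2 = D then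
          (Nat.card (NG G σ) : ℤ) * (Nat.card ↥(NEbar G σ ψ.1 ⊓ U) : ℤ) ^ 2 else 0) := by
    intro D _
    have h2 := rel_term (p := 2) red hCL U hU σ hz hz0 c D
    rw [finsum_eq_sum_of_fintype] at h2
    exact h2
  rw [Finset.sum_congr rfl h1, Finset.sum_comm, finsum_eq_sum_of_fintype]
  refine Finset.sum_congr rfl fun ψ _ => ?_
  rw [Finset.sum_ite_eq, if_pos (Finset.mem_range.2 (hM2 ψ))]

/-- **the relation for one subgroup** -/
theorem relK (hCL : S_CLIFF) (hCH : S_CH) (hLIN : S_LINA) (hINF : S_INF) (hDEC : S_DEC)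
    (hDZR : S_DZR) (U : Subgroup (Γ ⧸ G)) (hU : IsCyclic U) {z : Γ → F} (hz : IsClassFun z)
    (hz0 : ∀ x, x ∉ G → z x = 0) (c : F)
    (hKR : LocK p G (U.comap (QuotientGroup.mk' G)) fun Q _ => ∀ zQ : Q → F, IsClassFun zQ →
      (z = 0 → zQ = 0) → KRz p red Q zQ c) :
    ∑ᶠ ω : Om p red G z c, ((-1) ^ ω.1.1.ncard * (Nat.card (NG G ω.1.1) : ℤ)) *
        (Nat.card ↥(NEbar G ω.1.1 ω.2.1 ⊓ U) : ℤ) ^ 2 =
      ∑ᶠ ψ : {ψ : G → ℂ // IsWt p (⊥ : Subgroup G) ψ ∧ centralValue red ψ (fun x => z x) = c},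
        (Nat.card G : ℤ) * (Nat.card ↥((stG G ψ.1).map (QuotientGroup.mk' G) ⊓ U) : ℤ) ^ 2 := by
  obtain ⟨hGK, hrel⟩ := comap_rel U
  set K := U.comap (QuotientGroup.mk' G) with hK
  have hzK : ∀ g ∈ K, ∀ x, z (g * x * g⁻¹) = z x := fun g _ x => hz g x
  have h1 := dec_sum (p := p) red hCH hLIN hINF hDEC hGK
    (fun a ha b hb => comap_com hU a ha b hb) hKR hzK hz0
  rw [trnK red hGK hzK c] at h1
  have hmem : ∀ x : K, x ∈ (Subgroup.inclusion hGK).range ↔ (x : Γ) ∈ G := by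
    intro x
    constructor
    · rintro ⟨g, rfl⟩
      exact g.2
    · intro hx
      exact ⟨⟨x, hx⟩, rfl⟩
  have hext : CycExt (Subgroup.inclusion hGK) (fun x : K => z x) := by
    refine ⟨Subgroup.inclusion_injective hGK, ⟨fun x hx k => ?_⟩, ?_, fun g x => hz g x,
      fun x hx => hz0 x fun h => hx ((hmem x).2 h)⟩
    · rw [hmem] at hx ⊢
      exact Subgroup.Normal.conj_mem inferInstance _ hx (k : Γ)
    · obtain ⟨⟨u, hu⟩, hgen⟩ := hU.exists_generator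
      obtain ⟨t, rfl⟩ := QuotientGroup.mk'_surjective G u
      refine ⟨⟨t, hu⟩, fun k => ?_⟩
      obtain ⟨n, h⟩ := Subgroup.mem_zpowers_iff.1 (hgen ⟨(QuotientGroup.mk' G) k.1, k.2⟩)
      have h1 : (QuotientGroup.mk' G) t ^ n = (QuotientGroup.mk' G) k.1 :=
        congrArg Subtype.val h
      rw [← map_zpow] at h1
      have hg := QuotientGroup.eq.1 h1
      refine ⟨n, ⟨_, hg⟩, Subtype.ext ?_⟩
      change k.1 = t ^ n * ((t ^ n)⁻¹ * k.1)
      group
  have h2 := dz_sum red hDZR (Subgroup.inclusion hGK) (fun x : K => z x) hext c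
  rw [h2] at h1
  rw [gch_chs] at h1
  have hf1 : Finite {ψ : G → ℂ // IsWt p (⊥ : Subgroup G) ψ ∧
    centralValue red ψ (fun x => z x) = c} := fin_dz red _ c
  have _i1 : Fintype {ψ : G → ℂ // IsWt p (⊥ : Subgroup G) ψ ∧
    centralValue red ψ (fun x => z x) = c} := Fintype.ofFinite _
  have h3 : ((∑ᶠ ψ : {ψ : G → ℂ // IsWt p (⊥ : Subgroup G) ψ ∧
      centralValue red ψ (fun x => z ((Subgroup.inclusion hGK x : K) : Γ)) = c},
      Nat.card G * tt (Subgroup.inclusion hGK) ψ.1 ^ 2 : ℕ) : ℤ) =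
      ∑ᶠ ψ : {ψ : G → ℂ // IsWt p (⊥ : Subgroup G) ψ ∧ centralValue red ψ (fun x => z x) = c},
        (Nat.card G : ℤ) *
          (Nat.card ↥((stG G ψ.1).map (QuotientGroup.mk' G) ⊓ U) : ℤ) ^ 2 := by
    change ((∑ᶠ ψ : {ψ : G → ℂ // IsWt p (⊥ : Subgroup G) ψ ∧
      centralValue red ψ (fun x => z x) = c},
      Nat.card G * tt (Subgroup.inclusion hGK) ψ.1 ^ 2 : ℕ) : ℤ) = _
    rw [finsum_eq_sum_of_fintype, finsum_eq_sum_of_fintype, Nat.cast_sum]
    refine Finset.sum_congr rfl fun ψ _ => ?_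
    have h4 : tt (Subgroup.inclusion hGK) ψ.1 =
        Nat.card ↥((stG G ψ.1).map (QuotientGroup.mk' G) ⊓ U) :=
      tt_stG U (irrC_class ψ.2.1.irr)
    rw [h4]
    push_cast
    ring
  rw [← h3]
  refine Eq.trans ?_ h1
  rw [sum_Om]
  refine finsum_congr fun σ => ?_
  unfold wt
  have h4 := rel_all red hCL U hU σ.1 hzK hz0 c
  rw [← hK] at h4
  rw [h4, mul_finsum]
  refine finsum_congr fun ψ => ?_
  change ((-1) ^ σ.1.ncard * (Nat.card (NG G σ.1) : ℤ)) *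
        (Nat.card ↥(NEbar G σ.1 ψ.1 ⊓ U) : ℤ) ^ 2 = _
  ring

end rel

/-- EQL: the equality for a cyclic group `E/G`, local form -/
def S_EQL : Prop := ∀ (p : ℕ) [Fact p.Prime] (F : Type) [Field F] [IsAlgClosed F] [CharP F p]
    (red : integralClosure ℤ ℂ →+* F) (E : Type) [Group E] [Finite E] (G : Subgroup E) [G.Normal]
    (t : E), (∀ k : E, ∃ n : ℤ, ∃ g ∈ G, k = t ^ n * g) → ∀ z : E → F, IsClassFun z →
    (∀ x, x ∉ G → z x = 0) → ∀ c : F,
    (∀ K : Subgroup E, G ≤ K → LocK p G K fun Q _ => ∀ zQ : Q → F, IsClassFun zQ →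
      (z = 0 → zQ = 0) → KRz p red Q zQ c) →
    ∑ᶠ σ : GCh p G, (-1 : ℤ) ^ σ.1.ncard * ((Nat.card (NG G σ.1) : ℤ) *
      Nat.card {ψ : NG G σ.1 → ℂ // IsIrreducibleCharacter ψ ∧
        centralValue red ψ (fun x => z x) = c ∧
        ∃ g ∈ G, g * t ∈ chainStabilizer σ.1 ∧ Fixes (g * t) ψ}) =
    (Nat.card G : ℤ) * Nat.card {ψ : G → ℂ // IsWt p (⊥ : Subgroup G) ψ ∧
      centralValue red ψ (fun x => z x) = c ∧ Fixes t ψ}

/-- **the equality for a cyclic group `E/G`** -/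
theorem EQL (hCL : S_CLIFF) (hCH : S_CH) (hLIN : S_LINA) (hINF : S_INF) (hDEC : S_DEC)
    (hDZR : S_DZR) (hCMB : S_CMB) : S_EQL := by
  intro p _ F _ _ _ red E _ _ G _ t ht z hz hz0 c hKR
  have hc : IsCyclic (E ⧸ G) := by
    refine ⟨⟨(t : E ⧸ G), fun x => ?_⟩⟩
    obtain ⟨k, rfl⟩ := QuotientGroup.mk_surjective x
    obtain ⟨n, g, hg, h⟩ := ht k
    refine ⟨n, ?_⟩
    change (t : E ⧸ G) ^ n = (k : E ⧸ G)
    rw [h, ← QuotientGroup.mk_zpow]
    refine QuotientGroup.eq.2 ?_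
    have h2 : (t ^ n)⁻¹ * (t ^ n * g) = g := by group
    rw [h2]
    exact hg
  have hcyc : ∀ U : Subgroup (E ⧸ G), IsCyclic U := fun U =>
    isCyclic_of_injective U.subtype (Subgroup.subtype_injective U)
  have _f1 : Finite (Om p red G z c) := fin_Om red z c
  have _f2 : Finite {ψ : G → ℂ // IsWt p (⊥ : Subgroup G) ψ ∧
    centralValue red ψ (fun x => z x) = c} := fin_dz red _ c
  have _i1 : Fintype (Om p red G z c) := Fintype.ofFinite _
  have _i2 : Fintype {ψ : G → ℂ // IsWt p (⊥ : Subgroup G) ψ ∧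
    centralValue red ψ (fun x => z x) = c} := Fintype.ofFinite _
  let TO : Om p red G z c → Subgroup (E ⧸ G) := fun ω => NEbar G ω.1.1 ω.2.1
  let TZ : {ψ : G → ℂ // IsWt p (⊥ : Subgroup G) ψ ∧ centralValue red ψ (fun x => z x) = c} →
    Subgroup (E ⧸ G) := fun ψ => (stG G ψ.1).map (QuotientGroup.mk' G)
  have hcnt : ∀ T U : Subgroup (E ⧸ G), (Nat.card {a : (E ⧸ G) × (E ⧸ G) //
      (a.1 ∈ T ∧ a.1 ∈ U) ∧ (a.2 ∈ T ∧ a.2 ∈ U) ∧ True} : ℤ) =
      (Nat.card ↥(T ⊓ U) : ℤ) ^ 2 := by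
    intro T U
    have h : Nat.card {a : (E ⧸ G) × (E ⧸ G) //
      (a.1 ∈ T ∧ a.1 ∈ U) ∧ (a.2 ∈ T ∧ a.2 ∈ U) ∧ True} = Nat.card (↥(T ⊓ U) × ↥(T ⊓ U)) := by
      refine Nat.card_congr
        { toFun := fun a => (⟨a.1.1, Subgroup.mem_inf.2 a.2.1⟩,
            ⟨a.1.2, Subgroup.mem_inf.2 ⟨a.2.2.1.1, a.2.2.1.2⟩⟩)
          invFun := fun a => ⟨(a.1.1, a.2.1), Subgroup.mem_inf.1 a.1.2,
            Subgroup.mem_inf.1 a.2.2, trivial⟩
          left_inv := fun a => rfl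
          right_inv := fun a => rfl }
    rw [h, Nat.card_prod]
    push_cast
    ring
  have hmain := hCMB (Om p red G z c ⊕ {ψ : G → ℂ // IsWt p (⊥ : Subgroup G) ψ ∧
      centralValue red ψ (fun x => z x) = c}) (E ⧸ G) (fun _ => True)
    (Sum.elim (fun ω => (-1) ^ ω.1.1.ncard * (Nat.card (NG G ω.1.1) : ℤ))
      (fun _ => -(Nat.card G : ℤ))) (Sum.elim TO TZ) ⊤ (hcyc ⊤) trivial (by
      intro U _
      have h1 := relK red hCL hCH hLIN hINF hDEC hDZR U (hcyc U) hz hz0 c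
        (hKR _ (comap_rel U).1)
      rw [finsum_eq_sum_of_fintype, finsum_eq_sum_of_fintype] at h1
      rw [finsum_eq_sum_of_fintype, Fintype.sum_sum_type]
      change ∑ ω : Om p red G z c, ((-1) ^ ω.1.1.ncard * (Nat.card (NG G ω.1.1) : ℤ)) *
          (Nat.card {a : (E ⧸ G) × (E ⧸ G) //
          (a.1 ∈ TO ω ∧ a.1 ∈ U) ∧ (a.2 ∈ TO ω ∧ a.2 ∈ U) ∧ True} : ℤ) +
          ∑ ψ : {ψ : G → ℂ // IsWt p (⊥ : Subgroup G) ψ ∧
            centralValue red ψ (fun x => z x) = c}, -(Nat.card G : ℤ) *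
            (Nat.card {a : (E ⧸ G) × (E ⧸ G) //
              (a.1 ∈ TZ ψ ∧ a.1 ∈ U) ∧ (a.2 ∈ TZ ψ ∧ a.2 ∈ U) ∧ True} : ℤ) = 0
      rw [Finset.sum_congr rfl fun ω _ => congrArg _ (hcnt (TO ω) U),
        Finset.sum_congr rfl fun ψ _ => congrArg _ (hcnt (TZ ψ) U)]
      have h2 : ∑ ψ : {ψ : G → ℂ // IsWt p (⊥ : Subgroup G) ψ ∧
            centralValue red ψ (fun x => z x) = c}, -(Nat.card G : ℤ) *
            (Nat.card ↥(TZ ψ ⊓ U) : ℤ) ^ 2 =
          - ∑ ψ : {ψ : G → ℂ // IsWt p (⊥ : Subgroup G) ψ ∧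
            centralValue red ψ (fun x => z x) = c}, (Nat.card G : ℤ) *
            (Nat.card ↥(TZ ψ ⊓ U) : ℤ) ^ 2 := by
        rw [← Finset.sum_neg_distrib]
        refine Finset.sum_congr rfl fun ψ _ => ?_
        ring
      rw [h2, ← h1]
      exact add_neg_cancel _)
  rw [finsum_eq_sum_of_fintype, Fintype.sum_sum_type] at hmain
  change ∑ ω : Om p red G z c, (if ⊤ ≤ TO ω then
      (-1) ^ ω.1.1.ncard * (Nat.card (NG G ω.1.1) : ℤ) else 0) +
    ∑ ψ : {ψ : G → ℂ // IsWt p (⊥ : Subgroup G) ψ ∧ centralValue red ψ (fun x => z x) = c},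
      (if ⊤ ≤ TZ ψ then -(Nat.card G : ℤ) else 0) = 0 at hmain
  -- stabilisers containing `t`
  have htop : ∀ S : Subgroup E, ⊤ ≤ S.map (QuotientGroup.mk' G) ↔ ∃ g ∈ G, g * t ∈ S := by
    intro S
    constructor
    · intro h
      obtain ⟨s, hs, h1⟩ := h (Subgroup.mem_top ((QuotientGroup.mk' G) t))
      have h2 : (QuotientGroup.mk' G) (s * t⁻¹) = 1 := by
        rw [map_mul, map_inv, h1, mul_inv_cancel]
      refine ⟨s * t⁻¹, (QuotientGroup.eq_one_iff (s * t⁻¹)).1 h2, ?_⟩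
      rw [inv_mul_cancel_right]
      exact hs
    · rintro ⟨g, hgG, hg⟩ x -
      obtain ⟨k, rfl⟩ := QuotientGroup.mk'_surjective G x
      obtain ⟨n, g', hg', hk⟩ := ht k
      refine ⟨(g * t) ^ n, Subgroup.zpow_mem _ hg n, ?_⟩
      have h0 : ∀ g ∈ G, (QuotientGroup.mk' G) g = 1 := fun g hg =>
        (QuotientGroup.eq_one_iff _).2 hg
      rw [hk, map_mul, h0 g' hg', mul_one, map_zpow, map_zpow, map_mul, h0 g hgG, one_mul]
  have hTZ : ∀ ψ : {ψ : G → ℂ // IsWt p (⊥ : Subgroup G) ψ ∧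
      centralValue red ψ (fun x => z x) = c}, ⊤ ≤ TZ ψ ↔ Fixes t ψ.1 := by
    intro ψ
    have hg : ∀ g ∈ G, g ∈ stG G ψ.1 := by
      intro g hg x y h
      have h4 : y = (⟨g, hg⟩ : G) * x * (⟨g, hg⟩ : G)⁻¹ := Subtype.ext h
      rw [h4, irrC_class ψ.2.1.irr]
    rw [htop]
    constructor
    · rintro ⟨g, hgG, h⟩
      have h1 := Subgroup.mul_mem _ (Subgroup.inv_mem _ (hg g hgG)) h
      rw [inv_mul_cancel_left] at h1
      exact h1
    · intro h
      exact ⟨1, G.one_mem, Subgroup.mul_mem _ (hg 1 G.one_mem) h⟩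
  have hR : ∑ ψ : {ψ : G → ℂ // IsWt p (⊥ : Subgroup G) ψ ∧
      centralValue red ψ (fun x => z x) = c}, (if ⊤ ≤ TZ ψ then -(Nat.card G : ℤ) else 0) =
      -((Nat.card G : ℤ) * Nat.card {ψ : G → ℂ // IsWt p (⊥ : Subgroup G) ψ ∧
        centralValue red ψ (fun x => z x) = c ∧ Fixes t ψ}) := by
    have h1 : Nat.card {ψ : G → ℂ // IsWt p (⊥ : Subgroup G) ψ ∧
        centralValue red ψ (fun x => z x) = c ∧ Fixes t ψ} =
        (Finset.univ.filter fun ψ : {ψ : G → ℂ // IsWt p (⊥ : Subgroup G) ψ ∧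
          centralValue red ψ (fun x => z x) = c} => ⊤ ≤ TZ ψ).card := by
      rw [← Fintype.card_subtype, ← Nat.card_eq_fintype_card]
      exact Nat.card_congr
        { toFun := fun ψ => ⟨⟨ψ.1, ψ.2.1, ψ.2.2.1⟩, (hTZ _).2 ψ.2.2.2⟩
          invFun := fun ψ => ⟨ψ.1.1, ψ.1.2.1, ψ.1.2.2, (hTZ ψ.1).1 ψ.2⟩
          left_inv := fun ψ => rfl
          right_inv := fun ψ => rfl }
    rw [h1, ← Finset.sum_filter, Finset.sum_const, nsmul_eq_mul]
    ring
  rw [hR] at hmain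
  have hL : ∑ ω : Om p red G z c, (if ⊤ ≤ TO ω then
      (-1) ^ ω.1.1.ncard * (Nat.card (NG G ω.1.1) : ℤ) else 0) =
      ∑ᶠ σ : GCh p G, (-1 : ℤ) ^ σ.1.ncard * ((Nat.card (NG G σ.1) : ℤ) *
      Nat.card {ψ : NG G σ.1 → ℂ // IsIrreducibleCharacter ψ ∧
        centralValue red ψ (fun x => z x) = c ∧
        ∃ g ∈ G, g * t ∈ chainStabilizer σ.1 ∧ Fixes (g * t) ψ}) := by
    rw [← finsum_eq_sum_of_fintype, sum_Om]
    refine finsum_congr fun σ => ?_
    have hf := fin_irc (G := G) red σ.1 z c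
    have _i3 : Fintype {ψ : NG G σ.1 → ℂ // IsIrreducibleCharacter ψ ∧
      centralValue red ψ (fun n : NG G σ.1 => z n) = c} := Fintype.ofFinite _
    rw [finsum_eq_sum_of_fintype]
    change ∑ ψ : {ψ : NG G σ.1 → ℂ // IsIrreducibleCharacter ψ ∧
      centralValue red ψ (fun n : NG G σ.1 => z n) = c},
      (if ⊤ ≤ NEbar G σ.1 ψ.1 then
        (-1) ^ σ.1.ncard * (Nat.card (NG G σ.1) : ℤ) else 0) = _
    rw [← Finset.sum_filter, Finset.sum_const, nsmul_eq_mul]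
    have h3 : Nat.card {ψ : NG G σ.1 → ℂ // IsIrreducibleCharacter ψ ∧
        centralValue red ψ (fun x => z x) = c ∧
        ∃ g ∈ G, g * t ∈ chainStabilizer σ.1 ∧ Fixes (g * t) ψ} =
        (Finset.univ.filter fun ψ : {ψ : NG G σ.1 → ℂ // IsIrreducibleCharacter ψ ∧
          centralValue red ψ (fun n : NG G σ.1 => z n) = c} =>
          ⊤ ≤ NEbar G σ.1 ψ.1).card := by
      rw [← Fintype.card_subtype, ← Nat.card_eq_fintype_card]
      exact Nat.card_congr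
        { toFun := fun χ => ⟨⟨χ.1, χ.2.1, χ.2.2.1⟩, (htop _).2 χ.2.2.2⟩
          invFun := fun χ => ⟨χ.1.1, χ.1.2.1, χ.1.2.2, (htop _).1 χ.2⟩
          left_inv := fun χ => rfl
          right_inv := fun χ => rfl }
    rw [h3]
    ring
  rw [hL] at hmain
  exact add_neg_eq_zero.1 hmain

theorem EQK (h : S_EQL) : S_EQK := by
  intro p _ F _ _ _ red E _ _ G _ t ht z hz hz0 c hKR
  exact h p F red E G t ht z hz hz0 c fun K _ R _ _ _ Q _ _ _ _ _ zQ h1 h2 => hKR Q zQ h1 h2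

end Pool.Agent.N20.EW
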