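import Pool.Agent.N20.EW.Krr3

/-!
# The Knörr–Robinson conjecture and automorphisms: the equality for a coset
-/

set_option autoImplicit false
set_option linter.unusedSectionVars false
set_option linter.unusedVariables false

open scoped Classical BigOperators

noncomputable section

namespace Pool.Agent.N20.EW

open Pool.Agent.Y63.NV
open Pool.Agent.Y63.KR
open Pool.Agent.Y63.AWC (IsIrreducibleCharacter pSubgroupSetoid)
open Pool.Agent.R674.Ce (chs wt Sp)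
open Pool.Agent.R674.Tw (Fixes GCh NG NE NEbar ng_le)
open Pool.Agent.N20.DI (S_CH S_DEC S_CLIFF pf pf_class mem_up pr pr_surj pr_ker fw Kd df Om HasDef
  hasDef_iff rel_term gch_chs comap_rel comap_com fin_irc fin_Om sum_Om dg_le)

/-- EQG: the equality for a coset `Gt`, local form -/
def S_EQG : Prop := ∀ (p : ℕ) [Fact p.Prime] (F : Type) [Field F] [IsAlgClosed F] [CharP F p]
    (red : integralClosure ℤ ℂ →+* F) (E : Type) [Group E] [Finite E] (G : Subgroup E) [G.Normal]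
    (t : E) (z : E → F), IsClassFun z →
    (∀ x, x ∉ G → z x = 0) → ∀ c : F,
    (∀ K : Subgroup E, G ≤ K → LocK p G K fun Q _ => ∀ zQ : Q → F, IsClassFun zQ →
      (z = 0 → zQ = 0) → KRz p red Q zQ c) →
    ∑ᶠ σ : GCh p G, (-1 : ℤ) ^ σ.1.ncard * ((Nat.card (NG G σ.1) : ℤ) *
      Nat.card {ψ : NG G σ.1 → ℂ // IsIrreducibleCharacter ψ ∧
        centralValue red ψ (fun x => z x) = c ∧
        ∃ g ∈ G, g * t ∈ chainStabilizer σ.1 ∧ Fixes (g * t) ψ}) =
    (Nat.card G : ℤ) * Nat.card {ψ : G → ℂ // IsWt p (⊥ : Subgroup G) ψ ∧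
      centralValue red ψ (fun x => z x) = c ∧ Fixes t ψ}

/-- **the equality for a coset** -/
theorem EQG (hCL : S_CLIFF) (hCH : S_CH) (hLIN : S_LINA) (hINF : S_INF) (hDEC : S_DEC)
    (hDZR : S_DZR) (hCMB : S_CMB) : S_EQG := by
  intro p _ F _ _ _ red E _ _ G _ t z hz hz0 c hKR
  set U₀ : Subgroup (E ⧸ G) := Subgroup.zpowers ((QuotientGroup.mk' G) t) with hU₀
  have hcyc : ∀ U : Subgroup (E ⧸ G), U ≤ U₀ → IsCyclic U := fun U hU =>
    isCyclic_of_injective (Subgroup.inclusion hU) (Subgroup.inclusion_injective hU)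
  have _f1 : Finite (Om p red G z c) := fin_Om red z c
  have _f2 : Finite {ψ : G → ℂ // IsWt p (⊥ : Subgroup G) ψ ∧
    centralValue red ψ (fun x => z x) = c} := fin_dz red _ c
  have _i1 : Fintype (Om p red G z c) := Fintype.ofFinite _
  have _i2 : Fintype {ψ : G → ℂ // IsWt p (⊥ : Subgroup G) ψ ∧
    centralValue red ψ (fun x => z x) = c} := Fintype.ofFinite _
  let TO : Om p red G z c → Subgroup (E ⧸ G) := fun ω => NEbar G ω.1.1 ω.2.1
  let TZ : {ψ : G → ℂ // IsWt p (⊥ : Subgroup G) ψ ∧ centralValue red ψ (fun x => z x) = c} →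
    Subgroup (E ⧸ G) := fun ψ => (stG G ψ.1).map (QuotientGroup.mk' G)
  have hcnt : ∀ T U : Subgroup (E ⧸ G), (Nat.card {a : (E ⧸ G) × (E ⧸ G) //
      (a.1 ∈ T ∧ a.1 ∈ U) ∧ (a.2 ∈ T ∧ a.2 ∈ U) ∧ True} : ℤ) =
      (Nat.card ↥(T ⊓ U) : ℤ) ^ 2 := by
    intro T U
    have h : Nat.card {a : (E ⧸ G) × (E ⧸ G) //
      (a.1 ∈ T ∧ a.1 ∈ U) ∧ (a.2 ∈ T ∧ a.2 ∈ U) ∧ True} = Nat.card (↥(T ⊓ U) × ↥(T ⊓ U)) := by
      refine Nat.card_congr
        { toFun := fun a => (⟨a.1.1, Subgroup.mem_inf.2 a.2.1⟩,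
            ⟨a.1.2, Subgroup.mem_inf.2 ⟨a.2.2.1.1, a.2.2.1.2⟩⟩)
          invFun := fun a => ⟨(a.1.1, a.2.1), Subgroup.mem_inf.1 a.1.2,
            Subgroup.mem_inf.1 a.2.2, trivial⟩
          left_inv := fun a => rfl
          right_inv := fun a => rfl }
    rw [h, Nat.card_prod]
    push_cast
    ring
  have hmain := hCMB (Om p red G z c ⊕ {ψ : G → ℂ // IsWt p (⊥ : Subgroup G) ψ ∧
      centralValue red ψ (fun x => z x) = c}) (E ⧸ G) (fun _ => True)
    (Sum.elim (fun ω => (-1) ^ ω.1.1.ncard * (Nat.card (NG G ω.1.1) : ℤ))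
      (fun _ => -(Nat.card G : ℤ))) (Sum.elim TO TZ) U₀ (hcyc U₀ le_rfl) trivial (by
      intro U hU
      have h1 := relK red hCL hCH hLIN hINF hDEC hDZR U (hcyc U hU) hz hz0 c
        (hKR _ (comap_rel U).1)
      rw [finsum_eq_sum_of_fintype, finsum_eq_sum_of_fintype] at h1
      rw [finsum_eq_sum_of_fintype, Fintype.sum_sum_type]
      change ∑ ω : Om p red G z c, ((-1) ^ ω.1.1.ncard * (Nat.card (NG G ω.1.1) : ℤ)) *
          (Nat.card {a : (E ⧸ G) × (E ⧸ G) //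
          (a.1 ∈ TO ω ∧ a.1 ∈ U) ∧ (a.2 ∈ TO ω ∧ a.2 ∈ U) ∧ True} : ℤ) +
          ∑ ψ : {ψ : G → ℂ // IsWt p (⊥ : Subgroup G) ψ ∧
            centralValue red ψ (fun x => z x) = c}, -(Nat.card G : ℤ) *
            (Nat.card {a : (E ⧸ G) × (E ⧸ G) //
              (a.1 ∈ TZ ψ ∧ a.1 ∈ U) ∧ (a.2 ∈ TZ ψ ∧ a.2 ∈ U) ∧ True} : ℤ) = 0
      rw [Finset.sum_congr rfl fun ω _ => congrArg _ (hcnt (TO ω) U),
        Finset.sum_congr rfl fun ψ _ => congrArg _ (hcnt (TZ ψ) U)]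
      have h2 : ∑ ψ : {ψ : G → ℂ // IsWt p (⊥ : Subgroup G) ψ ∧
            centralValue red ψ (fun x => z x) = c}, -(Nat.card G : ℤ) *
            (Nat.card ↥(TZ ψ ⊓ U) : ℤ) ^ 2 =
          - ∑ ψ : {ψ : G → ℂ // IsWt p (⊥ : Subgroup G) ψ ∧
            centralValue red ψ (fun x => z x) = c}, (Nat.card G : ℤ) *
            (Nat.card ↥(TZ ψ ⊓ U) : ℤ) ^ 2 := by
        rw [← Finset.sum_neg_distrib]
        refine Finset.sum_congr rfl fun ψ _ => ?_
        ring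
      rw [h2, ← h1]
      exact add_neg_cancel _)
  rw [finsum_eq_sum_of_fintype, Fintype.sum_sum_type] at hmain
  change ∑ ω : Om p red G z c, (if U₀ ≤ TO ω then
      (-1) ^ ω.1.1.ncard * (Nat.card (NG G ω.1.1) : ℤ) else 0) +
    ∑ ψ : {ψ : G → ℂ // IsWt p (⊥ : Subgroup G) ψ ∧ centralValue red ψ (fun x => z x) = c},
      (if U₀ ≤ TZ ψ then -(Nat.card G : ℤ) else 0) = 0 at hmain
  -- stabilisers containing `t`
  have htop : ∀ S : Subgroup E, U₀ ≤ S.map (QuotientGroup.mk' G) ↔ ∃ g ∈ G, g * t ∈ S := by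
    intro S
    constructor
    · intro h
      obtain ⟨s, hs, h1⟩ := h (Subgroup.mem_zpowers ((QuotientGroup.mk' G) t))
      have h2 : (QuotientGroup.mk' G) (s * t⁻¹) = 1 := by
        rw [map_mul, map_inv, h1, mul_inv_cancel]
      refine ⟨s * t⁻¹, (QuotientGroup.eq_one_iff (s * t⁻¹)).1 h2, ?_⟩
      rw [inv_mul_cancel_right]
      exact hs
    · rintro ⟨g, hgG, hg⟩
      rw [hU₀, Subgroup.zpowers_le]
      refine ⟨g * t, hg, ?_⟩
      rw [map_mul]
      have h0 : (QuotientGroup.mk' G) g = 1 := (QuotientGroup.eq_one_iff _).2 hgG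
      rw [h0, one_mul]
  have hTZ : ∀ ψ : {ψ : G → ℂ // IsWt p (⊥ : Subgroup G) ψ ∧
      centralValue red ψ (fun x => z x) = c}, U₀ ≤ TZ ψ ↔ Fixes t ψ.1 := by
    intro ψ
    have hg : ∀ g ∈ G, g ∈ stG G ψ.1 := by
      intro g hg x y h
      have h4 : y = (⟨g, hg⟩ : G) * x * (⟨g, hg⟩ : G)⁻¹ := Subtype.ext h
      rw [h4, irrC_class ψ.2.1.irr]
    rw [htop]
    constructor
    · rintro ⟨g, hgG, h⟩
      have h1 := Subgroup.mul_mem _ (Subgroup.inv_mem _ (hg g hgG)) h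
      rw [inv_mul_cancel_left] at h1
      exact h1
    · intro h
      exact ⟨1, G.one_mem, Subgroup.mul_mem _ (hg 1 G.one_mem) h⟩
  have hR : ∑ ψ : {ψ : G → ℂ // IsWt p (⊥ : Subgroup G) ψ ∧
      centralValue red ψ (fun x => z x) = c}, (if U₀ ≤ TZ ψ then -(Nat.card G : ℤ) else 0) =
      -((Nat.card G : ℤ) * Nat.card {ψ : G → ℂ // IsWt p (⊥ : Subgroup G) ψ ∧
        centralValue red ψ (fun x => z x) = c ∧ Fixes t ψ}) := by
    have h1 : Nat.card {ψ : G → ℂ // IsWt p (⊥ : Subgroup G) ψ ∧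
        centralValue red ψ (fun x => z x) = c ∧ Fixes t ψ} =
        (Finset.univ.filter fun ψ : {ψ : G → ℂ // IsWt p (⊥ : Subgroup G) ψ ∧
          centralValue red ψ (fun x => z x) = c} => U₀ ≤ TZ ψ).card := by
      rw [← Fintype.card_subtype, ← Nat.card_eq_fintype_card]
      exact Nat.card_congr
        { toFun := fun ψ => ⟨⟨ψ.1, ψ.2.1, ψ.2.2.1⟩, (hTZ _).2 ψ.2.2.2⟩
          invFun := fun ψ => ⟨ψ.1.1, ψ.1.2.1, ψ.1.2.2, (hTZ ψ.1).1 ψ.2⟩
          left_inv := fun ψ => rfl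
          right_inv := fun ψ => rfl }
    rw [h1, ← Finset.sum_filter, Finset.sum_const, nsmul_eq_mul]
    ring
  rw [hR] at hmain
  have hL : ∑ ω : Om p red G z c, (if U₀ ≤ TO ω then
      (-1) ^ ω.1.1.ncard * (Nat.card (NG G ω.1.1) : ℤ) else 0) =
      ∑ᶠ σ : GCh p G, (-1 : ℤ) ^ σ.1.ncard * ((Nat.card (NG G σ.1) : ℤ) *
      Nat.card {ψ : NG G σ.1 → ℂ // IsIrreducibleCharacter ψ ∧
        centralValue red ψ (fun x => z x) = c ∧
        ∃ g ∈ G, g * t ∈ chainStabilizer σ.1 ∧ Fixes (g * t) ψ}) := by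
    rw [← finsum_eq_sum_of_fintype, sum_Om]
    refine finsum_congr fun σ => ?_
    have hf := fin_irc (G := G) red σ.1 z c
    have _i3 : Fintype {ψ : NG G σ.1 → ℂ // IsIrreducibleCharacter ψ ∧
      centralValue red ψ (fun n : NG G σ.1 => z n) = c} := Fintype.ofFinite _
    rw [finsum_eq_sum_of_fintype]
    change ∑ ψ : {ψ : NG G σ.1 → ℂ // IsIrreducibleCharacter ψ ∧
      centralValue red ψ (fun n : NG G σ.1 => z n) = c},
      (if U₀ ≤ NEbar G σ.1 ψ.1 then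
        (-1) ^ σ.1.ncard * (Nat.card (NG G σ.1) : ℤ) else 0) = _
    rw [← Finset.sum_filter, Finset.sum_const, nsmul_eq_mul]
    have h3 : Nat.card {ψ : NG G σ.1 → ℂ // IsIrreducibleCharacter ψ ∧
        centralValue red ψ (fun x => z x) = c ∧
        ∃ g ∈ G, g * t ∈ chainStabilizer σ.1 ∧ Fixes (g * t) ψ} =
        (Finset.univ.filter fun ψ : {ψ : NG G σ.1 → ℂ // IsIrreducibleCharacter ψ ∧
          centralValue red ψ (fun n : NG G σ.1 => z n) = c} =>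
          U₀ ≤ NEbar G σ.1 ψ.1).card := by
      rw [← Fintype.card_subtype, ← Nat.card_eq_fintype_card]
      exact Nat.card_congr
        { toFun := fun χ => ⟨⟨χ.1, χ.2.1, χ.2.2.1⟩, (htop _).2 χ.2.2.2⟩
          invFun := fun χ => ⟨χ.1.1, χ.1.2.1, χ.1.2.2, (htop _).1 χ.2⟩
          left_inv := fun χ => rfl
          right_inv := fun χ => rfl }
    rw [h3]
    ring
  rw [hL] at hmain
  exact add_neg_eq_zero.1 hmain

end Pool.Agent.N20.EW
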