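import Pool.Agent.N20.AE.Stm2
import Pool.Agent.N85.WM.Modp

/-!
# The weight conjecture and automorphisms: definitions and statements of the parts
-/

set_option autoImplicit false

open scoped Classical BigOperators

noncomputable section

namespace Pool.Agent.N20.EW

open Pool.Agent.Y63.NV
open Pool.Agent.Y63.KR
open Pool.Agent.Y63.AWC (IsIrreducibleCharacter pSubgroupSetoid)

/-- the number of the irreducible characters of `H` over `F` on which `z` acts as `c` -/
def Lz {F : Type} [Field F] {H : Type} [Group H] (z : H → F) (c : F) : ℕ :=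
  Nat.card {φ : H → F // IsIrrTrace φ ∧ ∀ x : H, ∑ᶠ g : H, z g * φ (g * x) = c * φ x}

/-- `|H|` times the number of the classes of weights of `H` at which `z` has the value `c` -/
def Wz (p : ℕ) {F : Type} [Field F] (red : integralClosure ℤ ℂ →+* F) {H : Type} [Group H]
    (z : H → F) (c : F) : ℕ :=
  ∑ᶠ Q : Subgroup H, if IsPGroup p Q then Nat.card (Subgroup.normalizer (Q : Set H)) *
    Nw p red (Q.subgroupOf (Subgroup.normalizer (Q : Set H))) (fun x => z x) c else 0

/-- the order of the stabiliser in `K` of a function on `G`, where `G` is embedded in `K` as a normal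
subgroup -/
def stc {G K X : Type} [Group G] [Group K] (i : G →* K) (φ : G → X) : ℕ :=
  Nat.card {k : K // ∀ x y : G, i y = k * i x * k⁻¹ → φ y = φ x}

/-- the order of the stabiliser in `K/G` -/
def tt {G K X : Type} [Group G] [Group K] (i : G →* K) (φ : G → X) : ℕ := stc i φ / Nat.card G

/-- `n` times the largest divisor of `n` prime to `p` -/
def pc (p n : ℕ) : ℕ := n * (n / p ^ n.factorization p)

/-- the order of the stabiliser of the pair `(R, ξ)` in `K/G` -/
def tw {G K : Type} [Group G] [Group K] (i : G →* K) (R : Subgroup G)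
    (ξ : Subgroup.normalizer (R : Set G) → ℂ) : ℕ :=
  Nat.card {k : K // conjSub k (R.map i) = R.map i ∧
    ∀ x y : Subgroup.normalizer (R : Set G), i y = k * i x * k⁻¹ → ξ y = ξ x} /
      Nat.card (Subgroup.normalizer (R : Set G))

/-- `z` is a class function of `K` supported on the normal subgroup `i(G)` with cyclic quotient -/
structure CycExt {F G K : Type} [Field F] [Group G] [Group K] (i : G →* K) (z : K → F) : Prop where
  inj : Function.Injective i
  normal : i.range.Normal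
  cyc : ∃ t : K, ∀ k : K, ∃ n : ℤ, ∃ g : G, k = t ^ n * i g
  cl : IsClassFun z
  supp : ∀ x, x ∉ i.range → z x = 0

/-- BLW: from blocks to class functions -/
def S_BLW : Prop := ∀ (p : ℕ) [Fact p.Prime] (F : Type) [Field F] [IsAlgClosed F] [CharP F p]
    (red : integralClosure ℤ ℂ →+* F) (H : Type) [Group H] [Finite H],
    (∀ B : (H → F) → F, IsBlock B → Nat.card {φ : H → F // IsIrrTrace φ ∧
      ∀ f : H → F, IsClassFun f → ∀ x : H, ∑ᶠ g : H, f g * φ (g * x) = B f * φ x} =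
        Pool.Agent.N85.WM.numWts p red B) →
    ∀ (z : H → F), IsClassFun z → ∀ (c : F), Nat.card H * Lz z c = Wz p red z c

/-! ### modular characters of cyclic extensions -/

/-- X1: invariant irreducible representations extend to cyclic extensions -/
def S_X1 : Prop := ∀ (F : Type) [Field F] [IsAlgClosed F] (G K : Type) [Group G] [Group K] [Finite G]
    [Finite K] (i : G →* K), CycExt i (0 : K → F) → ∀ φ : G → F, IsIrrTrace φ →
    (∀ (k : K) (x y : G), i y = k * i x * k⁻¹ → φ y = φ x) →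
    ∃ χ : K → F, IsIrrTrace χ ∧ ∀ g : G, χ (i g) = φ g

/-- X2: extensions do not vanish on any coset -/
def S_X2 : Prop := ∀ (F : Type) [Field F] [IsAlgClosed F] (G K : Type) [Group G] [Group K] [Finite G]
    [Finite K] (i : G →* K) (χ : K → F), IsIrrTrace χ → IsIrrTrace (fun g : G => χ (i g)) →
    ∀ k : K, ∃ g : G, χ (k * i g) ≠ 0

/-- X3: the lower bound for the number of irreducible characters -/
def S_X3 : Prop := ∀ (p : ℕ) [Fact p.Prime] (F : Type) [Field F] [IsAlgClosed F] [CharP F p]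
    (G K : Type) [Group G] [Group K] [Finite G] [Finite K] (i : G →* K) (z : K → F), CycExt i z →
    ∀ c : F, ∑ᶠ φ : {φ : G → F // IsIrrTrace φ ∧ ∀ x : G, ∑ᶠ g : G, z (i g) * φ (g * x) = c * φ x},
      pc p (tt i φ.1) ≤ i.range.index * Lz z c

/-- PF: isomorphic permutation modules of cyclic groups -/
def S_PF : Prop := ∀ (F : Type) [Field F] (X Y : Type) [Finite X] [Finite Y] (f : Equiv.Perm X)
    (g : Equiv.Perm Y) (e : (X → F) ≃ₗ[F] (Y → F)),
    (∀ u : X → F, e (fun x => u (f x)) = fun y => e u (g y)) →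
    ∀ k : ℕ, Nat.card {x : X // (f ^ k) x = x} = Nat.card {y : Y // (g ^ k) y = y}

/-- X4: Brauer's permutation lemma: the number of the irreducible characters over `F` fixed by an
automorphism is the number of the fixed classes of `p`-regular elements -/
def S_X4 : Prop := ∀ (p : ℕ) [Fact p.Prime] (F : Type) [Field F] [IsAlgClosed F] [CharP F p]
    (G : Type) [Group G] [Finite G] (a : MulAut G),
    Nat.card {φ : G → F // IsIrrTrace φ ∧ ∀ x, φ (a x) = φ x} =
      Nat.card {C : ConjClasses G // (∀ x, ConjClasses.mk x = C → ¬ p ∣ orderOf x) ∧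
        ∀ x, ConjClasses.mk x = C → ConjClasses.mk (a x) = C}

/-- X5: the number of all irreducible characters over `F` of a cyclic extension -/
def S_X5 : Prop := ∀ (p : ℕ) [Fact p.Prime] (F : Type) [Field F] [IsAlgClosed F] [CharP F p]
    (G K : Type) [Group G] [Group K] [Finite G] [Finite K] (i : G →* K), CycExt i (0 : K → F) →
    ∑ᶠ φ : {φ : G → F // IsIrrTrace φ}, pc p (tt i φ.1) =
      i.range.index * Nat.card {χ : K → F // IsIrrTrace χ}

/-- C1: the number of irreducible characters of a cyclic extension -/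
def S_C1 : Prop := ∀ (p : ℕ) [Fact p.Prime] (F : Type) [Field F] [IsAlgClosed F] [CharP F p]
    (G K : Type) [Group G] [Group K] [Finite G] [Finite K] (i : G →* K) (z : K → F), CycExt i z →
    ∀ c : F, ∑ᶠ φ : {φ : G → F // IsIrrTrace φ ∧ ∀ x : G, ∑ᶠ g : G, z (i g) * φ (g * x) = c * φ x},
      pc p (tt i φ.1) = i.range.index * Lz z c

/-! ### characters of defect zero and weights of cyclic extensions -/

/-- the centraliser of `Q` in `G` -/
abbrev CQ {G K : Type} [Group G] [Group K] (i : G →* K) (Q : Subgroup K) : Subgroup G :=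
  (Subgroup.centralizer (Q : Set K)).comap i

/-- the central characters of `ψ ∈ Irr(G)` and `θ ∈ Irr(C_G(Q))` agree on the `Q`-invariant class
functions (the Brauer homomorphism) -/
def Rel {F : Type} [Field F] (red : integralClosure ℤ ℂ →+* F) {G K : Type} [Group G] [Group K]
    (i : G →* K) (Q : Subgroup K) (ψ : G → ℂ) (θ : CQ i Q → ℂ) : Prop :=
  ∀ f : G → F, IsClassFun f → (∀ q ∈ Q, ∀ x y : G, i y = q * i x * q⁻¹ → f y = f x) →
    centralValue red ψ f = centralValue red θ (fun x => f x)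

/-- DF: characters of defect zero and blocks with trivial defect groups -/
def S_DF : Prop := ∀ (p : ℕ) [Fact p.Prime] (F : Type) [Field F] [IsAlgClosed F] [CharP F p]
    (red : integralClosure ℤ ℂ →+* F) (G : Type) [Group G] [Finite G],
    (∀ ψ : G → ℂ, IsWt p (⊥ : Subgroup G) ψ → IsBlock (centralValue red ψ) ∧
      IsDefectGroup p (centralValue red ψ) (⊥ : Subgroup G)) ∧
    (∀ B : (G → F) → F, IsBlock B → ∀ y : G, classValue B y ≠ 0 →
      ¬ p ∣ Nat.card ↥(Subgroup.centralizer {y}) → ∃ ψ : G → ℂ, IsWt p (⊥ : Subgroup G) ψ ∧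
        ∀ f : G → F, IsClassFun f → centralValue red ψ f = B f)

/-- SY: elements whose centraliser in `C_G(Q)` is a `p'`-group -/
def S_SY : Prop := ∀ (p : ℕ) [Fact p.Prime] (G K : Type) [Group G] [Group K] [Finite G] [Finite K]
    (i : G →* K), Function.Injective i → i.range.Normal → ∀ Q : Subgroup K, IsPGroup p Q →
    Q ⊓ i.range = ⊥ → ∀ y : CQ i Q, ¬ p ∣ Nat.card ↥(Subgroup.centralizer {y}) →
    ¬ p ∣ Nat.card ↥(Subgroup.centralizer {(y : G)}) ∧
    (∀ P : Subgroup K, IsPGroup p P → P ≤ i.range ⊔ Q → P ≤ Subgroup.centralizer {i y} →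
      ∃ k ∈ (i.range ⊔ Q) ⊓ Subgroup.centralizer {i y}, conjSub k P ≤ Q) ∧
    (∀ y' : CQ i Q, (∃ k ∈ i.range ⊔ Q, i y' = k * i y * k⁻¹) → IsConj y y')

/-- D1: existence of `Q` and `θ` -/
def S_D1 : Prop := ∀ (p : ℕ) [Fact p.Prime] (F : Type) [Field F] [IsAlgClosed F] [CharP F p]
    (red : integralClosure ℤ ℂ →+* F) (G K : Type) [Group G] [Group K] [Finite G] [Finite K]
    (i : G →* K), CycExt i (0 : K → F) → ∀ ψ : G → ℂ, IsWt p (⊥ : Subgroup G) ψ →
    ∀ S : Subgroup K, i.range ≤ S → (∀ s ∈ S, ∃ k : ℕ, s ^ p ^ k ∈ i.range) →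
    (∀ s ∈ S, ∀ x y : G, i y = s * i x * s⁻¹ → ψ y = ψ x) →
    ∃ Q : Subgroup K, IsPGroup p Q ∧ Q ⊓ i.range = ⊥ ∧ i.range ⊔ Q = S ∧
      ∃ θ : CQ i Q → ℂ, IsWt p (⊥ : Subgroup (CQ i Q)) θ ∧ Rel red i Q ψ θ

/-- D2: existence of `ψ` -/
def S_D2 : Prop := ∀ (p : ℕ) [Fact p.Prime] (F : Type) [Field F] [IsAlgClosed F] [CharP F p]
    (red : integralClosure ℤ ℂ →+* F) (G K : Type) [Group G] [Group K] [Finite G] [Finite K]
    (i : G →* K), Function.Injective i → i.range.Normal → ∀ Q : Subgroup K, IsPGroup p Q →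
    Q ⊓ i.range = ⊥ → ∀ θ : CQ i Q → ℂ, IsWt p (⊥ : Subgroup (CQ i Q)) θ →
    ∃ ψ : G → ℂ, IsWt p (⊥ : Subgroup G) ψ ∧ Rel red i Q ψ θ ∧
      ∀ q ∈ Q, ∀ x y : G, i y = q * i x * q⁻¹ → ψ y = ψ x

/-- D3: uniqueness -/
def S_D3 : Prop := ∀ (p : ℕ) [Fact p.Prime] (F : Type) [Field F] [IsAlgClosed F] [CharP F p]
    (red : integralClosure ℤ ℂ →+* F) (G K : Type) [Group G] [Group K] [Finite G] [Finite K]
    (i : G →* K), Function.Injective i → i.range.Normal → ∀ Q : Subgroup K, IsPGroup p Q →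
    Q ⊓ i.range = ⊥ → ∀ (ψ : G → ℂ) (θ : CQ i Q → ℂ), IsWt p (⊥ : Subgroup G) ψ →
    (∀ q ∈ Q, ∀ x y : G, i y = q * i x * q⁻¹ → ψ y = ψ x) →
    IsWt p (⊥ : Subgroup (CQ i Q)) θ → Rel red i Q ψ θ →
    (∀ ψ' : G → ℂ, IsWt p (⊥ : Subgroup G) ψ' →
      (∀ q ∈ Q, ∀ x y : G, i y = q * i x * q⁻¹ → ψ' y = ψ' x) → Rel red i Q ψ' θ → ψ' = ψ) ∧
    (∀ θ' : CQ i Q → ℂ, IsWt p (⊥ : Subgroup (CQ i Q)) θ' → Rel red i Q ψ θ' → θ' = θ) ∧
    (∀ Q' : Subgroup K, IsPGroup p Q' → Q' ⊓ i.range = ⊥ → i.range ⊔ Q' = i.range ⊔ Q →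
      ∀ θ' : CQ i Q' → ℂ, IsWt p (⊥ : Subgroup (CQ i Q')) θ' → Rel red i Q' ψ θ' →
      ∃ g : G, Q' = conjSub (i g) Q)

/-- DZR: weights `(Q, χ)` with `Q ∩ G = 1` and characters of defect zero of `G` -/
def S_DZR : Prop := ∀ (p : ℕ) [Fact p.Prime] (F : Type) [Field F] [IsAlgClosed F] [CharP F p]
    (red : integralClosure ℤ ℂ →+* F) (G K : Type) [Group G] [Group K] [Finite G] [Finite K]
    (i : G →* K) (z : K → F), CycExt i z → ∀ (c : F) (k : ℕ),
    (∑ᶠ Q : Subgroup K, if IsPGroup p Q ∧ Q ⊓ i.range = ⊥ ∧ Nat.card Q = p ^ k then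
      Nat.card (Subgroup.normalizer (Q : Set K)) *
        Nw p red (Q.subgroupOf (Subgroup.normalizer (Q : Set K))) (fun x => z x) c else 0) =
    ∑ᶠ ψ : {ψ : G → ℂ // IsWt p (⊥ : Subgroup G) ψ ∧ centralValue red ψ (fun x => z (i x)) = c},
      if (tt i ψ.1).factorization p = k then Nat.card G * pc p (tt i ψ.1) else 0

/-- C2: the number of weights of a cyclic extension -/
def S_C2 : Prop := ∀ (p : ℕ) [Fact p.Prime] (F : Type) [Field F] [IsAlgClosed F] [CharP F p]
    (red : integralClosure ℤ ℂ →+* F) (G K : Type) [Group G] [Group K] [Finite G] [Finite K]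
    (i : G →* K) (z : K → F), CycExt i z → ∀ c : F,
    Wz p red z c = ∑ᶠ R : Subgroup G, if IsPGroup p R then
      ∑ᶠ ξ : {ξ : Subgroup.normalizer (R : Set G) → ℂ //
        IsWt p (R.subgroupOf (Subgroup.normalizer (R : Set G))) ξ ∧
        centralValue red ξ (fun x => z (i x)) = c},
        Nat.card (Subgroup.normalizer (R : Set G)) * pc p (tw i R ξ.1) else 0

/-- CMB: the combinatorial part -/
def S_CMB : Prop := ∀ (Ω A : Type) [Finite Ω] [Group A] [Finite A] (P : A → Prop) (w : Ω → ℤ)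
    (T : Ω → Subgroup A) (U₀ : Subgroup A), IsCyclic U₀ → P 1 →
    (∀ U : Subgroup A, U ≤ U₀ → ∑ᶠ ω : Ω,
      w ω * (Nat.card {a : A × A // (a.1 ∈ T ω ∧ a.1 ∈ U) ∧ (a.2 ∈ T ω ∧ a.2 ∈ U) ∧ P a.2} : ℤ) = 0) →
    ∑ᶠ ω : Ω, (if U₀ ≤ T ω then w ω else 0) = 0

/-- PCC: counting pairs in a cyclic group -/
def S_PCC : Prop := ∀ (p : ℕ) [Fact p.Prime] (A : Type) [Group A] [Finite A] (T : Subgroup A),
    IsCyclic T → pc p (Nat.card T) =
      Nat.card {a : A × A // a.1 ∈ T ∧ a.2 ∈ T ∧ ¬ p ∣ orderOf a.2}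

end Pool.Agent.N20.EW
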