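import Pool.Agent.N20.EW.Stm2

/-!
# The weight conjecture and automorphisms: extension of representations
-/

set_option autoImplicit false

open scoped Classical BigOperators

noncomputable section

namespace Pool.Agent.N20.EW

/-- X1R: invariant irreducible representations extend to cyclic extensions -/
def S_X1R : Prop := ∀ (F : Type) [Field F] [IsAlgClosed F] (G K : Type) [Group G] [Group K]
    [Finite G] [Finite K] (i : G →* K), CycExt i (0 : K → F) →
    ∀ (V : Type) [AddCommGroup V] [Module F V] [FiniteDimensional F V] (ρ : Representation F G V),
    ρ.IsIrreducible → (∀ (k : K) (x y : G), i y = k * i x * k⁻¹ → ρ.character y = ρ.character x) →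
    ∃ ρ' : Representation F K V, ∀ g : G, ρ' (i g) = ρ g

/-- X2R: extensions of irreducible representations do not vanish on any coset -/
def S_X2R : Prop := ∀ (F : Type) [Field F] [IsAlgClosed F] (G K : Type) [Group G] [Group K]
    [Finite G] [Finite K] (i : G →* K) (V : Type) [AddCommGroup V] [Module F V]
    [FiniteDimensional F V] (ρ' : Representation F K V) (ρ : Representation F G V),
    ρ.IsIrreducible → (∀ g : G, ρ' (i g) = ρ g) → ∀ k : K, ∃ g : G, ρ'.character (k * i g) ≠ 0

end Pool.Agent.N20.EW
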