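import Pool.Agent.N20.EW.Stm2
import Pool.Agent.Y63.NV.Krc

/-!
# The Knörr–Robinson conjecture and automorphisms: statements
-/

set_option autoImplicit false

open scoped Classical BigOperators

noncomputable section

namespace Pool.Agent.N20.EW

open Pool.Agent.Y63.NV
open Pool.Agent.Y63.KR
open Pool.Agent.Y63.AWC (IsIrreducibleCharacter pSubgroupSetoid)
open Pool.Agent.R674.Tw (Fixes GCh NG)

/-- the number of irreducible characters whose central character has the value `c` at `z` -/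
def Kn {F : Type} [Field F] (red : integralClosure ℤ ℂ →+* F) {J : Type} [Group J] (z : J → F)
    (c : F) : ℕ :=
  Nat.card {χ : J → ℂ // IsIrreducibleCharacter χ ∧ centralValue red χ z = c}

/-- the Knörr–Robinson equality for `H` and the value `c` at `z` -/
def KRz (p : ℕ) {F : Type} [Field F] (red : integralClosure ℤ ℂ →+* F) (H : Type) [Group H]
    (z : H → F) (c : F) : Prop :=
  ∑ᶠ σ : {σ : Set (Subgroup H) // IsPChain p σ}, (-1 : ℤ) ^ σ.1.ncard *
    ((Nat.card (chainStabilizer σ.1) : ℤ) * Kn red (fun x : chainStabilizer σ.1 => z x) c) =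
  (Nat.card H : ℤ) * Nw p red (⊥ : Subgroup H) z c

/-- LINA: characters over a central subgroup meeting the commutator subgroup trivially -/
def S_LINA : Prop := ∀ (p : ℕ) (F : Type) [Field F] (red : integralClosure ℤ ℂ →+* F)
    (J K : Type) [Group J] [Group K] [Finite J] [Finite K] (π : J →* K),
    Function.Surjective π → π.ker ≤ Subgroup.center J → ∀ (G : Subgroup J),
    G ⊓ π.ker = ⊥ → (∀ a b : J, a * b * a⁻¹ * b⁻¹ ∈ G) → ∀ (m : ℕ), p.Prime →
    Nat.card π.ker = p ^ m → ∀ (z : J → F), IsClassFun z → (∀ x, x ∉ G → z x = 0) →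
    ∀ (c : F), Kn red z c = p ^ m * Kn red (fun y : K => ∑ᶠ x : J, if π x = y then z x else 0) c

/-- BLKR: from blocks to class functions -/
def S_BLKR : Prop := ∀ (p : ℕ) [Fact p.Prime] (F : Type) [Field F] [IsAlgClosed F] [CharP F p]
    (red : integralClosure ℤ ℂ →+* F) (H : Type) [Group H] [Finite H], KRB p red H →
    ∀ (z : H → F), IsClassFun z → ∀ c : F, KRz p red H z c

/-- KRC0: the version without blocks -/
def S_KRC0 : Prop := ∀ (p : ℕ) [Fact p.Prime] (F : Type) [Field F] [IsAlgClosed F] [CharP F p]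
    (red : integralClosure ℤ ℂ →+* F) (H : Type) [Group H] [Finite H],
    KRC p H ↔ KRz p red H (0 : H → F) 0

/-- EQK: the equality for a cyclic group `E/G` -/
def S_EQK : Prop := ∀ (p : ℕ) [Fact p.Prime] (F : Type) [Field F] [IsAlgClosed F] [CharP F p]
    (red : integralClosure ℤ ℂ →+* F) (E : Type) [Group E] [Finite E] (G : Subgroup E) [G.Normal]
    (t : E), (∀ k : E, ∃ n : ℤ, ∃ g ∈ G, k = t ^ n * g) → ∀ z : E → F, IsClassFun z →
    (∀ x, x ∉ G → z x = 0) → ∀ c : F,
    (∀ (Q : Type) [Group Q] [Finite Q] (zQ : Q → F), IsClassFun zQ → (z = 0 → zQ = 0) →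
      KRz p red Q zQ c) →
    ∑ᶠ σ : GCh p G, (-1 : ℤ) ^ σ.1.ncard * ((Nat.card (NG G σ.1) : ℤ) *
      Nat.card {ψ : NG G σ.1 → ℂ // IsIrreducibleCharacter ψ ∧
        centralValue red ψ (fun x => z x) = c ∧
        ∃ g ∈ G, g * t ∈ chainStabilizer σ.1 ∧ Fixes (g * t) ψ}) =
    (Nat.card G : ℤ) * Nat.card {ψ : G → ℂ // IsWt p (⊥ : Subgroup G) ψ ∧
      centralValue red ψ (fun x => z x) = c ∧ Fixes t ψ}

/-- the pair `(σ, ψ)` is fixed by the product of `α` and an inner automorphism -/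
def FixC {G : Type} [Group G] (α : MulAut G) (σ : Set (Subgroup G))
    (ψ : chainStabilizer σ → ℂ) : Prop :=
  ∃ g : G, (∀ P ∈ σ, conjSub g (P.map α.toMonoidHom) = P) ∧
    ∀ x y : chainStabilizer σ, (y : G) = g * α x * g⁻¹ → ψ y = ψ x

/-- AUTK: the equality for an automorphism -/
def S_AUTK : Prop := ∀ (p : ℕ) [Fact p.Prime] (F : Type) [Field F] [IsAlgClosed F] [CharP F p]
    (red : integralClosure ℤ ℂ →+* F) (G : Type) [Group G] [Finite G] (α : MulAut G) (z : G → F),
    IsClassFun z → (∀ x, z (α x) = z x) → ∀ c : F,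
    (∀ (Q : Type) [Group Q] [Finite Q] (zQ : Q → F), IsClassFun zQ → (z = 0 → zQ = 0) →
      KRz p red Q zQ c) →
    ∑ᶠ σ : {σ : Set (Subgroup G) // IsPChain p σ}, (-1 : ℤ) ^ σ.1.ncard *
      ((Nat.card (chainStabilizer σ.1) : ℤ) *
        Nat.card {ψ : chainStabilizer σ.1 → ℂ // IsIrreducibleCharacter ψ ∧
          centralValue red ψ (fun x => z x) = c ∧ FixC α σ.1 ψ}) =
    (Nat.card G : ℤ) * Nat.card {ψ : G → ℂ // IsWt p (⊥ : Subgroup G) ψ ∧
      centralValue red ψ z = c ∧ ∀ x, ψ (α x) = ψ x}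

/-- CPR: twisted commuting pairs -/
def S_CPR : Prop := ∀ (G : Type) [Group G] [Finite G] (α : MulAut G) (σ : Set (Subgroup G)),
    Nat.card (chainStabilizer σ) * Nat.card {ψ : chainStabilizer σ → ℂ //
      IsIrreducibleCharacter ψ ∧ FixC α σ ψ} =
    Nat.card {a : G × G // (∀ P ∈ σ, conjSub a.1 (P.map α.toMonoidHom) = P) ∧
      a.2 ∈ chainStabilizer σ ∧ a.1 * α a.2 * a.1⁻¹ = a.2}

end Pool.Agent.N20.EW
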