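import Pool.Agent.N20.EW.Fin

/-!
# The weight conjecture and automorphisms: the final statements
-/

set_option autoImplicit false

open scoped Classical BigOperators

noncomputable section

namespace Pool.Agent.N20.EW

open Pool.Agent.Y63.NV
open Pool.Agent.Y63.KR
open Pool.Agent.Y63.AWC (IsIrreducibleCharacter pSubgroupSetoid)

/-- the subgroup representing the class `q` of `p`-subgroups -/
def rep {p : ℕ} {G : Type} [Group G] (q : Quotient (pSubgroupSetoid p G)) : Subgroup G := q.out.1

section

variable (p : ℕ) {F : Type} [Field F] (red : integralClosure ℤ ℂ →+* F) {G : Type} [Group G]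
  (B : (G → F) → F)

/-- `(R, ξ)` is a weight of the block `B` (for a `p`-subgroup `R`): `ξ` is the inflation to `N_G(R)`
of a character of defect zero of `N_G(R)/R` and the block of `ξ` induces `B`. -/
def Wgt (R : Subgroup G) (ξ : Subgroup.normalizer (R : Set G) → ℂ) : Prop :=
  IsWt p (R.subgroupOf (Subgroup.normalizer (R : Set G))) ξ ∧
    ∀ f : G → F, IsClassFun f → centralValue red ξ (fun x => f x) = B f

/-- The classes of weights of `B`, given by the weights `(R, ξ)` with `R` in a set of representatives
of the classes of `p`-subgroups. -/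
def Wts : Type :=
  Σ q : Quotient (pSubgroupSetoid p G),
    {ξ : Subgroup.normalizer (rep q : Set G) → ℂ // Wgt p red B (rep q) ξ}

end

section

variable {p : ℕ} {F : Type} [Field F] {red : integralClosure ℤ ℂ →+* F} {G : Type} [Group G]
  {B : (G → F) → F}

/-- the subgroup `R` of the weight `(R, ξ)` -/
def Wts.grp (w : Wts p red B) : Subgroup G := rep w.1

/-- the character `ξ` of the weight `(R, ξ)` -/
def Wts.chr (w : Wts p red B) : Subgroup.normalizer (w.grp : Set G) → ℂ := w.2.1

/-- The automorphism `α` maps the class of `w` to the class of `w'`: for some `g` in `G`, `w'` is the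
image of `w` under `x ↦ g α(x) g⁻¹`. -/
def ImgW (α : MulAut G) (w w' : Wts p red B) : Prop :=
  ∃ g : G, Maps (MulAut.conj g * α) w.chr w'.chr

/-- the automorphism `α` maps the character `φ` to `φ'`: `φ'(α(x)) = φ(x)` -/
def ImgC (α : MulAut G) (φ φ' : IBrB B) : Prop := ∀ x : G, φ'.1 (α x) = φ.1 x

end

section

variable (p : ℕ) {F : Type} [Field F] (red : integralClosure ℤ ℂ →+* F) (G : Type) [Group G]

/-- Alperin's weight conjecture for the blocks of `G` -/
def AwcN : Prop := ∀ B : (G → F) → F, IsBlock B → Nat.card (IBrB B) = Nat.card (Wts p red B)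

/-- For all automorphisms `α` of `G` and all `α`-invariant blocks the numbers of the `α`-invariant
irreducible characters over `F` and of the `α`-invariant classes of weights are equal. -/
def AwcF : Prop := ∀ (α : MulAut G) (B : (G → F) → F), IsBlock B → InvA B α →
  Nat.card {φ : IBrB B // ImgC α φ φ} = Nat.card {w : Wts p red B // ImgW α w w}

/-- For all automorphisms `α` of `G` and all `α`-invariant blocks there is a bijection from the
irreducible characters over `F` to the classes of weights which commutes with `α`. -/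
def AwcE : Prop := ∀ (α : MulAut G) (B : (G → F) → F), IsBlock B → InvA B α →
  ∃ e : IBrB B ≃ Wts p red B, ∀ φ φ' : IBrB B, ImgC α φ φ' → ImgW α (e φ) (e φ')

end

theorem maps_iff {G : Type} [Group G] (α : MulAut G) (R : Subgroup G)
    (ξ : Subgroup.normalizer (R : Set G) → ℂ) :
    (∃ g : G, Maps (MulAut.conj g * α) ξ ξ) ↔ FixW α R ξ := by
  refine exists_congr fun g => ?_
  have h0 : ∀ x : G, (MulAut.conj g * α) x = g * α x * g⁻¹ := fun x => rfl
  unfold Maps
  refine and_congr ?_ ?_
  · constructor
    · intro h x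
      constructor
      · intro hx
        rw [h]
        exact ⟨x, hx, h0 x⟩
      · intro hx
        rw [h] at hx
        obtain ⟨y, hy, hxy⟩ := hx
        have h1 : (MulAut.conj g * α) y = (MulAut.conj g * α) x := hxy.trans (h0 x).symm
        rwa [← (MulAut.conj g * α).injective h1]
    · intro h
      ext x
      constructor
      · intro hx
        refine ⟨(MulAut.conj g * α).symm x, (h _).2 ?_, (MulAut.conj g * α).apply_symm_apply x⟩
        rw [← h0, (MulAut.conj g * α).apply_symm_apply]
        exact hx
      · rintro ⟨y, hy, rfl⟩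
        exact (h y).1 hy
  · exact Iff.rfl

theorem fixL_eq {F : Type} [Field F] {G : Type} [Group G] (B : (G → F) → F) (α : MulAut G) :
    fixL B α = Nat.card {φ : IBrB B // ImgC α φ φ} := by
  exact Nat.card_congr
    { toFun := fun φ => ⟨⟨φ.1, φ.2.1, φ.2.2.1⟩, φ.2.2.2⟩
      invFun := fun φ => ⟨φ.1.1, φ.1.2.1, φ.1.2.2, φ.2⟩
      left_inv := fun φ => rfl
      right_inv := fun φ => rfl }

section

variable (p : ℕ) {F : Type} [Field F] (red : integralClosure ℤ ℂ →+* F) {G : Type}
  [Group G] [Finite G] (B : (G → F) → F)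

theorem fin_Wgt (R : Subgroup G) :
    Finite {ξ : Subgroup.normalizer (R : Set G) → ℂ // Wgt p red B R ξ} := by
  have hX := Pool.Agent.Y171.NV.irr_fin (Subgroup.normalizer (R : Set G))
  exact Finite.of_injective (fun χ : {ξ : Subgroup.normalizer (R : Set G) → ℂ //
      Wgt p red B R ξ} =>
    (⟨χ.1, χ.2.1.irr⟩ : {χ : Subgroup.normalizer (R : Set G) → ℂ //
      IsIrreducibleCharacter χ}))
    (fun a b h => Subtype.ext (congrArg (fun t => t.1) h))

theorem fixW_eq (α : MulAut G) : fixW p red B α = Nat.card {w : Wts p red B // ImgW α w w} := by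
  have _i2 : ∀ q : Quotient (pSubgroupSetoid p G),
      Finite {ξ : Subgroup.normalizer (rep q : Set G) → ℂ // Wgt p red B (rep q) ξ} :=
    fun q => fin_Wgt p red B (rep q)
  have h := Pool.Agent.N85.WM.card_sig
    (fun q : Quotient (pSubgroupSetoid p G) =>
      {ξ : Subgroup.normalizer (rep q : Set G) → ℂ // Wgt p red B (rep q) ξ})
    (fun w => ImgW (p := p) (red := red) (B := B) α w w)
  refine Eq.trans ?_ h.symm
  refine finsum_congr fun q => ?_
  exact Nat.card_congr
    { toFun := fun ξ => ⟨⟨ξ.1, ξ.2.1, ξ.2.2.1⟩, (maps_iff α (rep q) ξ.1).2 ξ.2.2.2⟩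
      invFun := fun ξ => ⟨ξ.1.1, ξ.1.2.1, ξ.1.2.2, (maps_iff α (rep q) ξ.1.1).1 ξ.2⟩
      left_inv := fun ξ => rfl
      right_inv := fun ξ => rfl }

end

/-- the two forms of the set of classes of weights -/
def wtE (p : ℕ) {F : Type} [Field F] (red : integralClosure ℤ ℂ →+* F) {G : Type}
    [Group G] (B : (G → F) → F) : WtB p red B ≃ Wts p red B where
  toFun w := ⟨w.1, w.2.1, w.2.2⟩
  invFun w := ⟨w.1, w.2.1, w.2.2⟩
  left_inv _ := rfl
  right_inv _ := rfl

variable (p : ℕ) [Fact p.Prime] (F : Type) [Field F] [IsAlgClosed F] [CharP F p]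
  (red : integralClosure ℤ ℂ →+* F)

/-- **the main theorem** -/
theorem main : ((∀ (G : Type) [Group G] [Finite G], AwcN p red G) ↔
      ∀ (G : Type) [Group G] [Finite G], AwcF p red G) ∧
    ((∀ (G : Type) [Group G] [Finite G], AwcN p red G) ↔
      ∀ (G : Type) [Group G] [Finite G], AwcE p red G) := by
  have h1 : (∀ (G : Type) [Group G] [Finite G], AwcN p red G) →
      ∀ (G : Type) [Group G] [Finite G], AwcF p red G := by
    intro h G _ _ α B hB hinv
    have h2 := fix_of_awc p F red (fun K _ _ b hb => by
      have h3 := h K b hb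
      rw [← Nat.card_congr (wtE p red b), card_WtB] at h3
      exact h3) G α B hB hinv
    rw [fixL_eq, fixW_eq] at h2
    exact h2
  have h2 : (∀ (G : Type) [Group G] [Finite G], AwcF p red G) →
      ∀ (G : Type) [Group G] [Finite G], AwcE p red G := by
    intro h G _ _ α B hB hinv
    obtain ⟨e, he⟩ := bij_of_fix p F red G (fun α B hB hinv => by
      rw [fixL_eq, fixW_eq]
      exact h G α B hB hinv) α B hB hinv
    exact ⟨e.trans (wtE p red B), fun φ φ' hφ => he φ φ' hφ⟩
  have h3 : (∀ (G : Type) [Group G] [Finite G], AwcE p red G) →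
      ∀ (G : Type) [Group G] [Finite G], AwcN p red G := by
    intro h G _ _ B hB
    obtain ⟨e, -⟩ := h G 1 B hB fun f _ => rfl
    exact Nat.card_congr e
  exact ⟨⟨h1, fun h => h3 (h2 h)⟩, ⟨fun h => h2 (h1 h), h3⟩⟩

end Pool.Agent.N20.EW
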